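import Pool.Agent.TStar.Seq

set_option autoImplicit false

namespace TStar

/-! S1 (SeqA): elementary properties of chains, suffixes -/

/-- last argmax -/
theorem exists_last_max (f : ℕ → ℤ) {a b : ℕ} (hab : a ≤ b) : ∃ e, a ≤ e ∧ e ≤ b ∧
    (∀ j, a ≤ j → j ≤ b → f j ≤ f e) ∧ (∀ j, e < j → j ≤ b → f j < f e) := by
  induction b, hab using Nat.le_induction with
  | base =>
    refine ⟨a, le_rfl, le_rfl, fun j h1 h2 => ?_, fun j h1 h2 => ?_⟩
    · have : j = a := by omega
      rw [this]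
    · omega
  | succ b hab ih =>
    obtain ⟨e, h1, h2, h3, h4⟩ := ih
    by_cases hc : f e ≤ f (b + 1)
    · refine ⟨b + 1, by omega, le_rfl, fun j hj1 hj2 => ?_, fun j hj1 hj2 => by omega⟩
      rcases Nat.lt_or_ge b j with hj | hj
      · have : j = b + 1 := by omega
        rw [this]
      · exact le_trans (h3 j hj1 hj) hc
    · refine ⟨e, h1, by omega, fun j hj1 hj2 => ?_, fun j hj1 hj2 => ?_⟩
      · rcases Nat.lt_or_ge b j with hj | hj
        · have : j = b + 1 := by omega
          rw [this]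
          omega
        · exact h3 j hj1 hj
      · rcases Nat.lt_or_ge b j with hj | hj
        · have : j = b + 1 := by omega
          rw [this]
          omega
        · exact h4 j hj1 hj

/-- last argmin -/
theorem exists_last_min (f : ℕ → ℤ) {a b : ℕ} (hab : a ≤ b) : ∃ e, a ≤ e ∧ e ≤ b ∧
    (∀ j, a ≤ j → j ≤ b → f e ≤ f j) ∧ (∀ j, e < j → j ≤ b → f e < f j) := by
  obtain ⟨e, h1, h2, h3, h4⟩ := exists_last_max (fun j => - f j) hab
  refine ⟨e, h1, h2, fun j hj1 hj2 => ?_, fun j hj1 hj2 => ?_⟩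
  · have := h3 j hj1 hj2
    try simp only at this
    omega
  · have := h4 j hj1 hj2
    try simp only at this
    omega

theorem Chn.le {f : ℕ → ℤ} {a b k : ℕ} (h : Chn f a b k) : a ≤ b := by
  cases h with
  | base _ _ _ hab _ => exact hab
  | step _ _ c _ k hac hcb _ _ _ => omega

theorem Chn.low {f : ℕ → ℤ} {a b k : ℕ} (h : Chn f a b k) : ∀ j, a ≤ j → j ≤ b → f a ≤ f j := by
  cases h with
  | base _ _ _ hab h => exact fun j h1 h2 => (h j h1 h2).1
  | step _ _ c _ k hac hcb h _ _ => exact fun j h1 h2 => (h j h1 h2).1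

theorem Chn.congr {f g : ℕ → ℤ} {a b k : ℕ} (h : Chn f a b k) (hfg : ∀ j, a ≤ j → j ≤ b → f j = g j) :
    Chn g a b k := by
  induction h generalizing g with
  | base f a b hab h =>
    refine Chn.base g a b hab (fun j h1 h2 => ?_)
    rw [← hfg j h1 h2, ← hfg a le_rfl hab, ← hfg b hab le_rfl]
    exact h j h1 h2
  | step f a c b k hac hcb h hs hr ih =>
    refine Chn.step g a c b k hac hcb (fun j h1 h2 => ?_) (fun j h1 h2 => ?_) (ih fun j h1 h2 => ?_)
    · rw [← hfg j h1 h2, ← hfg a le_rfl (by omega), ← hfg c hac hcb.le]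
      exact h j h1 h2
    · rw [← hfg j (by omega) h2, ← hfg c hac hcb.le]
      exact hs j h1 h2
    · show - f j = - g j
      rw [hfg j (by omega) h2]

theorem Chn.trans_aux {f : ℕ → ℤ} {A B k : ℕ} (m : ℕ) (h : Chn f A B k) : ∀ (a b : ℕ) (c : ℤ), A = a + m →
    B = b + m → Chn (fun j => f (j + m) + c) a b k := by
  induction h with
  | base f A B hab h =>
    intro a b c hA hB
    refine Chn.base _ a b (by omega) (fun j h1 h2 => ?_)
    have := h (j + m) (by omega) (by omega)
    simp only [← hA, ← hB]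
    omega
  | step f A C B k hac hcb h hs hr ih =>
    intro a b c hA hB
    have hC : C = (C - m) + m := by omega
    have hv : f C = f (C - m + m) := by rw [← hC]
    refine Chn.step _ a (C - m) b k (by omega) (by omega) (fun j h1 h2 => ?_) (fun j h1 h2 => ?_) ?_
    · have := h (j + m) (by omega) (by omega)
      simp only [← hA, ← hv]
      omega
    · have := hs (j + m) (by omega) (by omega)
      simp only [← hv]
      omega
    · refine (ih (C - m) b (-c) hC hB).congr (fun j _ _ => ?_)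
      try simp only
      ring

/-- translation of the indices and of the values -/
theorem Chn.trans {f : ℕ → ℤ} {a b k : ℕ} (m : ℕ) (c : ℤ) (h : Chn f (a + m) (b + m) k) :
    Chn (fun j => f (j + m) + c) a b k :=
  Chn.trans_aux m h a b c rfl rfl

theorem Chn.suffix_aux {f : ℕ → ℤ} {a b k : ℕ} (h : Chn f a b k) : ∀ s, a ≤ s → s ≤ b →
    ((∀ j, s < j → j ≤ b → f s < f j) → ∃ k', k' ≤ k ∧ Chn f s b k') ∧
    ((∀ j, s < j → j ≤ b → f j < f s) → ∃ k', k' ≤ k ∧ Chn (fun j => - f j) s b k') := by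
  induction h with
  | base f a b hab h =>
    intro s h1 h2
    refine ⟨fun hm => ⟨0, le_rfl, Chn.base _ _ _ h2 fun j hj1 hj2 => ?_⟩,
      fun hm => ⟨0, le_rfl, Chn.base _ _ _ h2 fun j hj1 hj2 => ?_⟩⟩
    · refine ⟨?_, (h j (by omega) hj2).2⟩
      rcases Nat.eq_or_lt_of_le hj1 with hj | hj
      · rw [hj]
      · exact (hm j hj hj2).le
    · rcases Nat.eq_or_lt_of_le h2 with hs | hs
      · have : j = b := by omega
        rw [this, hs]
        exact ⟨le_rfl, le_rfl⟩
      · exfalso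
        have h3 := hm b hs le_rfl
        have h4 := (h s h1 h2).2
        omega
  | step f a c b k hac hcb h hs hr ih =>
    intro s h1 h2
    constructor
    · intro hm
      rcases Nat.lt_or_ge s c with hsc | hsc
      · refine ⟨k + 1, le_rfl, Chn.step _ s c b k hsc.le hcb (fun j hj1 hj2 => ⟨?_, (h j (by omega) hj2).2⟩) hs hr⟩
        rcases Nat.eq_or_lt_of_le hj1 with hj | hj
        · rw [hj]
        · exact (hm j hj hj2).le
      · obtain ⟨k', hk', hc'⟩ := (ih s hsc h2).2 (fun j hj1 hj2 => by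
          have := hm j hj1 hj2
          try simp only
          omega)
        refine ⟨k', by omega, hc'.congr fun j _ _ => ?_⟩
        try simp only
        ring
    · intro hm
      have hsc : c ≤ s := by
        by_contra hcon
        have h3 := hm c (by omega) hcb.le
        have h4 := (h s h1 h2).2
        omega
      obtain ⟨k', hk', hc'⟩ := (ih s hsc h2).1 (fun j hj1 hj2 => by
        have := hm j hj1 hj2
        try simp only
        omega)
      exact ⟨k', by omega, hc'⟩

/-- suffix from the last minimum, for a chain of f -/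
theorem Chn.suffix {f : ℕ → ℤ} {a b k s : ℕ} (h : Chn f a b k) (h1 : a ≤ s) (h2 : s ≤ b)
    (hm : ∀ j, s < j → j ≤ b → f s < f j) : ∃ k', k' ≤ k ∧ Chn f s b k' :=
  (h.suffix_aux s h1 h2).1 hm

/-- suffix from the last minimum of f, for a chain of -f -/
theorem Chn.suffix_neg {f : ℕ → ℤ} {a b k s : ℕ} (h : Chn (fun j => - f j) a b k) (h1 : a ≤ s) (h2 : s ≤ b)
    (hm : ∀ j, s < j → j ≤ b → f s < f j) : ∃ k', k' ≤ k ∧ Chn f s b k' := by
  obtain ⟨k', hk', hc'⟩ := (h.suffix_aux s h1 h2).2 (fun j hj1 hj2 => by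
    have := hm j hj1 hj2
    try simp only
    omega)
  refine ⟨k', hk', hc'.congr fun j _ _ => ?_⟩
  try simp only
  ring

/-- (a') suffix from a later minimum with the same value: not more turns -/
theorem Chn.same {f : ℕ → ℤ} {a b k s : ℕ} (h : Chn f a b k) (h1 : a ≤ s) (h2 : s ≤ b) (_he : f s = f a)
    (hm : ∀ j, s < j → j ≤ b → f s < f j) : ∃ k', k' ≤ k ∧ Chn f s b k' :=
  h.suffix h1 h2 hm

/-- one strand in front of a chain -/
theorem Chn.prepend {f : ℕ → ℤ} {a c b k : ℕ} (hac : a ≤ c) (hcb : c < b)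
    (hlow : ∀ j, a ≤ j → j ≤ b → f a ≤ f j) (htop : ∀ j, a ≤ j → j ≤ b → f j ≤ f c)
    (h : Chn (fun j => - f j) c b k) : ∃ k', k' ≤ k + 1 ∧ Chn f a b k' := by
  obtain ⟨e, h1, h2, h3, h4⟩ := exists_last_max f (a := a) (b := b) (by omega)
  have hec : c ≤ e := by
    by_contra hcon
    have h5 := h4 c (by omega) hcb.le
    have h6 := htop e h1 h2
    omega
  rcases Nat.eq_or_lt_of_le h2 with heb | heb
  · refine ⟨0, by omega, Chn.base _ _ _ (by omega) fun j hj1 hj2 => ⟨hlow j hj1 hj2, ?_⟩⟩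
    rw [← heb]
    exact h3 j hj1 hj2
  · obtain ⟨k', hk', hc'⟩ := h.suffix (s := e) hec h2 (fun j hj1 hj2 => by
      have := h4 j hj1 hj2
      try simp only
      omega)
    exact ⟨k' + 1, by omega, Chn.step _ a e b k' h1 heb (fun j hj1 hj2 => ⟨hlow j hj1 hj2, h3 j hj1 hj2⟩) h4 hc'⟩

/-- two strands in front of a chain (the last part may go beyond the first turn) -/
theorem Chn.prepend2 {f : ℕ → ℤ} {a c d b k : ℕ} (hac : a ≤ c) (hcd : c ≤ d) (hdb : d < b)
    (hlow : ∀ j, a ≤ j → j ≤ b → f a ≤ f j) (htop : ∀ j, a ≤ j → j ≤ d → f j ≤ f c)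
    (hcd2 : ∀ j, c ≤ j → j ≤ d → f d ≤ f j) (h : Chn f d b k) : ∃ k', k' ≤ k + 2 ∧ Chn f a b k' := by
  obtain ⟨e, h1, h2, h3, h4⟩ := exists_last_max f (a := a) (b := b) (by omega)
  rcases Nat.eq_or_lt_of_le h2 with heb | heb
  · refine ⟨0, by omega, Chn.base _ _ _ (by omega) fun j hj1 hj2 => ⟨hlow j hj1 hj2, ?_⟩⟩
    rw [← heb]
    exact h3 j hj1 hj2
  rcases Nat.lt_or_ge e d with hed | hed
  · have hec : c ≤ e := by
      by_contra hcon
      have h5 := h4 c (by omega) (by omega)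
      have h6 := htop e h1 (by omega)
      omega
    obtain ⟨m, g1, g2, g3, g4⟩ := exists_last_min f (a := e) (b := b) h2
    have hdm : d ≤ m := by
      by_contra hcon
      have h5 := g4 d (by omega) (by omega)
      have h6 := hcd2 m (by omega) (by omega)
      omega
    have hback : ∀ j, e ≤ j → j ≤ b → (fun j => - f j) e ≤ (fun j => - f j) j ∧
        (fun j => - f j) j ≤ (fun j => - f j) m := by
      intro j hj1 hj2
      have h5 := h3 j (by omega) hj2
      have h6 := g3 j hj1 hj2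
      try simp only
      omega
    rcases Nat.eq_or_lt_of_le g2 with hmb | hmb
    · refine ⟨1, by omega, Chn.step _ a e b 0 h1 heb (fun j hj1 hj2 => ⟨hlow j hj1 hj2, h3 j hj1 hj2⟩) h4 ?_⟩
      rw [hmb] at hback
      exact Chn.base _ _ _ h2 hback
    · obtain ⟨k', hk', hc'⟩ := h.suffix (s := m) hdm g2 g4
      refine ⟨k' + 2, by omega, Chn.step _ a e b (k' + 1) h1 heb
        (fun j hj1 hj2 => ⟨hlow j hj1 hj2, h3 j hj1 hj2⟩) h4 ?_⟩
      refine Chn.step _ e m b k' g1 hmb hback (fun j hj1 hj2 => ?_) (hc'.congr fun j _ _ => ?_)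
      · have := g4 j hj1 hj2
        try simp only
        omega
      · try simp only
        ring
  · obtain ⟨k', hk', hc'⟩ := (h.suffix_aux e hed h2).2 h4
    exact ⟨k' + 1, by omega, Chn.step _ a e b k' h1 heb (fun j hj1 hj2 => ⟨hlow j hj1 hj2, h3 j hj1 hj2⟩) h4 hc'⟩

/-- suffix from any minimum of the rest -/
theorem Chn.suffix_weak {f : ℕ → ℤ} {a b k s : ℕ} (h : Chn f a b k ∨ Chn (fun j => - f j) a b k) (h1 : a ≤ s)
    (h2 : s ≤ b) (hm : ∀ j, s ≤ j → j ≤ b → f s ≤ f j) : ∃ k', k' ≤ k + 2 ∧ Chn f s b k' := by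
  obtain ⟨m, g1, g2, g3, g4⟩ := exists_last_min f (a := s) (b := b) h2
  have hfm : f m = f s := le_antisymm (g3 s le_rfl h2) (hm m g1 g2)
  have hch : ∃ k', k' ≤ k ∧ Chn f m b k' := by
    rcases h with h | h
    · exact h.suffix (by omega) g2 g4
    · exact h.suffix_neg (by omega) g2 g4
  obtain ⟨k', hk', hc'⟩ := hch
  rcases Nat.eq_or_lt_of_le g2 with hmb | hmb
  · obtain ⟨e, e1, e2, e3, e4⟩ := exists_last_max f (a := s) (b := b) h2
    rcases Nat.eq_or_lt_of_le e2 with heb | heb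
    · refine ⟨0, by omega, Chn.base _ _ _ h2 fun j hj1 hj2 => ⟨hm j hj1 hj2, ?_⟩⟩
      rw [← heb]
      exact e3 j hj1 hj2
    · refine ⟨1, by omega, Chn.step _ s e b 0 e1 heb (fun j hj1 hj2 => ⟨hm j hj1 hj2, e3 j hj1 hj2⟩) e4 ?_⟩
      refine Chn.base _ _ _ e2 fun j hj1 hj2 => ?_
      have h5 := e3 j (by omega) hj2
      have h6 := hm j (by omega) hj2
      have h7 : f b = f s := by rw [← hmb]; exact hfm
      try simp only
      omega
  · obtain ⟨c, e1, e2, e3, -⟩ := exists_last_max f (a := s) (b := m) g1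
    obtain ⟨k'', hk'', hc''⟩ := Chn.prepend2 (a := s) (c := c) (d := m) (b := b) (k := k') e1 e2 hmb hm e3
      (fun j hj1 hj2 => g3 j (by omega) (by omega)) hc'
    exact ⟨k'', by omega, hc''⟩

end TStar
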