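import Pool.Agent.TStar.DefsC
import Pool.Agent.TStar.SeqA
import Pool.Agent.PHW.TopB
import Pool.Agent.PHW.TopC
import Pool.Agent.PHW.HangA

set_option autoImplicit false

namespace HexObs

open Complex Finset ENNReal TStar

/-! C2 (CBm): walks with at most K turns against chains of at most K+1 bridges (as PHW B2, with the number of
turns) -/

/-- a later start on the first monotone part -/
private lemma cbm_start {g : ℕ → ℤ} {a s b k : ℕ} (h : Chn g a b k) (has : a ≤ s) (hsb : s ≤ b)
    (h1 : ∀ j, a ≤ j → j ≤ s → g j ≤ g s) (h2 : ∀ j, s ≤ j → j ≤ b → g s ≤ g j) : Chn g s b k := by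
  cases h with
  | base _ _ _ hab h => exact Chn.base g s b hsb fun j hj hj' => ⟨h2 j hj hj', (h j (by omega) hj').2⟩
  | step _ _ c _ k hac hcb h hs hr =>
    have hsc : s ≤ c := by
      by_contra hcon
      have e1 := hs s (by omega) hsb
      have e2 := h1 c hac (by omega)
      omega
    exact Chn.step g s c b k hsc hcb (fun j hj hj' => ⟨h2 j hj hj', (h j (by omega) hj').2⟩) hs hr

private lemma cbm_mod {t : List Bool} {i : ℕ} {T : ℕ} :
    (lev t i ≤ 3 * T → lev t i ≠ 3 * T → lev t i ≤ 3 * T - 1) := by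
  intro h1 h2
  omega

/-- cutting at the last top vertex: the rest has one turn less -/
theorem HT_split_turn {T K : ℕ} (hT : 1 ≤ T) {t : List Bool} (ht : t ∈ HT T) (hK : TurnLe K t) :
    ∃ s b, s ++ [b] ∈ Brd T ∧ ((∃ c, t = s ++ [c]) ∨
      ∃ r e, r ∈ SSt (T - 1) ∧ e.length ≤ 1 ∧ (∀ p, Lead p → Hang (p ++ (s ++ [b])) b r) ∧
        ((t = s ++ ((!b) :: (!b) :: (r ++ e)) ∧ 1 ≤ K ∧ TurnLe (K - 1) r) ∨ (r = [] ∧ t = s ++ [!b, b]))) := by
  obtain ⟨s, b, hs, hcase⟩ := HT_split hT ht
  refine ⟨s, b, hs, ?_⟩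
  rcases hcase with hc | ⟨r, e, hr, he, hh, hform⟩
  · exact Or.inl hc
  right
  rcases hform with hform | hform
  swap
  · exact ⟨r, e, hr, he, hh, Or.inr hform⟩
  -- names
  obtain ⟨m, hm⟩ : ∃ m, m = s.length := ⟨_, rfl⟩
  obtain ⟨q, hq⟩ : ∃ q, q = r ++ e := ⟨_, rfl⟩
  have hql : q.length = r.length + e.length := by rw [hq, List.length_append]
  rw [← hq] at hform
  have hn : t.length = m + 2 + q.length := by
    rw [hform, List.length_append, ← hm]
    simp only [List.length_cons]
    omega
  have hmem := ht.1.mem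
  have hinj := ht.1.inj
  have hpos : ∀ k, 1 ≤ k → k ≤ t.length → 0 < lev t k := fun k h1 h2 => (mem_St.1 (hmem k h1 h2)).1
  have hle : ∀ k, 1 ≤ k → k ≤ t.length → lev t k ≤ 3 * T := by
    intro k h1 h2
    have h3 := (mem_St.1 (hmem k h1 h2)).2
    have h4 := lev_mod t k
    split_ifs at h4 <;> omega
  have hs' := mem_Brd.1 hs
  have hsl : (s ++ [b]).length = m + 1 := by rw [List.length_append, ← hm]; rfl
  rw [hsl] at hs'
  -- beginning
  have hva : ∀ k, k ≤ m + 1 → vx oo up t k = vx oo up s k := by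
    intro k hk
    rw [hform, vx_append (by omega)]
  have hvb : ∀ k, k ≤ m + 1 → vx oo up (s ++ [b]) k = vx oo up s k := by
    intro k hk
    rw [vx_append (by omega)]
  have hlev : lev t (m + 1) = 3 * T := by
    rw [← hs'.2.2.2]
    unfold lev
    rw [hva _ le_rfl, hvb _ le_rfl]
  have hdm : dx up s m = turn (!b) up := by
    have h1 := dx_append_one (d0 := up) (t := s) (b := b)
    rw [hsl, hs'.2.2.1, ← hm] at h1
    exact (turn_turn b (dx up s m)).symm.trans (congrArg (turn (!b)) h1.symm)
  have hd0 : dx up t m = turn (!b) up := by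
    rw [hform, dx_append (by omega), hdm]
  have hform2 : t = (s ++ [!b, !b]) ++ q := by rw [hform]; simp
  have hl2 : (s ++ [!b, !b]).length = m + 2 := by rw [List.length_append, ← hm]; rfl
  have hd : dx up t (m + 1) = turn (!b) (turn (!b) up) := by
    have e1 : t = (s ++ [!b]) ++ ((!b) :: q) := by rw [hform]; simp
    have e2 : (s ++ [!b]).length = m + 1 := by rw [List.length_append, ← hm]; rfl
    rw [e1, dx_append (by omega)]
    have h1 := dx_append_one (d0 := up) (t := s) (b := !b)
    rw [e2, ← hm, hdm] at h1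
    exact h1
  have hdx2 : dx up t (m + 2) = -up := by
    have e1 : t = (s ++ [!b, !b]) ++ q := hform2
    rw [e1, dx_append (by omega)]
    have h1 := dx_append_one (d0 := up) (t := s ++ [!b]) (b := !b)
    have e2 : (s ++ [!b]).length = m + 1 := by rw [List.length_append, ← hm]; rfl
    have e3 : s ++ [!b] ++ [!b] = s ++ [!b, !b] := by simp
    rw [e3, hl2, e2] at h1
    have h2 := dx_append_one (d0 := up) (t := s) (b := !b)
    rw [e2, ← hm, hdm] at h2
    rw [h1, h2]
    cases b <;> decide
  have v2 : vx oo up t (m + 2) = vx oo up t (m + 1) + turn (!b) (turn (!b) up) := by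
    rw [show m + 2 = m + 1 + 1 from rfl, vx_succ, hd]
  have hlv2 : lev t (m + 2) = 3 * T - 1 := by
    have h1 := lev_succ t (m + 1)
    rw [hd, hlev] at h1
    have e : ip (turn (!b) (turn (!b) up)) up = -1 := by
      cases b <;> decide
    rw [e] at h1
    rw [show m + 2 = m + 1 + 1 from rfl, h1]
    ring
  have hvq : ∀ k, vx oo up q k = vx oo up t (m + 2) - vx oo up t (m + 2 + k) := by
    intro k
    have e1 : vx oo up t (m + 2 + k) = vx (vx oo up t (m + 2)) (dx up t (m + 2)) q k := by
      unfold vx dx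
      rw [vs_shift]
      apply vs_congr
      intro l _
      have h1 : tf ((s ++ [!b, !b]) ++ q) ((s ++ [!b, !b]).length + l) = tf q l := tf_append_right l
      rw [hl2, ← hform2] at h1
      exact h1
    rw [e1, hdx2, vx_turned]
    abel
  have hlq : ∀ k, lev q k = 3 * T - 1 - lev t (m + 2 + k) := by
    intro k
    have h1 := congrArg (fun p => ip p up) (hvq k)
    simp only [ip_sub_left] at h1
    have h2 : lev q k = lev t (m + 2) - lev t (m + 2 + k) := h1
    rw [h2, hlv2]
  -- levels
  have hrq : ∀ k, k ≤ r.length + 1 → lev q k = lev r k := by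
    intro k hk
    rw [hq, lev_append hk]
  have hr2 : ∀ k, 1 ≤ k → k ≤ r.length → lev t (m + 2 + k) ≤ 3 * T - 3 := by
    intro k h1 h2
    have h3 := (mem_St.1 (hr.mem k h1 h2)).1
    have h4 := hlq k
    rw [hrq k (by omega)] at h4
    have h5 := lev_mod r k
    split_ifs at h5 <;> omega
  have hup2 : ip up up = 2 := by decide
  have hone : ∀ u : List Bool, lev u 1 = 2 := by
    intro u
    rw [lev_succ, lev_zero]
    show 0 + ip up up = 2
    rw [hup2]
    norm_num
  have hlast : lev t t.length ≠ 3 * T := by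
    intro h0
    rw [hn] at h0
    have h1 := hlq q.length
    rw [h0] at h1
    have h2 : e.length = 1 := by
      by_contra hne
      have h3 : e.length = 0 := by omega
      rw [h3, add_zero] at hql
      rcases Nat.eq_zero_or_pos r.length with h4 | h4
      · rw [hql, h4, lev_zero] at h1
        omega
      · rw [hql, hrq _ (by omega)] at h1
        have h5 := (mem_St.1 (hr.mem r.length h4 le_rfl)).1
        omega
    rcases Nat.eq_zero_or_pos r.length with h4 | h4
    · have h5 : q.length = 1 := by omega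
      rw [h5, hone] at h1
      omega
    · have h5 : q.length = r.length + 1 := by omega
      rw [h5] at h1
      have h6 := lev_mod q (r.length + 1)
      have h7 := lev_succ q r.length
      rw [hrq r.length (by omega)] at h7
      have h8 := (mem_St.1 (hr.mem r.length h4 le_rfl)).1
      have h9 := lev_mod r r.length
      by_cases hev : Even r.length
      · rw [if_pos hev] at h9
        rcases step_even upd q hev with ⟨_, hip⟩ | ⟨_, hip⟩ | ⟨_, hip⟩ <;> rw [hip] at h7 <;> omega
      · rw [if_neg hev] at h9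
        rcases step_odd upd q hev with ⟨_, hip⟩ | ⟨_, hip⟩ | ⟨_, hip⟩ <;> rw [hip] at h7 <;> omega
  have hle2 : ∀ j, m + 2 ≤ j → j ≤ t.length → lev t j ≤ 3 * T - 1 := by
    intro j h1 h2
    rcases Nat.lt_or_ge (m + 2 + r.length) j with h3 | h3
    · have : j = t.length := by omega
      rw [this]
      exact cbm_mod (hle _ (by omega) le_rfl) hlast
    · rcases Nat.eq_or_lt_of_le h1 with h4 | h4
      · rw [← h4, hlv2]
      · obtain ⟨k, rfl⟩ : ∃ k, j = m + 2 + k := ⟨j - (m + 2), by omega⟩
        have := hr2 k (by omega) (by omega)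
        omega
  -- the chain
  have hne : t ≠ [] := by
    intro h0
    rw [h0, List.length_nil] at hn
    omega
  obtain ⟨k, hkK, hk⟩ : ∃ k, k ≤ K ∧ Chn (lev t) 1 t.length k := hK.resolve_left hne
  obtain ⟨k', hk', hchain⟩ : ∃ k', k = k' + 1 ∧ Chn (fun j => -lev t j) (m + 1) t.length k' := by
    cases hk with
    | base _ _ _ hab h =>
      exfalso
      have h1 := (h (m + 1) (by omega) (by omega)).2
      rw [hlev] at h1
      have h2 := hle2 t.length (by omega) le_rfl
      omega
    | step _ _ c _ k hac hcb h hs hr =>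
      have hc : c = m + 1 := by
        have h1 := (h (m + 1) (by omega) (by omega)).2
        rw [hlev] at h1
        rcases Nat.lt_trichotomy c (m + 1) with h3 | h3 | h3
        · have h4 := hs (m + 1) h3 (by omega)
          have h5 := hle c hac (by omega)
          omega
        · exact h3
        · have h4 := hle2 c (by omega) (by omega)
          omega
      rw [hc] at hr
      exact ⟨k, rfl, hr⟩
  have hK1 : 1 ≤ K := by omega
  -- transport to the turned frame
  have htrans : ∀ (u : List Bool) (κ : ℕ), 1 ≤ u.length → (∀ j, j ≤ u.length → lev u j = lev q j) →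
      Chn (fun j => -lev t j) (m + 3) (m + 2 + u.length) κ → Chn (lev u) 1 u.length κ := by
    intro u κ hu1 hu h
    have h1 := Chn.trans (f := fun j => -lev t j) (a := 1) (b := u.length) (k := κ) (m + 2) (3 * T - 1) (by
      have e1 : 1 + (m + 2) = m + 3 := by omega
      have e2 : u.length + (m + 2) = m + 2 + u.length := by omega
      rw [e1, e2]
      exact h)
    refine h1.congr fun j hj hj' => ?_
    rw [hu j hj', hlq j]
    have e : j + (m + 2) = m + 2 + j := by omega
    rw [e]
    ring
  by_cases hcase : e = [] ∨ lev t t.length ≤ 3 * T - 3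
  · -- the whole rest
    have hall : ∀ j, 1 ≤ j → j ≤ q.length → lev t (m + 2 + j) ≤ 3 * T - 3 := by
      intro j hj hj'
      rcases Nat.lt_or_ge r.length j with h3 | h3
      · rcases hcase with h4 | h4
        · rw [h4, List.length_nil] at hql
          omega
        · have : m + 2 + j = t.length := by omega
          rw [this]
          exact h4
      · exact hr2 j hj h3
    refine ⟨q, [], ?_, by simp, ?_, Or.inl ⟨by rw [List.append_nil]; exact hform, hK1, ?_⟩⟩
    · refine ⟨?_, ?_⟩
      · intro j h1 h2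
        rw [mem_St, hlq]
        have h5 := hall j h1 h2
        have h6 := hpos (m + 2 + j) (by omega) (by omega)
        rw [Nat.cast_sub hT]
        push_cast
        constructor <;> linarith
      · intro j l hjl hl heq
        rw [hvq, hvq] at heq
        apply hinj (m + 2 + j) (m + 2 + l) (by omega) (by omega)
        linear_combination (-1 : Pt) * heq
    · intro p hp
      have h2 := hang_cut (c := !b) hT (by omega) hpos hle hinj hlev hd0 hd (r := q) (by
        intro j hj
        exact ⟨by omega, hvq j⟩) hp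
      have e1 : t.take m = s := by
        rw [hform, hm]
        exact List.take_left
      rw [e1, Bool.not_not] at h2
      exact h2
    · rcases Nat.eq_zero_or_pos q.length with h0 | h0
      · exact Or.inl (List.length_eq_zero_iff.1 h0)
      · right
        refine ⟨k', by omega, htrans q k' h0 (fun _ _ => rfl) ?_⟩
        rw [← hn]
        have e3 : lev t (m + 3) = 3 * T - 3 := by
          have := hlq 1
          rw [hone] at this
          rw [show m + 3 = m + 2 + 1 from rfl]
          linarith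
        refine cbm_start hchain (by omega) (by omega) ?_ ?_
        · intro j hj hj'
          show -lev t j ≤ -lev t (m + 3)
          rw [e3]
          have : j = m + 1 ∨ j = m + 2 ∨ j = m + 3 := by omega
          rcases this with rfl | rfl | rfl
          · rw [hlev]; omega
          · rw [hlv2]; omega
          · rw [e3]
        · intro j hj hj'
          show -lev t (m + 3) ≤ -lev t j
          obtain ⟨l, rfl⟩ : ∃ l, j = m + 2 + l := ⟨j - (m + 2), by omega⟩
          have := hall l (by omega) (by omega)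
          rw [e3]
          omega
  · -- the last vertex is one of the odd vertices below the top
    rw [not_or] at hcase
    obtain ⟨hene, hlow⟩ := hcase
    have he1 : e.length = 1 := by
      have : e.length ≠ 0 := fun h => hene (List.length_eq_zero_iff.1 h)
      omega
    refine ⟨r, e, hr, he, hh, Or.inl ⟨by rw [hform, hq], hK1, ?_⟩⟩
    rcases Nat.eq_zero_or_pos r.length with h0 | h0
    · exact Or.inl (List.length_eq_zero_iff.1 h0)
    right
    have hql2 : q.length = r.length + 1 := by omega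
    have htop : lev t t.length = 3 * T - 1 := by
      have h1 := hle2 t.length (by omega) le_rfl
      have h2 := lev_mod t t.length
      split_ifs at h2 <;> omega
    have hN : t.length = (m + 2 + r.length) + 1 := by omega
    have hprev : lev t (m + 2 + r.length) = 3 * T - 3 := by
      have h1 := hr2 r.length h0 le_rfl
      have h2 := lev_succ t (m + 2 + r.length)
      rw [← hN, htop] at h2
      by_cases hev : Even (m + 2 + r.length)
      · rcases step_even upd t hev with ⟨_, hip⟩ | ⟨_, hip⟩ | ⟨_, hip⟩ <;> rw [hip] at h2 <;> omega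
      · rcases step_odd upd t hev with ⟨_, hip⟩ | ⟨_, hip⟩ | ⟨_, hip⟩ <;> rw [hip] at h2 <;> omega
    have e3 : lev t (m + 3) = 3 * T - 3 := by
      have := hlq 1
      rw [hone] at this
      rw [show m + 3 = m + 2 + 1 from rfl]
      linarith
    have hk1 : 1 ≤ k' := by
      cases hchain with
      | base _ _ _ hab h =>
        exfalso
        have h1 := (h (m + 3) (by omega) (by omega)).2
        simp only at h1
        rw [e3, htop] at h1
        omega
      | step _ _ c _ k hac hcb h hs hr => omega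
    -- a chain with at most one turn
    obtain ⟨κ, hκ, hch⟩ : ∃ κ, κ ≤ 1 ∧ Chn (fun j => -lev t j) (m + 3) (m + 2 + r.length) κ := by
      have hmax : ∀ j, m + 3 ≤ j → j ≤ m + 2 + r.length → lev t j ≤ 3 * T - 3 := by
        intro j hj hj'
        obtain ⟨l, rfl⟩ : ∃ l, j = m + 2 + l := ⟨j - (m + 2), by omega⟩
        exact hr2 l (by omega) (by omega)
      cases hchain with
      | base _ _ _ hab h =>
        exfalso
        have h1 := (h (m + 3) (by omega) (by omega)).2
        simp only at h1
        rw [e3, htop] at h1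
        omega
      | step _ _ c _ k hac hcb h hs hr' =>
        simp only at h hs
        have hc3 : m + 3 ≤ c := by
          by_contra hcon
          have h1 := hs (m + 3) (by omega) (by omega)
          have : c = m + 1 ∨ c = m + 2 := by omega
          rcases this with rfl | rfl
          · rw [hlev, e3] at h1; omega
          · rw [hlv2, e3] at h1; omega
        rcases Nat.lt_or_ge c (m + 2 + r.length) with h4 | h4
        · refine ⟨1, le_rfl, Chn.step _ _ c _ 0 hc3 h4 ?_ ?_ ?_⟩
          · intro j hj hj'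
            refine ⟨?_, (h j (by omega) (by omega)).2⟩
            show -lev t (m + 3) ≤ -lev t j
            rw [e3]
            have := hmax j hj hj'
            omega
          · intro j hj hj'
            exact hs j hj (by omega)
          · refine Chn.base _ _ _ h4.le ?_
            intro j hj hj'
            have h5 := (h j (by omega) (by omega)).2
            have h6 := hmax j (by omega) hj'
            simp only [neg_neg]
            constructor
            · omega
            · rw [hprev]
              exact h6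
        · refine ⟨0, by omega, Chn.base _ _ _ (by omega) ?_⟩
          intro j hj hj'
          have h5 := (h j (by omega) (by omega)).2
          have h6 := hmax j hj hj'
          have h7 : c = m + 2 + r.length := by omega
          rw [h7] at h5
          refine ⟨?_, h5⟩
          show -lev t (m + 3) ≤ -lev t j
          rw [e3]
          omega
    exact ⟨κ, by omega, htrans r κ h0 (fun j hj => (hrq j (by omega)).symm) hch⟩

/-! weights -/

private lemma cbm_xc_sq : (1 : ℝ≥0∞) ≤ 4 * ENNReal.ofReal (xc ^ 2) := by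
  have h : (1 : ℝ) ≤ 4 * xc ^ 2 := by
    have h1 := xc_sq
    have h2 : Real.sqrt 2 ≤ 2 := by
      rw [Real.sqrt_le_left (by norm_num)]
      norm_num
    rw [h1, mul_one_div, le_div_iff₀ (by positivity)]
    linarith
  calc (1 : ℝ≥0∞) = ENNReal.ofReal 1 := by rw [ENNReal.ofReal_one]
    _ ≤ ENNReal.ofReal (4 * xc ^ 2) := ENNReal.ofReal_le_ofReal h
    _ = 4 * ENNReal.ofReal (xc ^ 2) := by
        rw [ENNReal.ofReal_mul (by norm_num)]
        norm_num

private lemma cbm_wE_two (b : Bool) (g : List Bool) : wE g ≤ 4 * wE ((!b) :: b :: g) := by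
  have e : (!b) :: b :: g = [!b, b] ++ g := rfl
  have e2 : wE [!b, b] = ENNReal.ofReal (xc ^ 2) := rfl
  rw [e, wE_append, e2, ← mul_assoc]
  exact le_mul_of_one_le_left' cbm_xc_sq

/-- the walks that belong to the bridge g, the rest in R -/
private def cbmA (R : Set (List Bool)) (p g : List Bool) : Set (List Bool) :=
  {t | ∃ s b, g = s ++ [b] ∧ ((∃ c, t = s ++ [c]) ∨ t = s ++ [!b, b] ∨
      ∃ r e, r ∈ R ∧ e.length ≤ 1 ∧ Hang (p ++ (s ++ [b])) b r ∧ t = s ++ ((!b) :: (!b) :: (r ++ e)))}

private noncomputable def cbmG (R : Set (List Bool)) (g : List Bool) : ℝ≥0∞ :=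
  gf {r | r ∈ R ∧ Hang g true r} + gf {r | r ∈ R ∧ Hang g false r}

private lemma cbm_gf_A (R : Set (List Bool)) (p g : List Bool) :
    gf (cbmA R p g) ≤ wE g * (3 + 3 * cbmG R (p ++ g)) := by
  rcases List.eq_nil_or_concat g with h | ⟨s, b, h⟩
  · have : cbmA R p g ⊆ ∅ := by
      rintro t ⟨s, b, hg, _⟩
      rw [h] at hg
      simp at hg
    have h0 : gf (∅ : Set (List Bool)) = 0 := by
      unfold gf
      rw [_root_.tsum_subtype]
      simp
    exact (gf_mono this).trans (by rw [h0]; exact zero_le)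
  · have hR : gf {r | r ∈ R ∧ Hang (p ++ g) b r} ≤ cbmG R (p ++ g) := by
      unfold cbmG
      cases b
      · exact le_add_self
      · exact le_self_add
    have h1 : cbmA R p g ⊆ ({s ++ [true]} ∪ {s ++ [false]}) ∪ ({s ++ [!b, b]} ∪
        {t | ∃ a ∈ ({s ++ [!b, !b]} : Set (List Bool)), ∃ q ∈ {q | ∃ r ∈ {r | r ∈ R ∧ Hang (p ++ g) b r},
          ∃ e ∈ {e : List Bool | e.length ≤ 1}, q = r ++ e}, t = a ++ q}) := by
      rintro t ⟨s', b', hg, ht⟩
      have h2 : s' = s ∧ b' = b := by
        rw [h, List.concat_eq_append] at hg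
        have := List.append_inj' hg rfl
        exact ⟨this.1.symm, by simpa using this.2.symm⟩
      obtain ⟨rfl, rfl⟩ := h2
      rcases ht with ⟨c, rfl⟩ | rfl | ⟨r, e, hr, he, hh, rfl⟩
      · cases c
        · exact Or.inl (Or.inr rfl)
        · exact Or.inl (Or.inl rfl)
      · exact Or.inr (Or.inl rfl)
      · right
        right
        refine ⟨_, rfl, r ++ e, ⟨r, ⟨hr, ?_⟩, e, he, rfl⟩, by simp⟩
        rw [hg]
        exact hh
    have hg : g = s ++ [b] := by rw [h, List.concat_eq_append]
    have w1 : ∀ c, wE (s ++ [c]) = wE g := by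
      intro c
      apply B2b_wE_length
      rw [hg]
      simp
    have w2 : ∀ c c', wE (s ++ [c, c']) ≤ wE g := by
      intro c c'
      have e1 : s ++ [c, c'] = (s ++ [c]) ++ [c'] := by simp
      rw [e1, wE_append, w1]
      exact mul_le_of_le_one_right' (B2b_wE_le_one _)
    have h3 : gf {t | ∃ a ∈ ({s ++ [!b, !b]} : Set (List Bool)), ∃ q ∈ {q | ∃ r ∈ {r | r ∈ R ∧ Hang (p ++ g) b r},
          ∃ e ∈ {e : List Bool | e.length ≤ 1}, q = r ++ e}, t = a ++ q} ≤ wE g * (cbmG R (p ++ g) * 3) := by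
      refine (gf_le_mul (Q := {s ++ [!b, !b]}) (R := {q | ∃ r ∈ {r | r ∈ R ∧ Hang (p ++ g) b r},
          ∃ e ∈ {e : List Bool | e.length ≤ 1}, q = r ++ e}) (fun t ht => ht)).trans ?_
      rw [B2b_gf_singleton]
      apply mul_le_mul' (w2 _ _)
      refine (gf_le_mul (Q := {r | r ∈ R ∧ Hang (p ++ g) b r}) (R := {e : List Bool | e.length ≤ 1})
        (fun t ht => ht)).trans ?_
      exact mul_le_mul' hR B2b_gf_short
    calc gf (cbmA R p g) ≤ _ := gf_mono h1
      _ ≤ _ := gf_union_le _ _
      _ ≤ (wE g + wE g) + (wE g + wE g * (cbmG R (p ++ g) * 3)) := by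
          apply add_le_add
          · refine (gf_union_le _ _).trans ?_
            rw [B2b_gf_singleton, B2b_gf_singleton, w1, w1]
          · refine (gf_union_le _ _).trans ?_
            rw [B2b_gf_singleton]
            exact add_le_add (w2 _ _) h3
      _ = wE g * (3 + 3 * cbmG R (p ++ g)) := by ring

/-- the rests of the walks with at most K turns -/
private def cbmR (K m : ℕ) : Set (List Bool) := {r | r ∈ SSt m ∧ 1 ≤ K ∧ TurnLe (K - 1) r}

private noncomputable def cbmH (K m : ℕ) (g : List Bool) : ℝ≥0∞ := cbmG (cbmR K m) g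

private lemma cbmH_zero (m : ℕ) (g : List Bool) : cbmH 0 m g = 0 := by
  have h0 : gf (∅ : Set (List Bool)) = 0 := by
    unfold gf
    rw [_root_.tsum_subtype]
    simp
  have h1 : ∀ b, {r | r ∈ cbmR 0 m ∧ Hang g b r} = ∅ := by
    intro b
    ext r
    constructor
    · rintro ⟨⟨_, h, _⟩, _⟩
      omega
    · intro h
      exact absurd h (Set.notMem_empty _)
  unfold cbmH cbmG
  rw [h1, h1, h0, add_zero]

private lemma cbmH_succ (K m : ℕ) (g : List Bool) : cbmH (K + 1) m g = GHK K m g := by
  have h1 : ∀ b, {r | r ∈ cbmR (K + 1) m ∧ Hang g b r} = {t | t ∈ SSt m ∧ TurnLe K t ∧ Hang g b t} := by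
    intro b
    ext r
    constructor
    · rintro ⟨⟨h2, _, h3⟩, h4⟩
      exact ⟨h2, h3, h4⟩
    · rintro ⟨h2, h3, h4⟩
      exact ⟨⟨h2, by omega, h3⟩, h4⟩
  unfold cbmH cbmG GHK
  rw [h1, h1]

private lemma cbm_gf_iUnion (I : Finset ℕ) (Q : ℕ → Set (List Bool)) : gf (⋃ T ∈ I, Q T) ≤ ∑ T ∈ I, gf (Q T) := by
  classical
  induction I using Finset.induction_on with
  | empty => simp [gf]
  | insert a s ha ih =>
    rw [Finset.set_biUnion_insert, Finset.sum_insert ha]
    exact (gf_union_le _ _).trans (add_le_add le_rfl ih)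

/-- walks with top level T that hang at g -/
private lemma cbm_HT (K T : ℕ) (g : List Bool) (b : Bool) :
    gf {t | t ∈ HT T ∧ TurnLe K t ∧ Hang g b t} ≤ ∑' h : {h : List Bool // h ∈ Brd T ∧ Hang g b h},
      wE h.1 * (3 + 3 * if T = 0 then 0 else cbmH K (T - 1) ((!b) :: b :: h.1)) := by
  have hP := PrefC_Hang g b
  have hL := LastC_Hang g b
  rcases Nat.eq_zero_or_pos T with rfl | hT
  · rw [HT_zero]
    have h1 : {t | t ∈ ({[]} : Set (List Bool)) ∧ TurnLe K t ∧ Hang g b t} ⊆
        ⋃ h : {h : List Bool // h ∈ Brd 0 ∧ Hang g b h}, {h.1} := by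
      rintro t ⟨ht, _, hh⟩
      rw [Set.mem_singleton_iff] at ht
      subst ht
      rw [Set.mem_iUnion]
      exact ⟨⟨[], nil_mem_Brd, hh⟩, rfl⟩
    calc gf {t | t ∈ ({[]} : Set (List Bool)) ∧ TurnLe K t ∧ Hang g b t}
        ≤ gf (⋃ h : {h : List Bool // h ∈ Brd 0 ∧ Hang g b h}, {h.1}) := gf_mono h1
      _ ≤ ∑' h : {h : List Bool // h ∈ Brd 0 ∧ Hang g b h}, gf {h.1} := ENNReal.tsum_iUnion_le_tsum wE _
      _ ≤ _ := ENNReal.tsum_le_tsum fun h => by
          rw [B2b_gf_singleton, if_pos rfl, mul_zero, add_zero]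
          exact le_mul_of_one_le_right' (by norm_num)
  · have h1 : {t | t ∈ HT T ∧ TurnLe K t ∧ Hang g b t} ⊆
        ⋃ h : {h : List Bool // h ∈ Brd T ∧ Hang g b h}, cbmA (cbmR K (T - 1)) [!b, b] h.1 := by
      rintro t ⟨ht, hK, htP⟩
      obtain ⟨s, c, hs, hcase⟩ := HT_split_turn hT ht hK
      have hsP : Hang g b (s ++ [c]) := by
        rcases hcase with ⟨c', rfl⟩ | ⟨r, e, _, _, _, ⟨h, _⟩ | ⟨_, h⟩⟩
        · exact hL _ _ _ htP
        · have e1 : t = (s ++ [!c]) ++ ((!c) :: (r ++ e)) := by rw [h]; simp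
          rw [e1] at htP
          exact hL _ _ _ (hP _ _ htP)
        · have e1 : t = (s ++ [!c]) ++ [c] := by rw [h]; simp
          rw [e1] at htP
          exact hL _ _ _ (hP _ _ htP)
      rw [Set.mem_iUnion]
      refine ⟨⟨s ++ [c], hs, hsP⟩, s, c, rfl, ?_⟩
      rcases hcase with h | ⟨r, e, hr, he, hh, ⟨h, hK1, hK2⟩ | ⟨_, h⟩⟩
      · exact Or.inl h
      · right
        right
        refine ⟨r, e, ⟨hr, hK1, hK2⟩, he, hh _ ?_, h⟩
        cases b
        · exact Or.inr (Or.inl rfl)
        · exact Or.inr (Or.inr rfl)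
      · exact Or.inr (Or.inl h)
    calc gf {t | t ∈ HT T ∧ TurnLe K t ∧ Hang g b t}
        ≤ gf (⋃ h : {h : List Bool // h ∈ Brd T ∧ Hang g b h}, cbmA (cbmR K (T - 1)) [!b, b] h.1) := gf_mono h1
      _ ≤ ∑' h : {h : List Bool // h ∈ Brd T ∧ Hang g b h}, gf (cbmA (cbmR K (T - 1)) [!b, b] h.1) :=
          ENNReal.tsum_iUnion_le_tsum wE _
      _ ≤ _ := ENNReal.tsum_le_tsum fun h => by
          rw [if_neg (by omega)]
          exact cbm_gf_A _ _ _

/-- one side -/
private lemma cbm_side (K m : ℕ) (g : List Bool) (b : Bool) :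
    gf {t | t ∈ SSt m ∧ TurnLe K t ∧ Hang g b t} ≤
      5 * ∑ T ∈ Finset.range (m + 1), ∑' h : {h : List Bool // h ∈ Brd T ∧ Hang g b h},
        wE h.1 * (1 + if T = 0 then 0 else cbmH K (T - 1) ((!b) :: b :: h.1)) := by
  have hP := PrefC_Hang g b
  have hsub : {t | t ∈ SSt m ∧ TurnLe K t ∧ Hang g b t} ⊆
      (⋃ T ∈ Finset.range (m + 1), {t | t ∈ HT T ∧ TurnLe K t ∧ Hang g b t}) ∪
      ((⋃ T ∈ Finset.range m, {t | ∃ u ∈ {h | h ∈ Brd T ∧ Hang g b h}, t = u ++ [true]}) ∪
       (⋃ T ∈ Finset.range m, {t | ∃ u ∈ {h | h ∈ Brd T ∧ Hang g b h}, t = u ++ [false]})) := by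
    rintro t ⟨ht, hK, htP⟩
    rcases SSt_cases ht with ⟨T, hT, h⟩ | ⟨T, hT, u, hu, c, rfl⟩
    · left
      rw [Set.mem_iUnion₂]
      exact ⟨T, Finset.mem_range.2 (by omega), h, hK, htP⟩
    · right
      have huP : Hang g b u := hP u [c] htP
      cases c
      · right
        rw [Set.mem_iUnion₂]
        exact ⟨T, Finset.mem_range.2 hT, u, ⟨hu, huP⟩, rfl⟩
      · left
        rw [Set.mem_iUnion₂]
        exact ⟨T, Finset.mem_range.2 hT, u, ⟨hu, huP⟩, rfl⟩
  have hadd : ∀ (c : Bool) (T : ℕ), gf ({t | ∃ u ∈ {h | h ∈ Brd T ∧ Hang g b h}, t = u ++ [c]}) ≤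
      ∑' h : {h : List Bool // h ∈ Brd T ∧ Hang g b h}, wE h.1 := by
    intro c T
    refine (gf_le_mul (Q := {h | h ∈ Brd T ∧ Hang g b h}) (R := {[c]}) ?_).trans ?_
    · rintro t ⟨u, hu, rfl⟩
      exact ⟨u, hu, [c], rfl, rfl⟩
    · rw [B2b_gf_singleton]
      exact mul_le_of_le_one_right' (B2b_wE_le_one _)
  have key : ∀ T, ∑' h : {h : List Bool // h ∈ Brd T ∧ Hang g b h}, wE h.1 ≤
      ∑' h : {h : List Bool // h ∈ Brd T ∧ Hang g b h},
        wE h.1 * (1 + if T = 0 then 0 else cbmH K (T - 1) ((!b) :: b :: h.1)) := by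
    intro T
    exact ENNReal.tsum_le_tsum fun h => le_mul_of_one_le_right' le_self_add
  have key2 : ∀ c : Bool, gf (⋃ T ∈ Finset.range m, {t | ∃ u ∈ {h | h ∈ Brd T ∧ Hang g b h}, t = u ++ [c]}) ≤
      ∑ T ∈ Finset.range (m + 1), ∑' h : {h : List Bool // h ∈ Brd T ∧ Hang g b h},
        wE h.1 * (1 + if T = 0 then 0 else cbmH K (T - 1) ((!b) :: b :: h.1)) := by
    intro c
    refine (cbm_gf_iUnion _ _).trans ?_
    refine (Finset.sum_le_sum fun T _ => (hadd c T).trans (key T)).trans ?_
    exact Finset.sum_le_sum_of_subset (Finset.range_mono (by omega))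
  have key3 : gf (⋃ T ∈ Finset.range (m + 1), {t | t ∈ HT T ∧ TurnLe K t ∧ Hang g b t}) ≤
      3 * ∑ T ∈ Finset.range (m + 1), ∑' h : {h : List Bool // h ∈ Brd T ∧ Hang g b h},
        wE h.1 * (1 + if T = 0 then 0 else cbmH K (T - 1) ((!b) :: b :: h.1)) := by
    refine (cbm_gf_iUnion _ _).trans ?_
    rw [Finset.mul_sum]
    refine Finset.sum_le_sum fun T _ => (cbm_HT K T g b).trans ?_
    rw [← ENNReal.tsum_mul_left]
    exact ENNReal.tsum_le_tsum fun h => le_of_eq (by ring)
  calc gf {t | t ∈ SSt m ∧ TurnLe K t ∧ Hang g b t} ≤ _ := gf_mono hsub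
    _ ≤ _ := gf_union_le _ _
    _ ≤ _ := add_le_add le_rfl (gf_union_le _ _)
    _ ≤ _ := add_le_add key3 (add_le_add (key2 true) (key2 false))
    _ = _ := by ring

/-- passing to bridges next to g -/
private lemma cbm_shift (K T : ℕ) (g : List Bool) (b : Bool) :
    ∑' h : {h : List Bool // h ∈ Brd T ∧ Hang g b h},
        wE h.1 * (1 + if T = 0 then 0 else cbmH K (T - 1) ((!b) :: b :: h.1)) ≤
      4 * ∑' h : {h : List Bool // h ∈ Brd (T + 1) ∧ Nb g h},
        wE h.1 * (1 + if T = 0 then 0 else cbmH K (T - 1) h.1) := by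
  let φ : {h : List Bool // h ∈ Brd T ∧ Hang g b h} → {h : List Bool // h ∈ Brd (T + 1) ∧ Nb g h} :=
    fun h => ⟨(!b) :: b :: h.1, Brd_step h.2.1, Hang_Nb h.2.2⟩
  have hφ : Function.Injective φ := by
    intro x y hxy
    apply Subtype.ext
    have h1 : (!b) :: b :: x.1 = (!b) :: b :: y.1 := congrArg Subtype.val hxy
    exact (List.cons.inj (List.cons.inj h1).2).2
  calc ∑' h : {h : List Bool // h ∈ Brd T ∧ Hang g b h},
        wE h.1 * (1 + if T = 0 then 0 else cbmH K (T - 1) ((!b) :: b :: h.1))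
      ≤ ∑' h : {h : List Bool // h ∈ Brd T ∧ Hang g b h},
        4 * (wE (φ h).1 * (1 + if T = 0 then 0 else cbmH K (T - 1) (φ h).1)) :=
        ENNReal.tsum_le_tsum fun h => by
          rw [← mul_assoc]
          exact mul_le_mul_left (cbm_wE_two b h.1) _
    _ = 4 * ∑' h : {h : List Bool // h ∈ Brd T ∧ Hang g b h},
        (fun x : {h : List Bool // h ∈ Brd (T + 1) ∧ Nb g h} =>
          wE x.1 * (1 + if T = 0 then 0 else cbmH K (T - 1) x.1)) (φ h) := ENNReal.tsum_mul_left
    _ ≤ _ := mul_le_mul_right (ENNReal.tsum_comp_le_tsum_of_injective hφ _) 4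

private lemma cbm_step (K m : ℕ) (g : List Bool) :
    GHK K m g ≤ 64 * ∑ T ∈ Finset.range (m + 1), ∑' h : {h : List Bool // h ∈ Brd (T + 1) ∧ Nb g h},
        wE h.1 * (1 + if T = 0 then 0 else cbmH K (T - 1) h.1) := by
  have h1 : ∀ b, gf {t | t ∈ SSt m ∧ TurnLe K t ∧ Hang g b t} ≤
      20 * ∑ T ∈ Finset.range (m + 1), ∑' h : {h : List Bool // h ∈ Brd (T + 1) ∧ Nb g h},
        wE h.1 * (1 + if T = 0 then 0 else cbmH K (T - 1) h.1) := by
    intro b
    refine (cbm_side K m g b).trans ?_
    refine (mul_le_mul_right (Finset.sum_le_sum fun T _ => cbm_shift K T g b) 5).trans (le_of_eq ?_)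
    rw [← Finset.mul_sum]
    ring
  unfold GHK
  refine (add_le_add (h1 true) (h1 false)).trans ?_
  rw [← add_mul]
  exact mul_le_mul_left (by norm_num) _

theorem GHK_zero_le (m : ℕ) (g : List Bool) :
    GHK 0 m g ≤ 64 * ∑ T ∈ Finset.range (m + 1), ∑' h : {h : List Bool // h ∈ Brd (T + 1) ∧ Nb g h}, wE h.1 := by
  refine (cbm_step 0 m g).trans (le_of_eq ?_)
  congr 1
  refine Finset.sum_congr rfl fun T _ => tsum_congr fun h => ?_
  rw [cbmH_zero, ite_self, add_zero, mul_one]

theorem GHK_le_step (K m : ℕ) (g : List Bool) :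
    GHK (K + 1) m g ≤ 64 * ∑ T ∈ Finset.range (m + 1), ∑' h : {h : List Bool // h ∈ Brd (T + 1) ∧ Nb g h},
        wE h.1 * (1 + if T = 0 then 0 else GHK K (T - 1) h.1) := by
  refine (cbm_step (K + 1) m g).trans (le_of_eq ?_)
  congr 1
  refine Finset.sum_congr rfl fun T _ => tsum_congr fun h => ?_
  rw [cbmH_succ]

private lemma cbm_FK (K m : ℕ) (g : List Bool) :
    FK (K + 1) m g = 1 + 64 * ∑ T ∈ Finset.range m, ∑' h : {h : List Bool // h ∈ Brd (T + 1) ∧ Nb g h},
      wE h.1 * FK K T h.1 := by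
  induction m with
  | zero =>
    rw [Finset.range_zero, Finset.sum_empty, mul_zero, add_zero]
    rfl
  | succ m ih =>
    have h1 : FK (K + 1) (m + 1) g = FK (K + 1) m g +
        64 * ∑' h : {h : List Bool // h ∈ Brd (m + 1) ∧ Nb g h}, wE h.1 * FK K m h.1 := rfl
    rw [h1, ih, Finset.sum_range_succ, mul_add, add_assoc]

private lemma cbm_FK_zero (K : ℕ) (g : List Bool) : FK K 0 g = 1 := by
  cases K <;> rfl

theorem GHK_le (K m : ℕ) (g : List Bool) : 1 + GHK K m g ≤ FK (K + 1) (m + 1) g := by
  induction K generalizing m g with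
  | zero =>
    rw [cbm_FK]
    refine add_le_add le_rfl ((GHK_zero_le m g).trans (le_of_eq ?_))
    congr 1
    refine Finset.sum_congr rfl fun T _ => tsum_congr fun h => ?_
    have : FK 0 T h.1 = 1 := by cases T <;> rfl
    rw [this, mul_one]
  | succ K ih =>
    rw [cbm_FK]
    refine add_le_add le_rfl ((GHK_le_step K m g).trans ?_)
    refine mul_le_mul_right (Finset.sum_le_sum fun T _ => ENNReal.tsum_le_tsum fun h => ?_) 64
    refine mul_le_mul_right ?_ (wE h.1)
    rcases Nat.eq_zero_or_pos T with h0 | h0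
    · have e : ∀ (T' : ℕ) (h' : List Bool), T' = 0 → FK (K + 1) T' h' = 1 := by
        rintro _ h' rfl
        exact cbm_FK_zero _ _
      rw [if_pos h0, e T h.1 h0, add_zero]
    · rw [if_neg (by omega)]
      obtain ⟨n, rfl⟩ : ∃ n, T = n + 1 := ⟨T - 1, by omega⟩
      exact ih n h.1

end HexObs
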