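import Pool.Agent.TStar.DefsC
import Pool.Agent.TStar.CBm
import Pool.Agent.PHW.TopA

/-!
T*, module C3: words with few turns on both sides of the longest strand.  The strand starts at the FIRST
extreme vertex c and ends at the last extreme vertex d of the other side; the part from c on, seen from the
outside of c, is the walk tau, the reversed part from d back is the walk omega, and both are cut at their last
top vertex (HT_split_turn).
-/

set_option autoImplicit false

namespace HexObs

open Complex Finset ENNReal TStar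

/-! general facts -/

/-- reindexing of a chain -/
private lemma cc_reindex {f : ℕ → ℤ} {a b k : ℕ} (h : Chn f a b k) :
    ∀ (g : ℕ → ℤ) (a' b' : ℕ) (c : ℤ), a' + (b - a) = b' →
      (∀ i, i ≤ b - a → g (a' + i) = f (a + i) + c) → Chn g a' b' k := by
  induction h with
  | base f a b hab h =>
    intro g a' b' c hb' hg
    subst hb'
    refine Chn.base g a' _ (by omega) ?_
    intro j h1 h2
    obtain ⟨i, rfl⟩ : ∃ i, j = a' + i := ⟨j - a', by omega⟩
    have e1 := hg i (by omega)
    have e2 := hg 0 (by omega)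
    have e3 := hg (b - a) le_rfl
    have e5 := h (a + i) (by omega) (by omega)
    rw [add_zero, add_zero] at e2
    have e4 : a + (b - a) = b := by omega
    rw [e4] at e3
    omega
  | step f a c b k hac hcb h hs hr ih =>
    intro g a' b' c' hb' hg
    subst hb'
    have key : ∀ j, a' ≤ j → j ≤ a' + (b - a) → g j = f (a + (j - a')) + c' := by
      intro j h1 h2
      have e1 := hg (j - a') (by omega)
      rwa [show a' + (j - a') = j by omega] at e1
    have e2 := key a' le_rfl (by omega)
    rw [show a + (a' - a') = a by omega] at e2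
    have e3 := key (a' + (c - a)) (by omega) (by omega)
    rw [show a + (a' + (c - a) - a') = c by omega] at e3
    refine Chn.step g a' (a' + (c - a)) _ k (by omega) (by omega) ?_ ?_ ?_
    · intro j h1 h2
      have e1 := key j h1 h2
      have e5 := h (a + (j - a')) (by omega) (by omega)
      omega
    · intro j h1 h2
      have e1 := key j (by omega) h2
      have e5 := hs (a + (j - a')) (by omega) (by omega)
      omega
    · refine ih _ (a' + (c - a)) _ (-c') (by omega) ?_
      intro i hi
      show - g (a' + (c - a) + i) = - f (c + i) + -c'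
      rw [key _ (by omega) (by omega), show a + (a' + (c - a) + i - a') = c + i by omega]
      ring

private lemma cc_turn {s : ℤ} (hs : s = 1 ∨ s = -1) (b : Bool) (d : Pt) : turn b (s • d) = s • turn b d := by
  rcases hs with rfl | rfl
  · rw [one_smul, one_smul]
  · rw [neg_one_smul, neg_one_smul, turn_neg]

private lemma cc_ip {s : ℤ} (hs : s = 1 ∨ s = -1) (p q : Pt) : ip (s • p) q = s * ip p q := by
  rcases hs with rfl | rfl
  · rw [one_smul, one_mul]
  · rw [neg_one_smul, ip_neg_left]
    ring

private lemma cc_tf_cons (x : Bool) (l : List Bool) (i : ℕ) : tf (x :: l) (i + 1) = tf l i := rfl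

private lemma cc_tf_drop (t : List Bool) (c i : ℕ) : tf (t.drop c) i = tf t (c + i) := by
  unfold tf
  simp only [List.getD_eq_getElem?_getD, List.getElem?_drop]

private lemma cc_turn_inj {b c : Bool} {d : Pt} (hd : d ∈ dirs) (h : turn b d = turn c d) : b = c := by
  revert h
  revert b c
  revert d
  decide

/-- the part of the walk from the vertex number c on, seen from the outside of the vertex number c -/
private lemma cc_tau {t : List Bool} {c : ℕ} {s : ℤ} (hs : s = 1 ∨ s = -1) {x : Bool}
    (hx : s • dx up t c = turn x up) (i : ℕ) :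
    vx oo up (x :: t.drop c) (i + 1) = s • (vx oo up t (c + i) - vx oo up t c) + up ∧
      dx up (x :: t.drop c) (i + 1) = s • dx up t (c + i) := by
  induction i with
  | zero =>
    constructor
    · rw [vx_one, add_zero, sub_self, smul_zero, zero_add]
    · rw [add_zero, hx]
      rfl
  | succ i ih =>
    constructor
    · rw [vx_succ, ih.1, ih.2, ← add_assoc, vx_succ, smul_sub, smul_sub, smul_add]
      abel
    · rw [dx_succ, ih.2, cc_tf_cons, cc_tf_drop, cc_turn hs, ← add_assoc, dx_succ]

/-- the reversed part of the walk from the vertex number d back, seen from the outside of the vertex number d -/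
private lemma cc_om {t : List Bool} {d : ℕ} (hd1 : 1 ≤ d) (hd : d ≤ t.length) {s : ℤ} (hs : s = 1 ∨ s = -1)
    {z : Bool} (hz : turn z (s • dx up t (d - 1)) = up) {i : ℕ} (hi : 1 ≤ i) :
    (i ≤ d + 1 → vx oo up (rev (t.take (d - 1) ++ [z])) i = s • (vx oo up t d - vx oo up t (d + 1 - i)) + up) ∧
      (i ≤ d → dx up (rev (t.take (d - 1) ++ [z])) i = s • dx up t (d - i)) := by
  set u := t.take (d - 1) ++ [z] with hu
  have hss : s * s = 1 := by rcases hs with rfl | rfl <;> norm_num
  have hal : (t.take (d - 1)).length = d - 1 := by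
    rw [List.length_take]
    omega
  have hul : u.length = d := by
    rw [hu, List.length_append, hal, List.length_singleton]
    omega
  have hsp : t = t.take (d - 1) ++ t.drop (d - 1) := (List.take_append_drop _ _).symm
  have hva : ∀ k, k ≤ d → vx oo up u k = vx oo up t k := by
    intro k hk
    have e1 : vx oo up u k = vx oo up (t.take (d - 1)) k := by
      rw [hu, vx_append (by omega)]
    have e2 : vx oo up t k = vx oo up (t.take (d - 1)) k := by
      conv_lhs => rw [hsp]
      rw [vx_append (by omega)]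
    rw [e1, e2]
  have hda : ∀ k, k ≤ d - 1 → dx up u k = dx up t k := by
    intro k hk
    have e1 : dx up u k = dx up (t.take (d - 1)) k := by
      rw [hu, dx_append (by omega)]
    have e2 : dx up t k = dx up (t.take (d - 1)) k := by
      conv_lhs => rw [hsp]
      rw [dx_append (by omega)]
    rw [e1, e2]
  have hlast : dx up u u.length = s • up := by
    have h1 := dx_append_one (d0 := up) (t := t.take (d - 1)) (b := z)
    rw [← hu] at h1
    rw [h1, hal]
    have e2 : dx up (t.take (d - 1)) (d - 1) = dx up t (d - 1) := by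
      conv_rhs => rw [hsp]
      rw [dx_append (by omega)]
    rw [e2]
    have h2 := congrArg (fun p => s • p) hz
    rw [cc_turn hs, smul_smul, hss, one_smul] at h2
    exact h2
  have htip : tip oo up u = vx oo up t d + s • up := by
    show vx oo up u u.length + dx up u u.length = _
    rw [hlast, hul, hva d le_rfl]
  constructor
  · intro hid
    have h1 := vx_rev oo up u i (by omega)
    rw [hlast, htip, hul, hva _ (by omega)] at h1
    rcases hs with rfl | rfl
    · rw [one_smul, vx_turned] at h1
      rw [one_smul]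
      rw [← h1]
      abel
    · rw [neg_one_smul, neg_neg, vx_shift] at h1
      rw [neg_one_smul, ← h1]
      abel
  · intro hid
    have h1 := dx_rev up u i (by omega)
    rw [hlast, hul, hda _ (by omega)] at h1
    have h2 := dx_mulE (-1, 0) up (rev u) i
    have e : mulE (-1, 0) up = -up := by decide
    have e2 : ∀ p : Pt, mulE (-1, 0) p = -p := by
      intro p
      ext <;> simp [mulE]
    rw [e, e2] at h2
    rcases hs with rfl | rfl
    · rw [one_smul, h2] at h1
      rw [one_smul]
      exact neg_inj.1 h1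
    · rw [neg_one_smul, neg_neg] at h1
      rw [neg_one_smul]
      exact h1

/-- the last visit of the top level -/
private lemma cc_last {T : ℕ} {τ s : List Bool} {b : Bool} (hB : s ++ [b] ∈ Brd T)
    (h : (∃ c, τ = s ++ [c]) ∨
      (∃ r e, r ∈ SSt (T - 1) ∧ e.length ≤ 1 ∧ τ = s ++ ((!b) :: (!b) :: (r ++ e))) ∨
      τ = s ++ [!b, b]) :
    s.length + 1 ≤ τ.length ∧ lev τ (s.length + 1) = 3 * T ∧
      ∀ k, s.length + 1 < k → k ≤ τ.length → lev τ k < 3 * T := by
  have hB' := mem_Brd.1 hB
  obtain ⟨_, _, h3, h4⟩ := hB'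
  have hsl : (s ++ [b]).length = s.length + 1 := by
    rw [List.length_append, List.length_singleton]
  have hd0 : dx up s s.length = turn (!b) up := by
    have h1 := dx_append_one (d0 := up) (t := s) (b := b)
    rw [h3] at h1
    have h2 := congrArg (turn (!b)) h1
    rw [turn_turn] at h2
    exact h2.symm
  rw [hsl] at h4
  have hlev : ∀ w, lev (s ++ w) (s.length + 1) = 3 * T := by
    intro w
    rw [lev_append le_rfl, ← h4, lev_append le_rfl]
  -- one letter !b after s
  have hnext : ∀ w, dx up (s ++ ((!b) :: w)) (s.length + 1) = turn (!b) (turn (!b) up) ∧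
      lev (s ++ ((!b) :: w)) (s.length + 2) = 3 * T - 1 := by
    intro w
    have e1 : dx up (s ++ ((!b) :: w)) (s.length + 1) = turn (!b) (turn (!b) up) := by
      rw [dx_succ, dx_append le_rfl, hd0]
      have := tf_append_right (t := s) (s := (!b) :: w) 0
      rw [add_zero] at this
      rw [this]
      rfl
    refine ⟨e1, ?_⟩
    rw [show s.length + 2 = s.length + 1 + 1 from rfl, lev_succ, e1, hlev]
    have e : ip (turn (!b) (turn (!b) up)) up = -1 := by cases b <;> decide
    rw [e]
    ring
  rcases h with ⟨c, rfl⟩ | ⟨r, e, hr, he, rfl⟩ | rfl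
  · refine ⟨by simp, hlev _, ?_⟩
    intro k h1 h2
    rw [List.length_append, List.length_singleton] at h2
    omega
  · refine ⟨by simp, hlev _, ?_⟩
    intro k h1 h2
    obtain ⟨j, rfl⟩ : ∃ j, k = s.length + 2 + j := ⟨k - (s.length + 2), by omega⟩
    have hj : j ≤ (r ++ e).length := by
      rw [List.length_append, List.length_cons, List.length_cons] at h2
      omega
    obtain ⟨w, hw⟩ : ∃ w, w = r ++ e := ⟨_, rfl⟩
    rw [← hw] at hj ⊢
    obtain ⟨e1, e2⟩ := hnext ((!b) :: w)
    have e3 : dx up (s ++ ((!b) :: (!b) :: w)) (s.length + 2) = -up := by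
      rw [show s.length + 2 = s.length + 1 + 1 from rfl, dx_succ, e1]
      have := tf_append_right (t := s) (s := (!b) :: (!b) :: w) 1
      rw [this]
      show turn (!b) _ = _
      cases b <;> decide
    have e4 : vx oo up (s ++ ((!b) :: (!b) :: w)) (s.length + 2 + j) =
        vx oo up (s ++ ((!b) :: (!b) :: w)) (s.length + 2) - vx oo up w j := by
      have e5 : vx oo up (s ++ ((!b) :: (!b) :: w)) (s.length + 2 + j) =
          vx (vx oo up (s ++ ((!b) :: (!b) :: w)) (s.length + 2))
            (dx up (s ++ ((!b) :: (!b) :: w)) (s.length + 2)) w j := by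
        unfold vx dx
        rw [vs_shift]
        apply vs_congr
        intro l _
        have := tf_append_right (t := s ++ [!b, !b]) (s := w) l
        have h5 : (s ++ [!b, !b]).length = s.length + 2 := by
          rw [List.length_append]
          rfl
        rw [h5] at this
        have h6 : s ++ [!b, !b] ++ w = s ++ ((!b) :: (!b) :: w) := by simp
        rw [h6] at this
        exact this
      rw [e5, e3, vx_turned]
    have e5 : lev (s ++ ((!b) :: (!b) :: w)) (s.length + 2 + j) = 3 * T - 1 - lev w j := by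
      have h5 := congrArg (fun p => ip p up) e4
      simp only [ip_sub_left] at h5
      have h6 : lev (s ++ ((!b) :: (!b) :: w)) (s.length + 2 + j) =
        lev (s ++ ((!b) :: (!b) :: w)) (s.length + 2) - lev w j := h5
      rw [h6, e2]
    rw [e5]
    have e6 : 0 ≤ lev w j := by
      rw [hw, List.length_append] at hj
      rw [hw]
      rw [lev_append (by omega)]
      rcases Nat.eq_zero_or_pos j with rfl | hj0
      · rw [lev_zero]
      · rcases Nat.lt_or_ge r.length j with h7 | h7
        · obtain ⟨m, rfl⟩ : ∃ m, j = m + 1 := ⟨j - 1, by omega⟩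
          have hm : m = r.length := by omega
          subst hm
          rw [lev_succ]
          have e7 : -2 ≤ ip (dx up r r.length) up := by
            have := dx_mem upd r r.length
            revert this
            generalize dx up r r.length = d
            revert d
            decide
          rcases Nat.eq_zero_or_pos r.length with h8 | h8
          · rw [h8, lev_zero]
            show 0 ≤ 0 + ip up up
            decide
          · have h9 := (mem_St.1 (hr.mem r.length h8 le_rfl)).1
            have h10 := lev_mod r r.length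
            split_ifs at h10 <;> omega
        · exact (mem_St.1 (hr.mem j hj0 h7)).1.le
    omega
  · refine ⟨by simp, hlev _, ?_⟩
    intro k h1 h2
    have h3 : k = s.length + 2 := by
      rw [List.length_append] at h2
      have : ([!b, b] : List Bool).length = 2 := rfl
      omega
    rw [h3, (hnext [b]).2]
    omega

/-- what may follow after the word G without its last letter -/
private def Good (K T : ℕ) (G w : List Bool) : Prop :=
  (∃ c, w = [c]) ∨
  (∃ b r e, r ∈ SSt (T - 1) ∧ TurnLe K r ∧ Hang G b r ∧ e.length ≤ 1 ∧ w = (!b) :: (!b) :: (r ++ e)) ∨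
  (∃ b, w = [!b, b])

/-- the cut at the last top vertex -/
private lemma cc_good {T K δ : ℕ} (hT : 1 ≤ T) {τ : List Bool} (hτ : τ ∈ HT T) (hK : TurnLe (K + 1) τ)
    (hδ : δ ≤ τ.length) (h1 : lev τ δ = 3 * T) (h2 : ∀ j, δ < j → j ≤ τ.length → lev τ j < 3 * T) :
    ∃ s b w, s ++ [b] ∈ Brd T ∧ s.length + 1 = δ ∧ τ = s ++ w ∧ Good K T (s ++ [b]) w := by
  obtain ⟨s, b, hB, hc⟩ := HT_split_turn hT hτ hK
  have h3 : (∃ c, τ = s ++ [c]) ∨
      (∃ r e, r ∈ SSt (T - 1) ∧ e.length ≤ 1 ∧ τ = s ++ ((!b) :: (!b) :: (r ++ e))) ∨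
      τ = s ++ [!b, b] := by
    rcases hc with hc | ⟨r, e, hr, he, _, hc | hc⟩
    · exact Or.inl hc
    · exact Or.inr (Or.inl ⟨r, e, hr, he, hc.1⟩)
    · exact Or.inr (Or.inr hc.2)
  obtain ⟨h4, h5, h6⟩ := cc_last hB h3
  have hδ' : s.length + 1 = δ := by
    rcases lt_trichotomy (s.length + 1) δ with h7 | h7 | h7
    · have := h6 δ h7 hδ
      omega
    · exact h7
    · have := h2 _ h7 h4
      omega
  rcases hc with ⟨c, hc⟩ | ⟨r, e, hr, he, hh, hc | hc⟩
  · exact ⟨s, b, [c], hB, hδ', hc, Or.inl ⟨c, rfl⟩⟩
  · refine ⟨s, b, _, hB, hδ', hc.1, Or.inr (Or.inl ⟨b, r, e, hr, ?_, ?_, he, rfl⟩)⟩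
    · exact hc.2.2
    · exact hh [] (Or.inl rfl)
  · exact ⟨s, b, _, hB, hδ', hc.2, Or.inr (Or.inr ⟨b, rfl⟩)⟩

private lemma cc_mem {t w : List Bool} (hv : SawV t) {s : ℤ} (hs : s = 1 ∨ s = -1) {T δ : ℕ} (ι : ℕ → ℕ) (q : Pt)
    (hι : ∀ i, 1 ≤ i → i ≤ w.length → 1 ≤ ι i ∧ ι i ≤ t.length)
    (hinj : ∀ i k, 1 ≤ i → i < k → k ≤ w.length → ι i ≠ ι k)
    (hx : ∀ i, 1 ≤ i → i ≤ w.length → vx oo up w i = s • vx oo up t (ι i) + q)
    (hl : ∀ i, 1 ≤ i → i ≤ w.length → 0 < lev w i ∧ lev w i ≤ 3 * T)
    (hδ2 : δ ≤ w.length) (hδ : lev w δ = 3 * T) : w ∈ HT T := by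
  refine ⟨⟨?_, ?_⟩, δ, hδ2, hδ⟩
  · intro i h1 h2
    rw [mem_St]
    have := hl i h1 h2
    constructor <;> omega
  · intro i k hik hk heq
    rcases Nat.eq_zero_or_pos i with rfl | hi
    · have h1 := (hl k (by omega) hk).1
      have h2 : lev w 0 = lev w k := by
        unfold lev
        rw [heq]
      rw [lev_zero] at h2
      omega
    · rw [hx i hi (by omega), hx k (by omega) hk] at heq
      have h1 := add_right_cancel heq
      have h2 : vx oo up t (ι i) = vx oo up t (ι k) := by
        rcases hs with rfl | rfl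
        · rwa [one_smul, one_smul] at h1
        · rw [neg_one_smul, neg_one_smul] at h1
          exact neg_inj.1 h1
      have h3 := hι i hi (by omega)
      have h4 := hι k (by omega) hk
      rcases lt_trichotomy (ι i) (ι k) with h5 | h5 | h5
      · exact hv.1 _ _ h5 h4.2 h2
      · exact hinj i k hi hik hk h5
      · exact hv.1 _ _ h5 h3.2 h2.symm

private lemma cc_dir1 : ∀ e ∈ dirs, ∀ y : Bool, ip e up ≤ 0 → 0 ≤ ip (turn y e) up → ∃ x, turn y e = turn x up := by
  decide

private lemma cc_dir2 : ∀ e ∈ dirs, ∀ y : Bool, 0 ≤ ip e up → ip (turn y e) up ≤ 0 → ∃ z, turn z e = up := by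
  decide

private lemma cc_dir3 : ∀ e ∈ dirs, ∀ y : Bool, 0 ≤ ip e up → (turn y e = up ∨ turn y e = -up) → ∃ z, turn z e = up := by
  decide

private lemma cc_dir4 : ∀ y : Bool, turn y up ≠ up ∧ turn y up ≠ -up := by
  decide

private lemma cc_smul_dirs {s : ℤ} (hs : s = 1 ∨ s = -1) {e : Pt} (he : e ∈ dirs) : s • e ∈ dirs := by
  rcases hs with rfl | rfl
  · rwa [one_smul]
  · rw [neg_one_smul]
    revert he
    revert e
    decide

private lemma cc_rev_append (a b : List Bool) : rev (a ++ b) = rev b ++ rev a := by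
  unfold rev
  rw [List.map_append, List.reverse_append]

private lemma cc_rev_one (x : Bool) : rev [x] = [!x] := rfl

private lemma cc_core {K D : ℕ} {t : List Bool} (hv : SawV t)
    (hD : ∀ j k, 1 ≤ j → j ≤ t.length → 1 ≤ k → k ≤ t.length → lev t j - lev t k ≤ 3 * D)
    {s : ℤ} (hs : s = 1 ∨ s = -1) (hm : MidA K (fun j => -(s * lev t j)) 1 t.length) :
    ∃ T S w1 w2, T < D + 2 ∧ S ∈ Brd T ∧ Good K T S w1 ∧ Good K T (rev S) w2 ∧
      t = (rev ((rev S).dropLast ++ w2)).dropLast ++ w1 ∧
      t.length + 2 = S.length + w1.length + w2.length := by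
  classical
  have hss : s * s = 1 := by rcases hs with rfl | rfl <;> norm_num
  have hs' : -s = 1 ∨ -s = -1 := by
    rcases hs with rfl | rfl
    · right; rfl
    · left; rfl
  obtain ⟨c0, d, h1c, hcd0, hdn, hext, hcs, hds, ⟨kL, hkL, hL⟩, ⟨kR, hkR, hR⟩⟩ := hm
  simp only at hext hcs hds
  obtain ⟨n, hn⟩ : ∃ n, n = t.length := ⟨_, rfl⟩
  rw [← hn] at hdn hext hcs hds hR hD
  have hfin := hv.2
  rw [← hn] at hfin
  -- levels of the first vertices
  have hl1 : lev t 1 = 2 := by
    have := lev_succ t 0
    rw [lev_zero] at this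
    rw [this]
    show 0 + ip up up = 2
    decide
  have hn2 : 2 ≤ n := by
    by_contra hcon
    have h1 : n = 1 := by omega
    rw [h1] at hfin
    have h2 : dx up t 1 = turn (tf t 0) up := rfl
    rw [h2] at hfin
    have := cc_dir4 (tf t 0)
    tauto
  have hl2 : lev t 2 = 3 := by
    rw [show (2 : ℕ) = 1 + 1 from rfl, lev_succ, hl1]
    have h2 : dx up t 1 = turn (tf t 0) up := rfl
    rw [h2]
    have : ∀ y : Bool, ip (turn y up) up = 1 := by decide
    rw [this]
    norm_num
  -- the first maximum
  have hex : ∃ j, 1 ≤ j ∧ s * lev t j = s * lev t c0 := ⟨c0, h1c, rfl⟩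
  obtain ⟨c, hcdef⟩ : ∃ c, c = Nat.find hex := ⟨_, rfl⟩
  have hc1 : 1 ≤ c := by rw [hcdef]; exact (Nat.find_spec hex).1
  have hce : s * lev t c = s * lev t c0 := by rw [hcdef]; exact (Nat.find_spec hex).2
  have hcc0 : c ≤ c0 := by rw [hcdef]; exact Nat.find_min' hex ⟨h1c, rfl⟩
  have hcmin : ∀ j, 1 ≤ j → j < c → s * lev t j ≠ s * lev t c0 := by
    intro j h1 h2 h3
    rw [hcdef] at h2
    exact Nat.find_min hex h2 ⟨h1, h3⟩

  -- shape of the hypotheses
  have hlo : ∀ j, 1 ≤ j → j ≤ n → s * lev t c ≤ s * lev t j := by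
    intro j h1 h2
    have := (hext j h1 h2).2
    rw [hce]
    linarith
  have hhi : ∀ j, 1 ≤ j → j ≤ n → s * lev t j ≤ s * lev t d := by
    intro j h1 h2
    have := (hext j h1 h2).1
    linarith
  have hlos : ∀ j, 1 ≤ j → j < c → s * lev t c < s * lev t j := by
    intro j h1 h2
    have h3 := hlo j h1 (by omega)
    have h4 := hcmin j h1 h2
    rw [← hce] at h4
    omega
  have hhis : ∀ j, d < j → j ≤ n → s * lev t j < s * lev t d := by
    intro j h1 h2
    have := hds j h1 h2
    linarith
  have hcd : c < d := by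
    rcases Nat.lt_or_ge c d with h | h
    · exact h
    · exfalso
      have h1 : c = d := by omega
      subst h1
      have e1 := hlo 1 le_rfl (by omega)
      have e2 := hhi 1 le_rfl (by omega)
      have e3 := hlo 2 (by omega) (by omega)
      have e4 := hhi 2 (by omega) (by omega)
      rw [hl1] at e1 e2
      rw [hl2] at e3 e4
      rcases hs with rfl | rfl <;> omega
  -- directions
  have hdxs : ∀ j, ip (s • dx up t j) up = s * lev t (j + 1) - s * lev t j := by
    intro j
    rw [cc_ip hs, lev_succ]
    ring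
  have hdm : ∀ j, s • dx up t j ∈ dirs := fun j => cc_smul_dirs hs (dx_mem upd t j)
  obtain ⟨x, hx⟩ : ∃ x, s • dx up t c = turn x up := by
    rcases Nat.lt_or_ge 1 c with h | h
    · obtain ⟨m, rfl⟩ : ∃ m, c = m + 1 := ⟨c - 1, by omega⟩
      have e1 := hdxs m
      have e2 := hdxs (m + 1)
      have e3 := hlos m (by omega) (by omega)
      have e4 := hlo (m + 1 + 1) (by omega) (by omega)
      have e5 : s • dx up t (m + 1) = turn (tf t m) (s • dx up t m) := by
        rw [cc_turn hs, ← dx_succ]
      rw [e5] at e2 ⊢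
      exact cc_dir1 _ (hdm m) (tf t m) (by omega) (by omega)
    · have h1 : c = 1 := by omega
      subst h1
      have e1 := hlo 2 (by omega) (by omega)
      rw [hl1, hl2] at e1
      have e2 : s = 1 := by
        rcases hs with h2 | h2
        · exact h2
        · rw [h2] at e1
          omega
      refine ⟨tf t 0, ?_⟩
      rw [e2, one_smul]
      rfl
  obtain ⟨z, hz⟩ : ∃ z, turn z (s • dx up t (d - 1)) = up := by
    obtain ⟨m, rfl⟩ : ∃ m, d = m + 1 := ⟨d - 1, by omega⟩
    rw [Nat.add_sub_cancel]
    have e1 := hdxs m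
    have e3 := hhi m (by omega) (by omega)
    have e5 : s • dx up t (m + 1) = turn (tf t m) (s • dx up t m) := by
      rw [cc_turn hs, ← dx_succ]
    rcases Nat.lt_or_ge (m + 1) n with h | h
    · have e2 := hdxs (m + 1)
      have e4 := hhis (m + 1 + 1) (by omega) (by omega)
      rw [e5] at e2
      exact cc_dir2 _ (hdm m) (tf t m) (by omega) (by omega)
    · have h1 : m + 1 = n := by omega
      refine cc_dir3 _ (hdm m) (tf t m) (by omega) ?_
      rw [← e5, h1]
      rcases hfin with h2 | h2 <;> rcases hs with rfl | rfl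
      · left; rw [h2, one_smul]
      · right; rw [h2, neg_one_smul]
      · right; rw [h2, one_smul]
      · left; rw [h2, neg_one_smul, neg_neg]
  obtain ⟨δ, hδ⟩ : ∃ δ, δ = d - c + 1 := ⟨_, rfl⟩
  obtain ⟨τ, hτ⟩ : ∃ τ, τ = x :: t.drop c := ⟨_, rfl⟩
  obtain ⟨ω, hω⟩ : ∃ ω, ω = rev (t.take (d - 1) ++ [z]) := ⟨_, rfl⟩
  have htl : τ.length = n - c + 1 := by
    rw [hτ, List.length_cons, List.length_drop, hn]
  have hωl : ω.length = d := by
    rw [hω, rev_length, List.length_append, List.length_take, List.length_singleton]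
    omega
  have hvt : ∀ i, 1 ≤ i → vx oo up τ i = s • vx oo up t (c + (i - 1)) + (up - s • vx oo up t c) := by
    intro i hi
    have h1 := (cc_tau hs hx (i - 1)).1
    rw [show i - 1 + 1 = i by omega, ← hτ] at h1
    rw [h1, smul_sub]
    abel
  have hvo : ∀ i, 1 ≤ i → i ≤ d + 1 →
      vx oo up ω i = (-s) • vx oo up t (d + 1 - i) + (up + s • vx oo up t d) := by
    intro i hi hi2
    have h1 := (cc_om (by omega) (by omega) hs hz hi).1 hi2
    rw [← hω] at h1
    rw [h1, smul_sub, neg_smul]
    abel
  have hupup : ip up up = 2 := by decide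
  have hlt : ∀ i, 1 ≤ i → lev τ i = s * lev t (c + (i - 1)) - s * lev t c + 2 := by
    intro i hi
    unfold lev
    rw [hvt i hi, ip_add_left, cc_ip hs, ip_sub_left, cc_ip hs, hupup]
    ring
  have hlo' : ∀ i, 1 ≤ i → i ≤ d + 1 → lev ω i = s * lev t d - s * lev t (d + 1 - i) + 2 := by
    intro i hi hi2
    unfold lev
    rw [hvo i hi hi2, ip_add_left, cc_ip hs', ip_add_left, cc_ip hs, hupup]
    ring
  have hlδ : lev τ δ = s * lev t d - s * lev t c + 2 := by
    rw [hlt δ (by omega), show c + (δ - 1) = d by omega]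
  have hpos : 0 < lev τ δ := by
    rw [hlδ]
    have := hlo d (by omega) (by omega)
    omega
  have hev : Even δ := by
    have h1 := (cc_tau hs hx (δ - 2)).2
    rw [← hτ, show δ - 2 + 1 = δ - 1 by omega, show c + (δ - 2) = d - 1 by omega] at h1
    have h2 : ¬ Even (δ - 1) := by
      intro he
      rw [← h1] at hz
      have h3 := step_even upd τ he
      have h4 : ∀ y : Bool, turn y up ≠ up ∧ turn y (rotL (rotL up)) ≠ up ∧ turn y (rotR (rotR up)) ≠ up := by
        decide
      have h5 := h4 z
      rcases h3 with h3 | h3 | h3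
      · rw [h3.1] at hz
        exact h5.1 hz
      · rw [h3.1] at hz
        exact h5.2.1 hz
      · rw [h3.1] at hz
        exact h5.2.2 hz
    obtain ⟨m, hm⟩ : ∃ m, δ = m + 1 := ⟨δ - 1, by omega⟩
    rw [hm] at h2 ⊢
    rw [Nat.add_sub_cancel] at h2
    exact Nat.even_add_one.2 h2
  obtain ⟨T, hT⟩ : ∃ T : ℕ, lev τ δ = 3 * T := by
    have h1 := lev_mod τ δ
    rw [if_pos hev] at h1
    obtain ⟨q, hq⟩ := h1
    refine ⟨q.toNat, ?_⟩
    omega
  have hT1 : 1 ≤ T := by omega
  have hTD : T < D + 2 := by
    have h1 : s * lev t d - s * lev t c ≤ 3 * D := by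
      rcases hs with rfl | rfl
      · have := hD d c (by omega) (by omega) (by omega) (by omega)
        linarith
      · have := hD c d (by omega) (by omega) (by omega) (by omega)
        linarith
    omega
  have hτlev : ∀ i, 1 ≤ i → i ≤ τ.length → 0 < lev τ i ∧ lev τ i ≤ 3 * T := by
    intro i h1 h2
    rw [← hT, hlδ, hlt i h1]
    have e1 := hlo (c + (i - 1)) (by omega) (by omega)
    have e2 := hhi (c + (i - 1)) (by omega) (by omega)
    constructor <;> omega
  have hωlev : ∀ i, 1 ≤ i → i ≤ ω.length → 0 < lev ω i ∧ lev ω i ≤ 3 * T := by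
    intro i h1 h2
    rw [hωl] at h2
    rw [← hT, hlδ, hlo' i h1 (by omega)]
    have e1 := hlo (d + 1 - i) (by omega) (by omega)
    have e2 := hhi (d + 1 - i) (by omega) (by omega)
    constructor <;> omega
  have hωδ : lev ω δ = 3 * T := by
    rw [hlo' δ (by omega) (by omega), ← hT, hlδ, show d + 1 - δ = c by omega]
  have hτT : τ ∈ HT T := by
    refine cc_mem (δ := δ) hv hs (fun i => c + (i - 1)) _ ?_ ?_ (fun i h1 _ => hvt i h1) hτlev (by omega) hT
    · intro i h1 h2
      constructor <;> omega
    · intro i k h1 h2 h3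
      omega
  have hωT : ω ∈ HT T := by
    refine cc_mem (δ := δ) hv hs' (fun i => d + 1 - i) _ ?_ ?_ (fun i h1 h2 => hvo i h1 (by omega)) hωlev
      (by omega) hωδ
    · intro i h1 h2
      rw [hωl] at h2
      constructor <;> omega
    · intro i k h1 h2 h3
      rw [hωl] at h3
      show d + 1 - i ≠ d + 1 - k
      omega
  have hτK : TurnLe (K + 1) τ := by
    right
    rcases Nat.lt_or_ge d n with hdn' | hdn'
    · refine ⟨kR + 1, by omega, Chn.step _ 1 δ _ kR (by omega) (by omega) ?_ ?_ ?_⟩
      · intro j h1 h2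
        rw [hT]
        refine ⟨?_, (hτlev j h1 h2).2⟩
        have e1 := hlo (c + (j - 1)) (by omega) (by omega)
        rw [hlt j h1, hlt 1 le_rfl]
        rw [Nat.sub_self, add_zero]
        omega
      · intro j h1 h2
        rw [hlδ, hlt j (by omega)]
        have := hhis (c + (j - 1)) (by omega) (by omega)
        omega
      · refine cc_reindex hR _ δ _ (s * lev t c - 2) (by omega) ?_
        intro i hi
        show - lev τ (δ + i) = -(s * lev t (d + i)) + _
        rw [hlt _ (by omega), show c + (δ + i - 1) = d + i by omega]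
        ring
    · have h1 : d = n := by omega
      have h2 : τ.length = δ := by omega
      refine ⟨0, by omega, Chn.base _ 1 _ (by omega) ?_⟩
      intro j h3 h4
      rw [h2, hT]
      refine ⟨?_, (hτlev j h3 h4).2⟩
      have e1 := hlo (c + (j - 1)) (by omega) (by omega)
      rw [hlt j h3, hlt 1 le_rfl, Nat.sub_self, add_zero]
      omega
  have hωs : ∀ j, δ < j → j ≤ ω.length → lev ω j < 3 * T := by
    intro j h1 h2
    rw [hωl] at h2
    rw [← hT, hlδ, hlo' j (by omega) (by omega)]
    have := hlos (d + 1 - j) (by omega) (by omega)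
    omega
  have hωlow : ∀ j, 1 ≤ j → j ≤ ω.length → lev ω 1 ≤ lev ω j := by
    intro j h1 h2
    rw [hωl] at h2
    have e1 := hhi (d + 1 - j) (by omega) (by omega)
    rw [hlo' j h1 (by omega), hlo' 1 le_rfl (by omega), Nat.add_sub_cancel]
    omega
  have hωK : TurnLe (K + 1) ω := by
    right
    rcases Nat.lt_or_ge 1 c with hc' | hc'
    · unfold ChnR at hL
      simp only at hL
      obtain ⟨k', hk', hL'⟩ := Chn.same (s := c0 - c) hL (by omega) (by omega) (by
        show - -(s * lev t (c0 - (c0 - c))) = - -(s * lev t (c0 - 0))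
        rw [show c0 - (c0 - c) = c by omega, Nat.sub_zero, hce]) (by
        intro j h1 h2
        show - -(s * lev t (c0 - (c0 - c))) < - -(s * lev t (c0 - j))
        rw [show c0 - (c0 - c) = c by omega]
        have := hlos (c0 - j) (by omega) (by omega)
        omega)
      refine ⟨k' + 1, by omega, Chn.step _ 1 δ _ k' (by omega) (by omega) ?_ ?_ ?_⟩
      · intro j h1 h2
        rw [hωδ]
        exact ⟨hωlow j h1 h2, (hωlev j h1 h2).2⟩
      · intro j h1 h2
        rw [hωδ]
        exact hωs j h1 h2
      · refine cc_reindex hL' _ δ _ (-(s * lev t d) - 2) (by omega) ?_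
        intro i hi
        show - lev ω (δ + i) = - -(s * lev t (c0 - (c0 - c + i))) + _
        rw [hlo' _ (by omega) (by omega), show d + 1 - (δ + i) = c0 - (c0 - c + i) by omega]
        ring
    · refine ⟨0, by omega, Chn.base _ 1 _ (by omega) ?_⟩
      intro j h1 h2
      have h3 : ω.length = δ := by omega
      refine ⟨hωlow j h1 h2, ?_⟩
      rw [h3, hωδ]
      exact (hωlev j h1 h2).2
  obtain ⟨s1, b1, w1, hB1, hl1', ht1, hg1⟩ := cc_good hT1 hτT hτK (by omega) hT (by
    intro j h1 h2
    rw [← hT, hlδ, hlt j (by omega)]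
    have := hhis (c + (j - 1)) (by omega) (by omega)
    omega)
  obtain ⟨s2, b2, w2, hB2, hl2', ht2, hg2⟩ := cc_good hT1 hωT hωK (by omega) hωδ hωs
  obtain ⟨μ, hμ⟩ : ∃ μ, μ = (t.drop c).take (δ - 2) := ⟨_, rfl⟩
  have hμl : μ.length = δ - 2 := by
    rw [hμ, List.length_take, List.length_drop]
    omega
  have hs1 : s1 = x :: μ := by
    have h1 : s1 = τ.take s1.length := by rw [ht1, List.take_left']; rfl
    rw [h1, hτ, show s1.length = (δ - 2) + 1 by omega, List.take_succ_cons, hμ]
  have htk : t.take (d - 1) = t.take c ++ μ := by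
    rw [hμ, show d - 1 = c + (δ - 2) by omega, List.take_add]
  have hω2 : ω = (!z) :: (rev μ ++ rev (t.take c)) := by
    rw [hω, htk, cc_rev_append, cc_rev_append, cc_rev_one]
    rfl
  have hs2 : s2 = (!z) :: rev μ := by
    have h1 : s2 = ω.take s2.length := by rw [ht2, List.take_left']; rfl
    rw [h1, hω2, show s2.length = (δ - 2) + 1 by omega, List.take_succ_cons,
      List.take_left' (by rw [rev_length]; exact hμl)]
  have hdirs : ∀ (w : List Bool) (i : ℕ), dx up w i ∈ dirs := fun w i => dx_mem upd w i
  have hb1 : b1 = z := by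
    have h1 := (mem_Brd.1 hB1).2.2.1
    rw [dx_append_one] at h1
    have h2 : dx up s1 s1.length = s • dx up t (d - 1) := by
      have h3 := (cc_tau hs hx (δ - 2)).2
      rw [← hτ, show δ - 2 + 1 = s1.length by omega, show c + (δ - 2) = d - 1 by omega, ht1,
        dx_append le_rfl] at h3
      exact h3
    rw [h2] at h1
    exact cc_turn_inj (hdm _) (h1.trans hz.symm)
  have hb2 : b2 = !x := by
    have h1 := (mem_Brd.1 hB2).2.2.1
    rw [dx_append_one] at h1
    have h2 : dx up s2 s2.length = turn x up := by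
      have h3 := (cc_om (i := δ - 1) (by omega) (by omega) hs hz (by omega)).2 (by omega)
      rw [← hω, show δ - 1 = s2.length by omega, show d - s2.length = c by omega, ht2,
        dx_append le_rfl, hx] at h3
      exact h3
    have h3 : turn b2 (dx up s2 s2.length) = turn (!x) (dx up s2 s2.length) := by
      rw [h1, h2, turn_turn]
    exact cc_turn_inj (hdirs _ _) h3
  have hrS : rev (s1 ++ [b1]) = s2 ++ [b2] := by
    rw [hs1, hs2, hb1, hb2, cc_rev_append, cc_rev_one]
    have : (x :: μ) = [x] ++ μ := rfl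
    rw [this, cc_rev_append, cc_rev_one]
    rfl
  refine ⟨T, s1 ++ [b1], w1, w2, hTD, hB1, hg1, ?_, ?_, ?_⟩
  · rw [hrS]
    exact hg2
  · rw [hrS, List.dropLast_concat, ← ht2, hω, rev_rev, List.dropLast_concat]
    have h1 : w1 = τ.drop s1.length := by rw [ht1, List.drop_left']; rfl
    rw [h1, hτ, show s1.length = (δ - 2) + 1 by omega, List.drop_succ_cons, List.drop_drop,
      show c + (δ - 2) = d - 1 by omega, List.take_append_drop]
  · have h1 := congrArg List.length ht1
    have h2 := congrArg List.length ht2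
    rw [List.length_append] at h1 h2
    rw [List.length_append, List.length_singleton]
    omega

private def Bst (K T : ℕ) (G : List Bool) : Set (List Bool) :=
  {[]} ∪ ({r | r ∈ SSt T ∧ TurnLe K r ∧ Hang G true r} ∪ {r | r ∈ SSt T ∧ TurnLe K r ∧ Hang G false r})

private lemma gf_Bst (K T : ℕ) (G : List Bool) : gf (Bst K T G) ≤ 1 + GHK K T G := by
  unfold Bst GHK
  refine (gf_union_le _ _).trans (add_le_add ?_ (gf_union_le _ _))
  unfold gf
  rw [tsum_singleton (f := wE)]
  unfold wE
  simp

/-- the short words before and after -/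
private def pre (q : Option Bool × Option Bool × Option Bool) : List Bool := q.1.toList ++ q.2.1.toList

private lemma cc_good_dec {K T : ℕ} {G w : List Bool} (h : Good K T G w) :
    ∃ q : Option Bool × Option Bool × Option Bool, ∃ r ∈ Bst K (T - 1) G, w = pre q ++ r ++ q.2.2.toList ∧
      r.length + 1 ≤ w.length := by
  rcases h with ⟨c, rfl⟩ | ⟨b, r, e, h1, h2, h3, h4, rfl⟩ | ⟨b, rfl⟩
  · exact ⟨(some c, none, none), [], Or.inl rfl, rfl, by simp⟩
  · have h5 : r ∈ Bst K (T - 1) G := by
      right
      cases b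
      · right
        exact ⟨h1, h2, h3⟩
      · left
        exact ⟨h1, h2, h3⟩
    rcases e with _ | ⟨e0, e⟩
    · exact ⟨(some (!b), some (!b), none), r, h5, by simp [pre], by simp⟩
    · have : e = [] := by
        rw [List.length_cons] at h4
        exact List.length_eq_zero_iff.1 (by omega)
      subst this
      refine ⟨(some (!b), some (!b), some e0), r, h5, by simp [pre], ?_⟩
      simp only [List.length_cons, List.length_append, List.length_nil]
      omega
  · exact ⟨(some (!b), some b, none), [], Or.inl rfl, rfl, by simp⟩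

/-- summation over the encoded words -/
private lemma cc_enc {Q : Type} [Fintype Q] {P : Set (List Bool)} {D : ℕ} (A B : ℕ → List Bool → Set (List Bool))
    (Ψ : Q → List Bool → List Bool → List Bool → List Bool)
    (h : ∀ t ∈ P, ∃ q, ∃ T < D + 2, ∃ S ∈ Brd T, ∃ a ∈ A T S, ∃ b ∈ B T S, t = Ψ q S a b ∧
      S.length + a.length + b.length ≤ t.length) :
    gf P ≤ (Fintype.card Q : ℝ≥0∞) * ∑ T ∈ Finset.range (D + 2), ∑' g : {g : List Bool // g ∈ Brd T},
      wE g.1 * (gf (A T g.1) * gf (B T g.1)) := by
  classical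
  choose! q T hT S hS a ha b hb ht hlen using h
  let W : ℕ → List Bool → List Bool → List Bool → ℝ≥0∞ := fun T S a b =>
    (Brd T).indicator (fun _ => wE S) S * ((A T S).indicator wE a * (B T S).indicator wE b)
  let φ : P → Q × List Bool × List Bool × List Bool := fun t => (q t t.2, S t, a t, b t)
  have hφ : Function.Injective φ := by
    intro t t' htt
    have e1 : q t t.2 = q t' t'.2 := congrArg (fun p => p.1) htt
    have e2 : S t = S t' := congrArg (fun p => p.2.1) htt
    have e3 : a t = a t' := congrArg (fun p => p.2.2.1) htt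
    have e4 : b t = b t' := congrArg (fun p => p.2.2.2) htt
    apply Subtype.ext
    rw [ht t t.2, ht t' t'.2, e1, e2, e3, e4]
  have hxc : xc ≤ 1 := by
    have h1 := xc_sq
    have h2 : (1 : ℝ) / (2 + Real.sqrt 2) ≤ 1 := by
      rw [div_le_one (by positivity)]
      have := Real.sqrt_nonneg 2
      linarith
    rw [← h1] at h2
    have h3 := xc_pos
    nlinarith
  have hw : ∀ t : P, wE t ≤ ∑ T ∈ Finset.range (D + 2), W T (φ t).2.1 (φ t).2.2.1 (φ t).2.2.2 := by
    intro t
    have h1 : W (T t) (S t) (a t) (b t) = wE (S t) * (wE (a t) * wE (b t)) := by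
      show (Brd (T t)).indicator (fun _ => wE (S t)) (S t) *
        ((A (T t) (S t)).indicator wE (a t) * (B (T t) (S t)).indicator wE (b t)) = _
      rw [Set.indicator_of_mem (hS t t.2), Set.indicator_of_mem (ha t t.2), Set.indicator_of_mem (hb t t.2)]
    calc wE t ≤ wE (S t) * (wE (a t) * wE (b t)) := by
          rw [← wE_append, ← wE_append]
          unfold wE
          apply ENNReal.ofReal_le_ofReal
          apply pow_le_pow_of_le_one xc_pos.le hxc
          rw [List.length_append, List.length_append]
          have := hlen t t.2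
          omega
      _ = W (T t) (S t) (a t) (b t) := h1.symm
      _ ≤ _ := Finset.single_le_sum (f := fun T' => W T' (S t) (a t) (b t)) (fun _ _ => bot_le)
          (Finset.mem_range.2 (hT t t.2))
  calc gf P = ∑' t : P, wE t := rfl
    _ ≤ ∑' t : P, ∑ T ∈ Finset.range (D + 2), W T (φ t).2.1 (φ t).2.2.1 (φ t).2.2.2 :=
        ENNReal.tsum_le_tsum hw
    _ ≤ ∑' p : Q × List Bool × List Bool × List Bool, ∑ T ∈ Finset.range (D + 2), W T p.2.1 p.2.2.1 p.2.2.2 :=
        ENNReal.tsum_comp_le_tsum_of_injective hφ
          (fun p : Q × List Bool × List Bool × List Bool =>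
            ∑ T ∈ Finset.range (D + 2), W T p.2.1 p.2.2.1 p.2.2.2)
    _ = (Fintype.card Q : ℝ≥0∞) * ∑ T ∈ Finset.range (D + 2), ∑' S : List Bool, ∑' a : List Bool,
          ∑' b : List Bool, W T S a b := by
        rw [ENNReal.tsum_prod (f := fun (_ : Q) (p : List Bool × List Bool × List Bool) =>
          ∑ T ∈ Finset.range (D + 2), W T p.1 p.2.1 p.2.2)]
        rw [tsum_fintype, Finset.sum_const, Finset.card_univ, nsmul_eq_mul]
        congr 1
        rw [Summable.tsum_finsetSum (fun _ _ => ENNReal.summable)]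
        refine Finset.sum_congr rfl fun T _ => ?_
        rw [ENNReal.tsum_prod (f := fun (S : List Bool) (p : List Bool × List Bool) => W T S p.1 p.2)]
        refine tsum_congr fun S => ?_
        rw [ENNReal.tsum_prod (f := fun (a b : List Bool) => W T S a b)]
    _ = _ := by
        congr 1
        refine Finset.sum_congr rfl fun T _ => ?_
        rw [tsum_subtype (Brd T) (fun g => wE g * (gf (A T g) * gf (B T g)))]
        refine tsum_congr fun S => ?_
        by_cases hSB : S ∈ Brd T
        · rw [Set.indicator_of_mem hSB]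
          unfold gf
          rw [tsum_subtype (A T S) wE, tsum_subtype (B T S) wE]
          have e1 : ∀ a b, W T S a b = wE S * ((A T S).indicator wE a * (B T S).indicator wE b) := by
            intro a b
            show (Brd T).indicator (fun _ => wE S) S * _ = _
            rw [Set.indicator_of_mem hSB]
          simp_rw [e1, ENNReal.tsum_mul_left, ENNReal.tsum_mul_right]
        · rw [Set.indicator_of_notMem hSB]
          have e1 : ∀ a b, W T S a b = 0 := by
            intro a b
            show (Brd T).indicator (fun _ => wE S) S * _ = _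
            rw [Set.indicator_of_notMem hSB, zero_mul]
          simp_rw [e1]
          simp

private lemma cc_SSt_zero : SSt 0 ⊆ {[]} := by
  intro t ht
  rcases t with _ | ⟨x, t⟩
  · rfl
  · exfalso
    have h1 := ht.mem 1 le_rfl (by rw [List.length_cons]; omega)
    rw [mem_St] at h1
    have h2 : lev (x :: t) 1 = 2 := by
      rw [lev_succ, lev_zero]
      show 0 + ip up up = 2
      decide
    have h3 := h1.2
    rw [h2] at h3
    norm_num at h3

private lemma cc_gf_nil {P : Set (List Bool)} (h : P ⊆ {[]}) : gf P ≤ 1 := by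
  refine (gf_mono h).trans ?_
  unfold gf
  rw [tsum_singleton (f := wE)]
  unfold wE
  simp

/-- at most K turns after a strand of height T -/
private lemma cc_FK (K T : ℕ) (G : List Bool) : gf (Bst K (T - 1) G) ≤ 3 * FK (K + 1) T G := by
  refine (gf_Bst K (T - 1) G).trans ?_
  rcases T with _ | T
  · rw [FK, mul_one]
    have h1 : GHK K (0 - 1) G ≤ 1 + 1 := by
      unfold GHK
      refine add_le_add (cc_gf_nil ?_) (cc_gf_nil ?_)
      · intro t ht
        exact cc_SSt_zero ht.1
      · intro t ht
        exact cc_SSt_zero ht.1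
    calc 1 + GHK K (0 - 1) G ≤ 1 + (1 + 1) := by gcongr
      _ = 3 := by norm_num
  · rw [Nat.add_sub_cancel]
    refine (GHK_le K T G).trans ?_
    calc FK (K + 1) (T + 1) G = 1 * FK (K + 1) (T + 1) G := (one_mul _).symm
      _ ≤ 3 * FK (K + 1) (T + 1) G := by
        gcongr
        norm_num

/-- C3 (CC): words with few turns on both sides of the longest strand g; the strands hanging at both ends of g are
not higher than g -/
theorem MidW_le : ∃ C : ℝ≥0∞, C ≠ ∞ ∧ ∀ K D : ℕ,
    gf (MidW K D) ≤ C * ∑ s ∈ Finset.range (D + 2), ∑' g : {g : List Bool // g ∈ Brd s},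
      wE g.1 * (FK (K + 1) s g.1 * FK (K + 1) s (rev g.1)) := by
  obtain ⟨C, hC⟩ : ∃ C : ℝ≥0∞, C = (Fintype.card ((Option Bool × Option Bool × Option Bool) ×
    (Option Bool × Option Bool × Option Bool)) : ℝ≥0∞) := ⟨_, rfl⟩
  refine ⟨C * 9, ENNReal.mul_ne_top (by rw [hC]; exact ENNReal.natCast_ne_top _) (by norm_num), ?_⟩
  intro K D
  refine (cc_enc (P := MidW K D) (D := D) (fun T S => Bst K (T - 1) S) (fun T S => Bst K (T - 1) (rev S))
    (fun (q : (Option Bool × Option Bool × Option Bool) × (Option Bool × Option Bool × Option Bool)) S a b =>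
      (rev ((rev S).dropLast ++ (pre q.2 ++ b ++ q.2.2.2.toList))).dropLast ++ (pre q.1 ++ a ++ q.1.2.2.toList)) ?_).trans ?_
  · rintro t ⟨_, hv, hD, hm⟩
    have hcore : ∃ T S w1 w2, T < D + 2 ∧ S ∈ Brd T ∧ Good K T S w1 ∧ Good K T (rev S) w2 ∧
      t = (rev ((rev S).dropLast ++ w2)).dropLast ++ w1 ∧
      t.length + 2 = S.length + w1.length + w2.length := by
      rcases hm with hm | hm
      · refine cc_core hv hD (s := -1) (Or.inr rfl) ?_
        have e : (fun j => -(-1 * lev t j)) = lev t := by
          funext j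
          ring
        rw [e]
        exact hm
      · refine cc_core hv hD (s := 1) (Or.inl rfl) ?_
        have e : (fun j => -(1 * lev t j)) = (fun j => - lev t j) := by
          funext j
          ring
        rw [e]
        exact hm
    obtain ⟨T, S, w1, w2, hT, hS, hg1, hg2, ht, hl⟩ := hcore
    obtain ⟨q1, a, ha, hw1, hl1⟩ := cc_good_dec hg1
    obtain ⟨q2, b, hb, hw2, hl2⟩ := cc_good_dec hg2
    refine ⟨(q1, q2), T, hT, S, hS, a, ha, b, hb, ?_, by omega⟩
    show t = (rev ((rev S).dropLast ++ (pre q2 ++ b ++ q2.2.2.toList))).dropLast ++ (pre q1 ++ a ++ q1.2.2.toList)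
    rw [← hw1, ← hw2]
    exact ht
  · rw [← hC, mul_assoc]
    refine mul_le_mul_right ?_ C
    rw [Finset.mul_sum]
    refine Finset.sum_le_sum fun T _ => ?_
    rw [← ENNReal.tsum_mul_left]
    refine ENNReal.tsum_le_tsum fun g => ?_
    calc wE g.1 * (gf (Bst K (T - 1) g.1) * gf (Bst K (T - 1) (rev g.1)))
        ≤ wE g.1 * ((3 * FK (K + 1) T g.1) * (3 * FK (K + 1) T (rev g.1))) :=
          mul_le_mul_right (mul_le_mul' (cc_FK K T g.1) (cc_FK K T (rev g.1))) _
      _ = 9 * (wE g.1 * (FK (K + 1) T g.1 * FK (K + 1) T (rev g.1))) := by ring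

end HexObs
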