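import Pool.Agent.TStar.CA
import Pool.Agent.TStar.CBm
import Pool.Agent.TStar.CC
import Pool.Agent.HexDecay.Decay

set_option autoImplicit false

namespace HexObs

open Complex Finset ENNReal TStar

namespace CDAux

/-- the sums of the bridge weights grow slower than `D ^ (34/35)` -/
lemma UU_le (hbt : ∀ T : ℕ, ∑ t ∈ Finset.range T, bT (t + 1) ≤ 3 * (T : ℝ) ^ ((34 / 35) : ℝ))
    {D : ℕ} (hD : 1 ≤ D) : UU D ≤ 4 * (D : ℝ) ^ ((34 / 35) : ℝ) := by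
  have h0 : uu 0 = 1 := by
    unfold uu
    rw [← gf_Brd, Brd_zero]
    simp [gf, wE]
  have h1 : UU D = ∑ t ∈ Finset.range D, bT (t + 1) + 1 := by
    unfold UU
    rw [Finset.sum_range_succ', h0]
    rfl
  have h2 : (1 : ℝ) ≤ (D : ℝ) ^ ((34 / 35) : ℝ) :=
    Real.one_le_rpow (by exact_mod_cast hD) (by norm_num)
  have h3 := hbt D
  rw [h1]
  linarith

/-- the two sided functional, truncated at K strands, against the functional with a small factor -/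
lemma sum_le {κ : ℝ} (h0 : 0 < κ) (h1 : κ ≤ 1) (K D : ℕ) :
    ∑ s ∈ Finset.range (D + 2), ∑' g : {g : List Bool // g ∈ Brd s},
      wE g.1 * (FK (K + 1) s g.1 * FK (K + 1) s (rev g.1)) ≤
    ENNReal.ofReal (64 / κ) ^ (2 * (K + 1)) * ∑ s ∈ Finset.range (D + 2), ∑' g : {g : List Bool // g ∈ Brd s},
      wE g.1 * (Fch (ENNReal.ofReal κ) s g.1 * Fch (ENNReal.ofReal κ) s (rev g.1)) := by
  rw [Finset.mul_sum]
  apply Finset.sum_le_sum
  intro s _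
  rw [← ENNReal.tsum_mul_left]
  apply ENNReal.tsum_le_tsum
  intro g
  have a1 := FK_le h0 h1 (K + 1) s g.1
  have a2 := FK_le h0 h1 (K + 1) s (rev g.1)
  calc wE g.1 * (FK (K + 1) s g.1 * FK (K + 1) s (rev g.1)) ≤
      wE g.1 * ((ENNReal.ofReal (64 / κ) ^ (K + 1) * Fch (ENNReal.ofReal κ) s g.1) *
        (ENNReal.ofReal (64 / κ) ^ (K + 1) * Fch (ENNReal.ofReal κ) s (rev g.1))) :=
        mul_le_mul_right (mul_le_mul' a1 a2) _
    _ = ENNReal.ofReal (64 / κ) ^ (2 * (K + 1)) *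
        (wE g.1 * (Fch (ENNReal.ofReal κ) s g.1 * Fch (ENNReal.ofReal κ) s (rev g.1))) := by
        rw [two_mul, pow_add]
        ring

end CDAux

/-- C4 (CD): (CBz) implies (CB) -/
theorem CB_of_CBz (h : CBz) : CB := by
  obtain ⟨κ, C, hκ0, hκ1, hC, hCB⟩ := h (1 / 140) (by norm_num)
  obtain ⟨C0, hC0, hM⟩ := MidW_le
  obtain ⟨A, hA⟩ : ∃ A : ℝ, A = 64 / κ := ⟨_, rfl⟩
  have hA1 : 1 < A := by
    rw [hA, lt_div_iff₀ hκ0]
    linarith
  have hA0 : 0 < A := by linarith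
  have hL : 0 < Real.log A := Real.log_pos hA1
  obtain ⟨B, hB⟩ : ∃ B : ℝ, B = C0.toReal * A ^ 2 * (C * 4) := ⟨_, rfl⟩
  -- the threshold
  have htend : Filter.Tendsto (fun D : ℕ => (D : ℝ) ^ (1 / 140 : ℝ)) Filter.atTop Filter.atTop :=
    (tendsto_rpow_atTop (by norm_num)).comp tendsto_natCast_atTop_atTop
  obtain ⟨D0, hD0⟩ := Filter.eventually_atTop.mp (htend.eventually_ge_atTop B)
  refine ⟨139 / 140, 1 / (280 * Real.log A), by norm_num, by positivity, max D0 1,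
    fun D hD K hK => ?_⟩
  have hD1 : 1 ≤ D := le_trans (le_max_right _ _) hD
  have hDD : D0 ≤ D := le_trans (le_max_left _ _) hD
  have hDr : (1 : ℝ) ≤ D := by exact_mod_cast hD1
  have hDp : (0 : ℝ) < D := by linarith
  -- the power of A
  have hpow : A ^ (2 * (K + 1)) ≤ A ^ 2 * (D : ℝ) ^ (1 / 140 : ℝ) := by
    have e1 : A ^ (2 * (K + 1)) = A ^ 2 * A ^ (2 * K) := by rw [← pow_add]; congr 1; ring
    rw [e1]
    apply mul_le_mul_of_nonneg_left _ (by positivity)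
    have e2 : A ^ (2 * K) = Real.exp ((2 * K) * Real.log A) := by
      have e4 : ((2 : ℝ) * K) * Real.log A = Real.log A * ((2 * K : ℕ) : ℝ) := by
        push_cast
        ring
      rw [e4, Real.exp_mul, Real.exp_log hA0, Real.rpow_natCast]
    have e3 : (D : ℝ) ^ (1 / 140 : ℝ) = Real.exp ((1 / 140) * Real.log D) := by
      rw [mul_comm, Real.exp_mul, Real.exp_log hDp]
    rw [e2, e3]
    apply Real.exp_le_exp.mpr
    have h1 : (K : ℝ) * Real.log A ≤ 1 / 280 * Real.log D := by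
      have := mul_le_mul_of_nonneg_right hK hL.le
      calc (K : ℝ) * Real.log A ≤ 1 / (280 * Real.log A) * Real.log D * Real.log A := this
        _ = _ := by field_simp
    linarith
  -- all factors together
  have hU := CDAux.UU_le bT_sum_le hD1
  have hUU0 : 0 ≤ UU D := by
    unfold UU
    exact Finset.sum_nonneg fun t _ => ENNReal.toReal_nonneg
  have hreal : C0.toReal * (A ^ (2 * (K + 1)) * (C * (D : ℝ) ^ (1 / 140 : ℝ) * UU D)) ≤
      (D : ℝ) ^ (139 / 140 : ℝ) := by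
    have p1 : 0 ≤ (D : ℝ) ^ (1 / 140 : ℝ) := by positivity
    have h1 : C * (D : ℝ) ^ (1 / 140 : ℝ) * UU D ≤
        C * (D : ℝ) ^ (1 / 140 : ℝ) * (4 * (D : ℝ) ^ ((34 / 35) : ℝ)) :=
      mul_le_mul_of_nonneg_left hU (by positivity)
    have h2 : A ^ (2 * (K + 1)) * (C * (D : ℝ) ^ (1 / 140 : ℝ) * UU D) ≤
        (A ^ 2 * (D : ℝ) ^ (1 / 140 : ℝ)) *
          (C * (D : ℝ) ^ (1 / 140 : ℝ) * (4 * (D : ℝ) ^ ((34 / 35) : ℝ))) :=
      mul_le_mul hpow h1 (by positivity) (by positivity)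
    have h3 : (D : ℝ) ^ (139 / 140 : ℝ) = (D : ℝ) ^ (1 / 140 : ℝ) * ((D : ℝ) ^ (1 / 140 : ℝ) *
        ((D : ℝ) ^ (1 / 140 : ℝ) * (D : ℝ) ^ ((34 / 35) : ℝ))) := by
      rw [← Real.rpow_add hDp, ← Real.rpow_add hDp, ← Real.rpow_add hDp]
      norm_num
    calc C0.toReal * (A ^ (2 * (K + 1)) * (C * (D : ℝ) ^ (1 / 140 : ℝ) * UU D)) ≤
        C0.toReal * ((A ^ 2 * (D : ℝ) ^ (1 / 140 : ℝ)) *
          (C * (D : ℝ) ^ (1 / 140 : ℝ) * (4 * (D : ℝ) ^ ((34 / 35) : ℝ)))) :=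
          mul_le_mul_of_nonneg_left h2 ENNReal.toReal_nonneg
      _ = B * ((D : ℝ) ^ (1 / 140 : ℝ) *
          ((D : ℝ) ^ (1 / 140 : ℝ) * (D : ℝ) ^ ((34 / 35) : ℝ))) := by rw [hB]; ring
      _ ≤ (D : ℝ) ^ (1 / 140 : ℝ) * ((D : ℝ) ^ (1 / 140 : ℝ) *
          ((D : ℝ) ^ (1 / 140 : ℝ) * (D : ℝ) ^ ((34 / 35) : ℝ))) :=
          mul_le_mul_of_nonneg_right (hD0 D hDD) (by positivity)
      _ = _ := h3.symm
  calc gf (MidW K D) ≤ C0 * ∑ s ∈ Finset.range (D + 2), ∑' g : {g : List Bool // g ∈ Brd s},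
      wE g.1 * (FK (K + 1) s g.1 * FK (K + 1) s (rev g.1)) := hM K D
    _ ≤ C0 * (ENNReal.ofReal (64 / κ) ^ (2 * (K + 1)) * ENNReal.ofReal (C * (D : ℝ) ^ (1 / 140 : ℝ) * UU D)) :=
        mul_le_mul_right ((CDAux.sum_le hκ0 hκ1 K D).trans
          (mul_le_mul_right (hCB D hD1) _)) _
    _ = ENNReal.ofReal (C0.toReal * (A ^ (2 * (K + 1)) * (C * (D : ℝ) ^ (1 / 140 : ℝ) * UU D))) := by
        rw [← hA, ENNReal.ofReal_mul (p := C0.toReal) ENNReal.toReal_nonneg, ENNReal.ofReal_toReal hC0,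
          ENNReal.ofReal_mul (p := A ^ (2 * (K + 1))) (by positivity), ENNReal.ofReal_pow hA0.le]
    _ ≤ ENNReal.ofReal ((D : ℝ) ^ (139 / 140 : ℝ)) := ENNReal.ofReal_le_ofReal hreal

end HexObs
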