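import Pool.Agent.TStar.FinC
import Pool.Agent.TStar.CD

/-!
T*: power law sub-ballisticity of the honeycomb self-avoiding walk, from the chain bound.
-/

set_option autoImplicit false
open scoped Classical

namespace HexObs

open Complex Finset ENNReal

/-- mean square of the maximal displacement from the tail -/
theorem mean_of_tail {c θ K : ℝ} (hc0 : 0 < c) (hc1 : c < 1) (hθ : 0 < θ) (hK : 0 < K) : ∃ K' : ℝ, 0 < K' ∧
    ∀ (f : ℕ → Fin 3 → ℂ), (∀ i a, f i a =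
    (-1 : ℂ) ^ i * Complex.exp (2 * (Real.pi : ℂ) * Complex.I * ((a : ℕ) : ℂ) / 3)) →
    ∀ n : ℕ, 1 ≤ n →
    (((SawNu.saw f n).filter
        (fun s => ∃ j : Fin (n + 1), (n : ℝ) ^ (1 - c) ≤ ‖SawNu.pos f s j‖)).card : ℝ) ≤
      K * Real.exp (-((n : ℝ) ^ θ)) * ((SawNu.saw f n).card : ℝ) →
    (∑ s ∈ SawNu.saw f n, ⨆ j : Fin (n + 1), ‖SawNu.pos f s j‖ ^ 2) / ((SawNu.saw f n).card : ℝ) ≤
      K' * (n : ℝ) ^ (2 - 2 * c) := by
  obtain ⟨A, hA, hexp'⟩ := finC_exp hθ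
  refine ⟨1 + A * K, by positivity, ?_⟩
  intro f hf n hn hT
  have hn1 : (1 : ℝ) ≤ n := by exact_mod_cast hn
  have hn0 : (0 : ℝ) ≤ n := by linarith
  obtain ⟨W, hW⟩ : ∃ W, W = SawNu.saw f n := ⟨_, rfl⟩
  rw [← hW] at hT ⊢
  obtain ⟨T, hTdef⟩ : ∃ T, T = W.filter (fun s => ∃ j : Fin (n + 1), (n : ℝ) ^ (1 - c) ≤ ‖SawNu.pos f s j‖) :=
    ⟨_, rfl⟩
  rw [← hTdef] at hT
  obtain ⟨P, hP⟩ : ∃ P, P = (n : ℝ) ^ (2 - 2 * c) := ⟨_, rfl⟩
  have hP1 : 1 ≤ P := by rw [hP]; exact Real.one_le_rpow hn1 (by linarith)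
  have hPsq : ((n : ℝ) ^ (1 - c)) ^ 2 = P := by
    rw [hP, ← Real.rpow_natCast, ← Real.rpow_mul hn0]
    congr 1
    push_cast
    ring
  have hbig : ∀ s : Fin n → Fin 3, (⨆ j : Fin (n + 1), ‖SawNu.pos f s j‖ ^ 2) ≤ (n : ℝ) ^ 2 := by
    intro s
    refine ciSup_le fun j => ?_
    exact pow_le_pow_left₀ (norm_nonneg _) (finC_pos f hf s j) 2
  have hsmall : ∀ s ∈ W, s ∉ T → (⨆ j : Fin (n + 1), ‖SawNu.pos f s j‖ ^ 2) ≤ P := by
    intro s hs hsT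
    refine ciSup_le fun j => ?_
    have h1 : ‖SawNu.pos f s j‖ < (n : ℝ) ^ (1 - c) := by
      by_contra hcon
      apply hsT
      rw [hTdef]
      exact Finset.mem_filter.2 ⟨hs, j, not_lt.1 hcon⟩
    rw [← hPsq]
    exact pow_le_pow_left₀ (norm_nonneg _) h1.le 2
  have hsum : (∑ s ∈ W, ⨆ j : Fin (n + 1), ‖SawNu.pos f s j‖ ^ 2) ≤
      P * (W.card : ℝ) + (n : ℝ) ^ 2 * (T.card : ℝ) := by
    have h1 : ∀ s ∈ W, (⨆ j : Fin (n + 1), ‖SawNu.pos f s j‖ ^ 2) ≤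
        P + (if s ∈ T then (n : ℝ) ^ 2 else 0) := by
      intro s hs
      by_cases hsT : s ∈ T
      · rw [if_pos hsT]
        have := hbig s
        linarith
      · rw [if_neg hsT, add_zero]
        exact hsmall s hs hsT
    refine (Finset.sum_le_sum h1).trans ?_
    rw [Finset.sum_add_distrib, Finset.sum_const, nsmul_eq_mul, ← Finset.sum_filter]
    have h2 : W.filter (fun s => s ∈ T) = T := by
      ext s
      simp only [Finset.mem_filter, hTdef]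
      tauto
    rw [h2, Finset.sum_const, nsmul_eq_mul]
    linarith
  have hexp := hexp' n hn
  have hW0 : (0 : ℝ) ≤ (W.card : ℝ) := Nat.cast_nonneg _
  have hsum2 : (∑ s ∈ W, ⨆ j : Fin (n + 1), ‖SawNu.pos f s j‖ ^ 2) ≤
      ((1 + A * K) * P) * (W.card : ℝ) := by
    refine hsum.trans ?_
    have h3 : (n : ℝ) ^ 2 * (T.card : ℝ) ≤
        (n : ℝ) ^ 2 * (K * Real.exp (-((n : ℝ) ^ θ)) * (W.card : ℝ)) :=
      mul_le_mul_of_nonneg_left hT (by positivity)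
    have h4 : (n : ℝ) ^ 2 * (K * Real.exp (-((n : ℝ) ^ θ)) * (W.card : ℝ)) =
        K * (W.card : ℝ) * ((n : ℝ) ^ 2 * Real.exp (-((n : ℝ) ^ θ))) := by ring
    have h5 : K * (W.card : ℝ) * ((n : ℝ) ^ 2 * Real.exp (-((n : ℝ) ^ θ))) ≤
        K * (W.card : ℝ) * A := mul_le_mul_of_nonneg_left hexp (by positivity)
    have h6 : K * (W.card : ℝ) * A ≤ A * K * P * (W.card : ℝ) := by
      have h7 : A * K * (W.card : ℝ) * 1 ≤ A * K * (W.card : ℝ) * P :=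
        mul_le_mul_of_nonneg_left hP1 (by positivity)
      linarith
    rw [h4] at h3
    have h8 : (1 + A * K) * P * (W.card : ℝ) = P * (W.card : ℝ) + A * K * P * (W.card : ℝ) := by ring
    rw [h8]
    linarith
  rcases Nat.eq_zero_or_pos W.card with hz | hz
  · have hz' : (W.card : ℝ) = 0 := by exact_mod_cast hz
    rw [hz', _root_.div_zero]
    positivity
  · have hz' : (0 : ℝ) < (W.card : ℝ) := by exact_mod_cast hz
    rw [div_le_iff₀ hz', ← hP]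
    exact hsum2

/-- T*: tail and mean -/
theorem tstar_of_CBz (h : CBz) : ∃ c θ K : ℝ, 0 < c ∧ c < 1 ∧ 0 < θ ∧ 0 < K ∧ ∀ (f : ℕ → Fin 3 → ℂ), (∀ i a, f i a =
    (-1 : ℂ) ^ i * Complex.exp (2 * (Real.pi : ℂ) * Complex.I * ((a : ℕ) : ℂ) / 3)) →
    ∀ n : ℕ, 1 ≤ n →
    (((SawNu.saw f n).filter
        (fun s => ∃ j : Fin (n + 1), (n : ℝ) ^ (1 - c) ≤ ‖SawNu.pos f s j‖)).card : ℝ) ≤
      K * Real.exp (-((n : ℝ) ^ θ)) * ((SawNu.saw f n).card : ℝ) ∧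
    (∑ s ∈ SawNu.saw f n, ⨆ j : Fin (n + 1), ‖SawNu.pos f s j‖ ^ 2) / ((SawNu.saw f n).card : ℝ) ≤
      K * (n : ℝ) ^ (2 - 2 * c) := by
  obtain ⟨c, θ, K, hc0, hc1, hθ, hK, ht⟩ := tail_of_CB (CB_of_CBz h)
  obtain ⟨K', hK', hm⟩ := mean_of_tail hc0 hc1 hθ hK
  refine ⟨c, θ, K + K', hc0, hc1, hθ, by positivity, fun f hf n hn => ⟨?_, ?_⟩⟩
  · refine (ht f hf n hn).trans ?_
    have h1 : 0 ≤ K' * Real.exp (-((n : ℝ) ^ θ)) * ((SawNu.saw f n).card : ℝ) := by positivity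
    have h2 : (K + K') * Real.exp (-((n : ℝ) ^ θ)) * ((SawNu.saw f n).card : ℝ) =
        K * Real.exp (-((n : ℝ) ^ θ)) * ((SawNu.saw f n).card : ℝ) +
          K' * Real.exp (-((n : ℝ) ^ θ)) * ((SawNu.saw f n).card : ℝ) := by ring
    linarith
  · refine (hm f hf n hn (ht f hf n hn)).trans ?_
    have h1 : 0 ≤ K * (n : ℝ) ^ (2 - 2 * c) := by positivity
    have h2 : (K + K') * (n : ℝ) ^ (2 - 2 * c) = K * (n : ℝ) ^ (2 - 2 * c) + K' * (n : ℝ) ^ (2 - 2 * c) := by ring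
    linarith

end HexObs
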