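import Pool.Agent.TStar.Defs
import Pool.Agent.PHW.DefsB

/-!
T*: chain functionals with a bounded number of strands, the input from the PHW recursion.
-/

set_option autoImplicit false

namespace HexObs

open Complex Finset ENNReal TStar

/-- at most K turns before the end (the word starts at the lowest level) -/
def TurnLe (K : ℕ) (t : List Bool) : Prop := t = [] ∨ ∃ k, k ≤ K ∧ Chn (lev t) 1 t.length k

/-- weight of the walks of the strip of height m with at most K turns that hang at the end of g -/
noncomputable def GHK (K m : ℕ) (g : List Bool) : ℝ≥0∞ :=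
  gf {t | t ∈ SSt m ∧ TurnLe K t ∧ Hang g true t} + gf {t | t ∈ SSt m ∧ TurnLe K t ∧ Hang g false t}

/-- chain functional with at most K strands, factor 64 for every strand -/
noncomputable def FK : ℕ → ℕ → List Bool → ℝ≥0∞
  | 0, _, _ => 1
  | _ + 1, 0, _ => 1
  | K + 1, n + 1, g => FK (K + 1) n g + 64 * ∑' g' : {g' : List Bool // g' ∈ Brd (n + 1) ∧ Nb g g'}, wE g'.1 * FK K n g'.1

/-- INPUT from the PHW recursion: the chain functional with a small factor κ for every strand, used at both ends of
the bridge g (the strands are not higher than g), grows like D ^ ε -/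
def CBz : Prop := ∀ ε : ℝ, 0 < ε → ∃ κ C : ℝ, 0 < κ ∧ κ ≤ 1 ∧ 0 < C ∧ ∀ D : ℕ, 1 ≤ D →
  ∑ s ∈ Finset.range (D + 2), ∑' g : {g : List Bool // g ∈ Brd s},
      wE g.1 * (Fch (ENNReal.ofReal κ) s g.1 * Fch (ENNReal.ofReal κ) s (rev g.1)) ≤
    ENNReal.ofReal (C * (D : ℝ) ^ ε * UU D)

end HexObs
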