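import Pool.Agent.PHW.Dict
import Pool.Agent.SawHW33.VEnc
import Pool.Agent.SawHW33.Split
import Pool.Agent.SawHWR.Main

/-!
T*: the Hammersley-Welsh bound with loss exp (n ^ ε) for the words.
-/

set_option autoImplicit false

namespace HexObs

open Complex Finset ENNReal

open SawNu Pool.Agent.Lib.SAW.HW in
theorem aB_hwe : ∀ᶠ n : ℕ in Filter.atTop, (aB n : ℝ) ≤
    muB ^ n * Real.exp (Real.exp (10 * Real.sqrt (Real.log n * Real.log (Real.log n)))) := by
  have hM := mirrored_hex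
  have hup : ∀ b, ∃ u ∈ hexL.S b, u.2 = 1 := by
    intro b
    cases b
    · exact ⟨(-1, 1), by simp [hexL], rfl⟩
    · exact ⟨(1, 1), by simp [hexL], rfl⟩
  have haW : ∀ n, aB n = (WS hexL n).card := PHWDict.aB_WS
  refine Pool.Agent.SawHWR.hw_analysis (h := fun n => (HSb hexL false n).card)
    (b := fun p => (sysL hexL).b p) ?_ ?_ ?_ ?_ ?_ rfl
  · intro m n
    rw [haW, haW, haW]
    exact WS_mul hM m n
  · intro n
    rw [haW]
    exact WS_split hM hup n
  · intro p q
    exact b_mul_le p q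
  · intro p
    rw [haW]
    exact b_le_card hM p (WS hexL p) (fun l h1 h2 h3 => mem_WS.mpr ⟨h1, h2, h3⟩)
  · filter_upwards [Pool.Agent.SawHWR.halfspace_rate hM] with N hN p hp
    exact hN p hp _ (fun l hl => mem_HSb.mp hl)

theorem sqrt_loglog_le {ε : ℝ} (hε : 0 < ε) : ∀ᶠ n : ℕ in Filter.atTop,
    Real.exp (10 * Real.sqrt (Real.log n * Real.log (Real.log n))) ≤ (n : ℝ) ^ ε := by
  have h1 : Filter.Tendsto (fun n : ℕ => Real.log (Real.log (n : ℝ)) / Real.log (n : ℝ)) Filter.atTop (nhds 0) := by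
    have h2 : Filter.Tendsto (fun x : ℝ => Real.log x / x) Filter.atTop (nhds 0) := by
      have := Real.isLittleO_log_id_atTop.tendsto_div_nhds_zero
      exact this
    exact h2.comp (Real.tendsto_log_atTop.comp tendsto_natCast_atTop_atTop)
  have h3 : ∀ᶠ n : ℕ in Filter.atTop, Real.log (Real.log (n : ℝ)) / Real.log (n : ℝ) < (ε / 10) ^ 2 :=
    h1.eventually (gt_mem_nhds (by positivity))
  filter_upwards [h3, Filter.eventually_ge_atTop 3] with n hn hn3
  have hn3' : (3 : ℝ) ≤ n := by exact_mod_cast hn3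
  have hlog : 0 < Real.log n := Real.log_pos (by linarith)
  rw [div_lt_iff₀ hlog] at hn
  have h4 : Real.sqrt (Real.log n * Real.log (Real.log n)) ≤ (ε / 10) * Real.log n := by
    rw [show (ε / 10) * Real.log n = Real.sqrt (((ε / 10) * Real.log n) ^ 2) by
      rw [Real.sqrt_sq (by positivity)]]
    apply Real.sqrt_le_sqrt
    nlinarith
  rw [Real.rpow_def_of_pos (by linarith)]
  apply Real.exp_le_exp.2
  nlinarith

/-- the number of the words with n letters, up to exp (n ^ ε) -/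
theorem cS_eps {ε : ℝ} (hε : 0 < ε) : ∃ K : ℝ, 1 ≤ K ∧ ∀ n : ℕ, (cS n : ℝ) * xc ^ n ≤ K * Real.exp ((n : ℝ) ^ ε) := by
  have hx := xc_pos
  have h1 : ∀ᶠ n : ℕ in Filter.atTop, (cS n : ℝ) * xc ^ n ≤ Real.exp ((n : ℝ) ^ ε) := by
    filter_upwards [aB_hwe, sqrt_loglog_le hε, Filter.eventually_ge_atTop 1] with n ha hs hn
    have h2 : (2 : ℝ) * aB n = 3 * cS n := by exact_mod_cast aB_eq hn
    have h3 : muB ^ n ≤ (1 / xc) ^ n := by
      have h0 : 0 ≤ muB := by
        have := le_muB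
        have h5 : 0 < 1 / xc := by positivity
        linarith
      exact pow_le_pow_left₀ h0 muB_le n
    have h4 : (cS n : ℝ) ≤ aB n := by
      have : (0 : ℝ) ≤ aB n := Nat.cast_nonneg _
      linarith
    calc (cS n : ℝ) * xc ^ n ≤ aB n * xc ^ n := mul_le_mul_of_nonneg_right h4 (by positivity)
      _ ≤ ((1 / xc) ^ n * Real.exp ((n : ℝ) ^ ε)) * xc ^ n := by
        refine mul_le_mul_of_nonneg_right (ha.trans ?_) (by positivity)
        exact mul_le_mul h3 (Real.exp_le_exp.2 hs) (Real.exp_pos _).le (by positivity)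
      _ = Real.exp ((n : ℝ) ^ ε) := by
        rw [one_div, inv_pow]
        field_simp
  obtain ⟨N, hN⟩ := Filter.eventually_atTop.1 h1
  refine ⟨1 + ∑ m ∈ Finset.range N, (cS m : ℝ) * xc ^ m, ?_, fun n => ?_⟩
  · have : 0 ≤ ∑ m ∈ Finset.range N, (cS m : ℝ) * xc ^ m := Finset.sum_nonneg fun m _ => by positivity
    linarith
  have h0 : 0 ≤ ∑ m ∈ Finset.range N, (cS m : ℝ) * xc ^ m := Finset.sum_nonneg fun m _ => by positivity
  have he : 1 ≤ Real.exp ((n : ℝ) ^ ε) := Real.one_le_exp (by positivity)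
  rcases Nat.lt_or_ge n N with h | h
  · have h2 : (cS n : ℝ) * xc ^ n ≤ ∑ m ∈ Finset.range N, (cS m : ℝ) * xc ^ m :=
      Finset.single_le_sum (f := fun m => (cS m : ℝ) * xc ^ m) (fun m _ => by positivity) (Finset.mem_range.2 h)
    nlinarith
  · have := hN n h
    nlinarith

end HexObs
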