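import Pool.Agent.TStar.Num
import Pool.Agent.TStar.HWE
import Pool.Agent.TST.FinA

/-!
T*: from the small weight of the long bridges of few steps (small_of_CB) to all self-avoiding walks.
Weight xc exp (-1/n) per step: the words of at most n letters keep their weight up to a factor, the half plane words
have total weight at most exp (n ^ ε) (Hammersley-Welsh with loss exp (n ^ ε)), the bridges of height >= n ^ (1-c) have
total weight at most exp (- n ^ c').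
-/

set_option autoImplicit false
open scoped Classical

namespace HexObs

open Complex Finset ENNReal

/-- the weight per step -/
noncomputable def xl (lam : ℝ) : ℝ := xc * Real.exp (-lam)

lemma xl_pos (lam : ℝ) : 0 < xl lam := mul_pos xc_pos (Real.exp_pos _)

lemma xl_le {lam : ℝ} (h : 0 ≤ lam) : xl lam ≤ xc := by
  have h1 : Real.exp (-lam) ≤ 1 := Real.exp_le_one_iff.2 (by linarith)
  have h2 := mul_le_mul_of_nonneg_left h1 xc_pos.le
  unfold xl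
  linarith

lemma xl_ge {lam : ℝ} (h1 : lam ≤ 1 / 10) : 1 / 3 ≤ xl lam := by
  have h1' := finA1_xc_ge
  have h2 : 9 / 10 ≤ Real.exp (-lam) := by
    have := Real.add_one_le_exp (-lam)
    linarith
  have h3 : (1 / 2 : ℝ) * (9 / 10) ≤ xc * Real.exp (-lam) :=
    mul_le_mul h1' h2 (by norm_num) xc_pos.le
  unfold xl
  linarith

lemma xl_pow (lam : ℝ) (k : ℕ) : xl lam ^ k = xc ^ k * Real.exp (-(lam * k)) := by
  unfold xl
  rw [mul_pow, ← Real.exp_nat_mul]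
  congr 2
  ring

lemma finB_xc : xc ≤ 1 := by
  have h2 : 0 < Real.cos (Real.pi / 8) := Real.cos_pos_of_mem_Ioo ⟨by linarith [Real.pi_pos], by linarith [Real.pi_pos]⟩
  have h1 : (1 / 2 : ℝ) ≤ Real.cos (Real.pi / 8) := by
    rw [← Real.cos_pi_div_three]
    apply Real.cos_le_cos_of_nonneg_of_le_pi <;> linarith [Real.pi_pos]
  unfold xc
  rw [div_le_one (by positivity)]
  linarith

theorem SP_sub (k : ℕ) : SP k ⊆ HPw := by
  rintro t ⟨⟨h1, h2⟩, -⟩
  exact ⟨h1, fun i hi hil => (h2 i hi hil).1⟩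

theorem HPR_bound {x M B : ℝ} (hx : 1 / 3 ≤ x) (hx1 : x ≤ 1) (hM : 1 ≤ M) (hB : 0 ≤ B) {R : ℕ} (hR : 1 ≤ R)
    (hH : gX x HPw ≤ ENNReal.ofReal M) (hT : ∑' j : ℕ, AX x (R + j) ≤ ENNReal.ofReal B) :
    gX x (HPR R) ≤ ENNReal.ofReal (7 * M * B) := by
  have hx0 : 0 < x := by linarith
  refine (HPR_le hx0 hR).trans ?_
  have h1 : ∀ j : ℕ, (ENNReal.ofReal (2 * x) + 2) * AX x (R + j) +
      ENNReal.ofReal x⁻¹ * (AX x (R + j) * gX x (SP (R + j))) ≤ ENNReal.ofReal (7 * M) * AX x (R + j) := by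
    intro j
    have a1 : ENNReal.ofReal (2 * x) + 2 ≤ ENNReal.ofReal (4 * M) := by
      have e2 : (2 : ℝ≥0∞) = ENNReal.ofReal 2 := by norm_num
      rw [e2, ← ENNReal.ofReal_add (by linarith) (by norm_num)]
      apply ENNReal.ofReal_le_ofReal
      nlinarith
    have a2 : ENNReal.ofReal x⁻¹ ≤ ENNReal.ofReal 3 := by
      apply ENNReal.ofReal_le_ofReal
      rw [inv_le_comm₀ hx0 (by norm_num)]
      linarith
    have a3 : gX x (SP (R + j)) ≤ ENNReal.ofReal M := (gX_mono x (SP_sub _)).trans hH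
    calc (ENNReal.ofReal (2 * x) + 2) * AX x (R + j) +
        ENNReal.ofReal x⁻¹ * (AX x (R + j) * gX x (SP (R + j)))
        ≤ ENNReal.ofReal (4 * M) * AX x (R + j) + ENNReal.ofReal 3 * (AX x (R + j) * ENNReal.ofReal M) :=
          add_le_add (mul_le_mul' a1 le_rfl) (mul_le_mul' a2 (mul_le_mul' le_rfl a3))
      _ = ENNReal.ofReal (7 * M) * AX x (R + j) := by
          have e3 : ENNReal.ofReal (7 * M) = ENNReal.ofReal (4 * M) + ENNReal.ofReal 3 * ENNReal.ofReal M := by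
            rw [← ENNReal.ofReal_mul (by norm_num), ← ENNReal.ofReal_add (by linarith) (by linarith)]
            congr 1
            ring
          rw [e3]
          ring
  refine (ENNReal.tsum_le_tsum h1).trans ?_
  have h2 : ENNReal.ofReal (7 * M * B) = ENNReal.ofReal (7 * M) * ENNReal.ofReal B :=
    ENNReal.ofReal_mul (by linarith)
  rw [ENNReal.tsum_mul_left, h2]
  exact mul_le_mul' le_rfl hT

theorem tail_bound2 : ∃ C : ℝ, 0 < C ∧ ∀ (f : ℕ → Fin 3 → ℂ), (∀ i a, f i a =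
    (-1 : ℂ) ^ i * Complex.exp (2 * (Real.pi : ℂ) * Complex.I * ((a : ℕ) : ℂ) / 3)) →
    ∀ (lam M B : ℝ) (n R : ℕ), 0 ≤ lam → lam ≤ 1 / 10 → 1 ≤ M → 0 ≤ B → 1 ≤ n → 1 ≤ R →
    gX (xl lam) HPw ≤ ENNReal.ofReal M → ∑' j : ℕ, AX (xl lam) (R + j) ≤ ENNReal.ofReal B →
    (((SawNu.saw f n).filter (fun s => ∃ j : Fin (n + 1), 3 * (R : ℝ) ≤ ‖SawNu.pos f s j‖)).card : ℝ) ≤
      C * (Real.exp (lam * n) * M ^ 2 * B) * ((SawNu.saw f n).card : ℝ) := by
  refine ⟨2 * (36 * 147), by norm_num, ?_⟩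
  intro f hf lam M B n R hl hl1 hM hB hn hR hH htail
  have hx0 := xl_pos lam
  have hx1 := (xl_le hl).trans finB_xc
  have hx3 := xl_ge hl1
  have hone : ∀ d ∈ dirs, ∀ e ∈ dirs, ((FW d e n (3 * R)).ncard : ℝ) ≤ 147 * M ^ 2 * B / xl lam ^ n := by
    intro d hd e he
    have h1 := low_cut hx0 hd he hn hR
    rw [gX_length n _ (fun t ht => ht.1)] at h1
    have h3 := HPR_bound hx3 hx1 hM hB hR hH htail
    have h4 : (3 : ℝ≥0∞) + ENNReal.ofReal (2 / xl lam ^ 2) * gX (xl lam) HPw ≤ ENNReal.ofReal (21 * M) := by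
      have h5 : 2 / xl lam ^ 2 ≤ 18 := by
        rw [div_le_iff₀ (by positivity)]
        nlinarith
      calc (3 : ℝ≥0∞) + ENNReal.ofReal (2 / xl lam ^ 2) * gX (xl lam) HPw
          ≤ ENNReal.ofReal 3 + ENNReal.ofReal 18 * ENNReal.ofReal M := by
            refine add_le_add ?_ (mul_le_mul' (ENNReal.ofReal_le_ofReal h5) hH)
            simp
        _ = ENNReal.ofReal (3 + 18 * M) := by
            rw [← ENNReal.ofReal_mul (by norm_num), ← ENNReal.ofReal_add (by norm_num) (by positivity)]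
        _ ≤ ENNReal.ofReal (21 * M) := by
            apply ENNReal.ofReal_le_ofReal
            linarith
    have h5 := h1.trans (mul_le_mul' h4 h3)
    rw [← ENNReal.ofReal_mul (by positivity), ← ENNReal.ofReal_natCast, ← ENNReal.ofReal_mul (by positivity),
      ENNReal.ofReal_le_ofReal_iff (by positivity)] at h5
    rw [le_div_iff₀ (by positivity)]
    nlinarith
  have hcast : (((3 * R : ℕ) : ℤ) : ℝ) = 3 * (R : ℝ) := by push_cast; ring
  have hup := enc_upper hf hn ((3 * R : ℕ) : ℤ)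
  rw [hcast] at hup
  have hup' : (((SawNu.saw f n).filter (fun s => ∃ j : Fin (n + 1),
      3 * (R : ℝ) ≤ ‖SawNu.pos f s j‖)).card : ℝ) ≤
      ∑ d ∈ dirs, ∑ e ∈ dirs, ((FW d e n (3 * R)).ncard : ℝ) := by
    have h1 : (((3 * R : ℕ) : ℤ)) = 3 * (R : ℤ) := by push_cast; ring
    rw [h1] at hup
    exact_mod_cast hup
  have hsum2 : ∑ d ∈ dirs, ∑ e ∈ dirs, ((FW d e n (3 * R)).ncard : ℝ) ≤
      36 * (147 * M ^ 2 * B / xl lam ^ n) := by
    calc ∑ d ∈ dirs, ∑ e ∈ dirs, ((FW d e n (3 * R)).ncard : ℝ)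
        ≤ ∑ d ∈ dirs, ∑ e ∈ dirs, 147 * M ^ 2 * B / xl lam ^ n :=
          Finset.sum_le_sum fun d hd => Finset.sum_le_sum fun e he => hone d hd e he
      _ = 36 * (147 * M ^ 2 * B / xl lam ^ n) := by
          rw [Finset.sum_const, Finset.sum_const, show dirs.card = 6 by decide, nsmul_eq_mul,
            nsmul_eq_mul]
          push_cast
          ring
  have hlow : 1 ≤ xc ^ n * (2 * ((SawNu.saw f n).card : ℝ)) := by
    have h1 := NW_lower n
    have h2 : (NW n : ℝ) ≤ 2 * ((SawNu.saw f n).card : ℝ) := by exact_mod_cast enc_lower hf hn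
    have h3 := mul_le_mul_of_nonneg_left h2 (pow_nonneg xc_pos.le n)
    linarith
  refine hup'.trans (hsum2.trans ?_)
  have hxc : 0 < xc ^ n := pow_pos xc_pos n
  have e1 : 36 * (147 * M ^ 2 * B / xl lam ^ n) =
      (36 * 147) * (Real.exp (lam * n) * M ^ 2 * B) * (1 / xc ^ n) := by
    rw [xl_pow, Real.exp_neg]
    have h1 : Real.exp (lam * n) ≠ 0 := (Real.exp_pos _).ne'
    field_simp
  rw [e1]
  have h2 : 1 / xc ^ n ≤ 2 * ((SawNu.saw f n).card : ℝ) := by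
    rw [div_le_iff₀ hxc]
    linarith
  have h3 : 0 ≤ (36 * 147) * (Real.exp (lam * n) * M ^ 2 * B) := by positivity
  have h4 := mul_le_mul_of_nonneg_left h2 h3
  linarith

/-- number of the words with n letters, two notations -/
lemma NW_le_cS (n : ℕ) : NW n ≤ cS n := by
  unfold NW cS
  apply Set.ncard_le_ncard _ (PHWDict.SawN_fin n)
  rintro t ⟨h1, h2⟩
  exact ⟨h1, ⟨fun _ _ _ => trivial, h2⟩⟩

lemma finB_young {ε : ℝ} (h0 : 0 < ε) (h1 : ε ≤ 1 / 2) {n : ℕ} (hn : 1 ≤ n) (k : ℕ) :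
    (k : ℝ) ^ ε - 1 / n * k ≤ (2 * (n : ℝ)) ^ (2 * ε) - (0 + (k : ℝ)) / (2 * n) := by
  have hn1 : (1 : ℝ) ≤ n := by exact_mod_cast hn
  have hn0 : (0 : ℝ) < n := by linarith
  have hk0 : (0 : ℝ) ≤ k := Nat.cast_nonneg k
  have e1 : 1 / (n : ℝ) * k = k / (2 * n) + k / (2 * n) := by
    field_simp
    ring
  have hp : 0 ≤ (2 * (n : ℝ)) ^ (2 * ε) := Real.rpow_nonneg (by linarith) _
  have hq : 0 ≤ (k : ℝ) / (2 * n) := by positivity
  rcases le_total (k : ℝ) ((2 * n) ^ 2) with hk | hk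
  · have h2 : (k : ℝ) ^ ε ≤ (2 * (n : ℝ)) ^ (2 * ε) := by
      calc (k : ℝ) ^ ε ≤ ((2 * (n : ℝ)) ^ 2) ^ ε := Real.rpow_le_rpow hk0 hk h0.le
        _ = (2 * (n : ℝ)) ^ (2 * ε) := by
          rw [← Real.rpow_natCast, ← Real.rpow_mul (by linarith)]
          norm_num
    rw [e1, zero_add]
    linarith
  · have hk1 : (1 : ℝ) ≤ k := by nlinarith
    have h2 : (k : ℝ) ^ ε ≤ Real.sqrt k := by
      rw [Real.sqrt_eq_rpow]
      exact Real.rpow_le_rpow_of_exponent_le hk1 h1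
    have h3 : 2 * (n : ℝ) ≤ Real.sqrt k := Real.le_sqrt_of_sq_le hk
    have h4 : Real.sqrt k ≤ k / (2 * n) := by
      rw [le_div_iff₀ (by positivity)]
      have h5 := Real.mul_self_sqrt hk0
      nlinarith [Real.sqrt_nonneg (k : ℝ)]
    rw [e1, zero_add]
    linarith

theorem HPw_eps {ε : ℝ} (h0 : 0 < ε) (h1 : ε ≤ 1 / 2) : ∃ K : ℝ, 1 ≤ K ∧ ∀ n : ℕ, 1 ≤ n →
    gX (xl (1 / n)) HPw ≤ ENNReal.ofReal (K * ((1 + 2 * n) * Real.exp ((2 * (n : ℝ)) ^ (2 * ε)))) := by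
  obtain ⟨K, hK, hcS⟩ := cS_eps h0
  refine ⟨K, hK, fun n hn => ?_⟩
  have hn1 : (1 : ℝ) ≤ n := by exact_mod_cast hn
  have hsub : HPw ⊆ ⋃ k : ℕ, {t | t ∈ HPw ∧ t.length = k} := by
    intro t ht
    rw [Set.mem_iUnion]
    exact ⟨t.length, ht, rfl⟩
  refine (gX_mono _ hsub).trans ((gX_iUnion_le _ _).trans ?_)
  have hterm : ∀ k : ℕ, gX (xl (1 / n)) {t | t ∈ HPw ∧ t.length = k} ≤
      ENNReal.ofReal ((K * Real.exp ((2 * (n : ℝ)) ^ (2 * ε))) * Real.exp (-((0 + (k : ℝ)) / (2 * n)))) := by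
    intro k
    rw [gX_length k _ (fun t ht => ht.2)]
    have h2 : ({t | t ∈ HPw ∧ t.length = k} : Set (List Bool)).ncard ≤ cS k := by
      refine le_trans (Set.ncard_le_ncard ?_ ((List.finite_length_eq Bool k).subset fun t ht => ht.1)) (NW_le_cS k)
      rintro t ⟨ht1, ht2⟩
      exact ⟨ht2, ht1.1⟩
    have h3 : (({t | t ∈ HPw ∧ t.length = k} : Set (List Bool)).ncard : ℝ≥0∞) ≤ ENNReal.ofReal (cS k) := by
      rw [ENNReal.ofReal_natCast]
      exact_mod_cast h2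
    refine (mul_le_mul' le_rfl h3).trans ?_
    rw [← ENNReal.ofReal_mul (pow_nonneg (xl_pos _).le k)]
    apply ENNReal.ofReal_le_ofReal
    rw [xl_pow]
    calc xc ^ k * Real.exp (-(1 / n * k)) * (cS k : ℝ) = (cS k * xc ^ k) * Real.exp (-(1 / n * k)) := by ring
      _ ≤ (K * Real.exp ((k : ℝ) ^ ε)) * Real.exp (-(1 / n * k)) :=
        mul_le_mul_of_nonneg_right (hcS k) (Real.exp_pos _).le
      _ = K * Real.exp ((k : ℝ) ^ ε - 1 / n * k) := by
        rw [mul_assoc, ← Real.exp_add]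
        congr 2
      _ ≤ K * Real.exp ((2 * (n : ℝ)) ^ (2 * ε) - (0 + (k : ℝ)) / (2 * n)) := by
        apply mul_le_mul_of_nonneg_left _ (by linarith)
        exact Real.exp_le_exp.2 (finB_young h0 h1 hn k)
      _ = (K * Real.exp ((2 * (n : ℝ)) ^ (2 * ε))) * Real.exp (-((0 + (k : ℝ)) / (2 * n))) := by
        rw [mul_assoc, ← Real.exp_add]
        congr 2
  refine (ENNReal.tsum_le_tsum hterm).trans ?_
  refine (finA2_geom (s := 2 * n) (by linarith) (K * Real.exp ((2 * (n : ℝ)) ^ (2 * ε))) 0 (by positivity)).trans ?_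
  apply ENNReal.ofReal_le_ofReal
  have e1 : Real.exp (-((0 : ℝ) / (2 * n))) = 1 := by simp
  rw [e1]
  apply le_of_eq
  ring

lemma finB_lev (t : List Bool) (i : ℕ) : lev t i ≤ 2 * i := by
  have hdir : ∀ d ∈ dirs, ip d up ≤ 2 := by decide
  induction i with
  | zero => rw [lev_zero]; norm_num
  | succ i ih =>
    rw [lev_succ]
    have h := hdir (dx up t i) (ds_mem upd _ : dx up t i ∈ dirs)
    push_cast
    omega

lemma Brd_len {T : ℕ} {t : List Bool} (ht : t ∈ Brd T) : T ≤ t.length := by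
  have h1 := (mem_Brd.1 ht).2.2.2
  have h2 := finB_lev t t.length
  omega

lemma AX_Brd (x : ℝ) (T : ℕ) : AX x T = gX x (Brd T) := by
  unfold AX Brd Br
  rw [Set.sdiff_empty]
  rfl

/-- bridges with the weight xc exp (-1/n) -/
theorem AX_small {n T N : ℕ} (hn : 1 ≤ n) (hT : 1 ≤ T) {E : ℝ} (hE : 0 ≤ E)
    (h : gf {t | t ∈ Brd T ∧ t.length ≤ N} ≤ ENNReal.ofReal E) :
    AX (xl (1 / n)) T ≤ ENNReal.ofReal ((E + Real.exp (-((N : ℝ) / (2 * n)))) * Real.exp (-((T : ℝ) / (2 * n)))) := by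
  have hn1 : (1 : ℝ) ≤ n := by exact_mod_cast hn
  have hn0 : (0 : ℝ) < n := by linarith
  have hx := xc_pos
  rw [AX_Brd]
  have hsub : Brd T ⊆ {t | t ∈ Brd T ∧ t.length ≤ N} ∪ {t | t ∈ Brd T ∧ N < t.length} := by
    intro t ht
    rcases Nat.lt_or_ge N t.length with h1 | h1
    · exact Or.inr ⟨ht, h1⟩
    · exact Or.inl ⟨ht, h1⟩
  have hw : ∀ (t : List Bool) (a : ℝ), a ≤ (t.length : ℝ) / n →
      wX (xl (1 / n)) t ≤ ENNReal.ofReal (Real.exp (-a)) * wX xc t := by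
    intro t a ha
    unfold wX
    rw [← ENNReal.ofReal_mul (Real.exp_pos _).le]
    apply ENNReal.ofReal_le_ofReal
    rw [xl_pow, mul_comm]
    apply mul_le_mul_of_nonneg_right _ (by positivity)
    apply Real.exp_le_exp.2
    have : (1 : ℝ) / n * t.length = t.length / n := by ring
    rw [this]
    linarith
  have hA : gX (xl (1 / n)) {t | t ∈ Brd T ∧ t.length ≤ N} ≤
      ENNReal.ofReal (Real.exp (-((T : ℝ) / (2 * n)))) * ENNReal.ofReal E := by
    refine (gX_le_of_inj (x := xl (1 / n)) (y := xc) (P := {t | t ∈ Brd T ∧ t.length ≤ N})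
      (Q := {t | t ∈ Brd T ∧ t.length ≤ N}) id (fun t ht => ht) (fun _ _ _ _ h => h)
      (ENNReal.ofReal (Real.exp (-((T : ℝ) / (2 * n))))) (fun t ht => hw t _ ?_)).trans (mul_le_mul' le_rfl h)
    have h1 : (T : ℝ) ≤ t.length := by exact_mod_cast Brd_len ht.1
    rw [div_le_div_iff₀ (by positivity) hn0]
    nlinarith
  have hB : gX (xl (1 / n)) {t | t ∈ Brd T ∧ N < t.length} ≤
      ENNReal.ofReal (Real.exp (-((N : ℝ) / (2 * n) + (T : ℝ) / (2 * n)))) * 1 := by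
    refine (gX_le_of_inj (x := xl (1 / n)) (y := xc) (P := {t | t ∈ Brd T ∧ N < t.length})
      (Q := Brd T) id (fun t ht => ht.1) (fun _ _ _ _ h => h)
      (ENNReal.ofReal (Real.exp (-((N : ℝ) / (2 * n) + (T : ℝ) / (2 * n))))) (fun t ht => hw t _ ?_)).trans
      (mul_le_mul' le_rfl ?_)
    · have h1 : (T : ℝ) ≤ t.length := by exact_mod_cast Brd_len ht.1
      have h2 : (N : ℝ) ≤ t.length := by exact_mod_cast ht.2.le
      rw [← add_div, div_le_div_iff₀ (by positivity) hn0]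
      nlinarith
    · show gf (Brd T) ≤ 1
      rw [gf_Brd]
      exact BT_le_one hT
  refine (gX_mono _ hsub).trans ((gX_union_le _ _ _).trans ((add_le_add hA hB).trans ?_))
  rw [mul_one, ← ENNReal.ofReal_mul (Real.exp_pos _).le, ← ENNReal.ofReal_add (by positivity) (by positivity)]
  apply ENNReal.ofReal_le_ofReal
  apply le_of_eq
  rw [neg_add, Real.exp_add]
  ring

theorem tail_of_CB (h : CB) : ∃ c c4 K : ℝ, 0 < c ∧ c < 1 ∧ 0 < c4 ∧ 0 < K ∧ ∀ (f : ℕ → Fin 3 → ℂ), (∀ i a, f i a =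
    (-1 : ℂ) ^ i * Complex.exp (2 * (Real.pi : ℂ) * Complex.I * ((a : ℕ) : ℂ) / 3)) →
    ∀ n : ℕ, 1 ≤ n →
    (((SawNu.saw f n).filter
        (fun s => ∃ j : Fin (n + 1), (n : ℝ) ^ (1 - c) ≤ ‖SawNu.pos f s j‖)).card : ℝ) ≤
      K * Real.exp (-((n : ℝ) ^ c4)) * ((SawNu.saw f n).card : ℝ) := by
  obtain ⟨C, hC, hT⟩ := tail_bound2
  obtain ⟨c0, c3, hc0, hc3, N0, hsmall⟩ := small_of_CB h
  obtain ⟨c1, hc1⟩ : ∃ c1, c1 = min c0 (1 / 2) := ⟨_, rfl⟩
  have hc1a : 0 < c1 := by rw [hc1]; exact lt_min hc0 (by norm_num)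
  have hc1b : c1 ≤ 1 / 2 := by rw [hc1]; exact min_le_right _ _
  have hc1c : c1 ≤ c0 := by rw [hc1]; exact min_le_left _ _
  obtain ⟨δ, hδ⟩ : ∃ δ, δ = c1 / 2 := ⟨_, rfl⟩
  obtain ⟨c, hc⟩ : ∃ c, c = c1 / 4 := ⟨_, rfl⟩
  obtain ⟨θ, hθ⟩ : ∃ θ, θ = min c3 δ / 2 := ⟨_, rfl⟩
  have hδ0 : 0 < δ := by rw [hδ]; linarith
  have hc0' : 0 < c := by rw [hc]; linarith
  have hθ0 : 0 < θ := by
    rw [hθ]
    have : 0 < min c3 δ := lt_min hc3 hδ0
    linarith
  have hθa : θ < c3 := by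
    have h1 : min c3 δ ≤ c3 := min_le_left _ _
    linarith
  have hθb : θ < δ := by
    have h1 : min c3 δ ≤ δ := min_le_right _ _
    linarith
  have hθ1 : θ ≤ 1 := by rw [hδ] at hθb; linarith
  obtain ⟨K, hK, hHP⟩ := HPw_eps (ε := θ / 2) (by linarith) (by linarith)
  have hlogs : ∀ᶠ n : ℕ in Filter.atTop, Real.log n ≤ 1 * (n : ℝ) ^ θ := by
    have h1 := (isLittleO_log_rpow_atTop hθ0).bound (show (0 : ℝ) < 1 by norm_num)
    have h2 := tendsto_natCast_atTop_atTop.eventually h1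
    filter_upwards [h2, Filter.eventually_ge_atTop 1] with n hn hn1
    have hn1' : (1 : ℝ) ≤ n := by exact_mod_cast hn1
    rw [Real.norm_of_nonneg (Real.log_nonneg hn1'), Real.norm_of_nonneg (Real.rpow_nonneg (by linarith) _)] at hn
    exact hn
  have key : ∀ᶠ n : ℕ in Filter.atTop,
      (Real.log (C * Real.exp 1 * K ^ 2 * K * 2) * (n : ℝ) ^ (0 : ℝ) ≤ 1 * (n : ℝ) ^ θ) ∧
      (3 * Real.log 3 * (n : ℝ) ^ (0 : ℝ) ≤ 1 * (n : ℝ) ^ θ) ∧
      (Real.log n ≤ 1 * (n : ℝ) ^ θ) ∧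
      (10 * (n : ℝ) ^ θ ≤ 1 * (n : ℝ) ^ c3) ∧
      (10 * (n : ℝ) ^ θ ≤ 1 / 2 * (n : ℝ) ^ δ) ∧
      (12 * (n : ℝ) ^ (1 - c1 / 2) ≤ 1 * (n : ℝ) ^ (1 - c)) ∧
      (6 * (n : ℝ) ^ (0 : ℝ) ≤ 1 * (n : ℝ) ^ (1 - c)) ∧ 10 ≤ n ∧ N0 ≤ n := by
    filter_upwards [finA2_pow (p := 0) (q := θ) (ε := 1) hθ0 (by norm_num) (Real.log (C * Real.exp 1 * K ^ 2 * K * 2)),
      finA2_pow (p := 0) (q := θ) (ε := 1) hθ0 (by norm_num) (3 * Real.log 3), hlogs,
      finA2_pow (p := θ) (q := c3) (ε := 1) hθa (by norm_num) 10,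
      finA2_pow (p := θ) (q := δ) (ε := 1 / 2) hθb (by norm_num) 10,
      finA2_pow (p := 1 - c1 / 2) (q := 1 - c) (ε := 1) (by rw [hc]; linarith) (by norm_num) 12,
      finA2_pow (p := 0) (q := 1 - c) (ε := 1) (by rw [hc]; linarith) (by norm_num) 6,
      Filter.eventually_ge_atTop 10, Filter.eventually_ge_atTop N0] with n h1 h2 h3 h4 h5 h6 h7 h8 h9
    exact ⟨h1, h2, h3, h4, h5, h6, h7, h8, h9⟩
  obtain ⟨n0, hn0⟩ := Filter.eventually_atTop.1 key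
  refine ⟨c, θ, Real.exp ((n0 : ℝ) ^ θ), hc0', by rw [hc]; linarith, hθ0, Real.exp_pos _, ?_⟩
  intro f hf n hn
  have hcard : (((SawNu.saw f n).filter
        (fun s => ∃ j : Fin (n + 1), (n : ℝ) ^ (1 - c) ≤ ‖SawNu.pos f s j‖)).card : ℝ) ≤
        ((SawNu.saw f n).card : ℝ) := by
    exact_mod_cast Finset.card_filter_le _ _
  have hcard0 : (0 : ℝ) ≤ ((SawNu.saw f n).card : ℝ) := Nat.cast_nonneg _
  rcases Nat.lt_or_ge n n0 with hlt | hge
  · refine hcard.trans ?_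
    have h1 : 1 ≤ Real.exp ((n0 : ℝ) ^ θ) * Real.exp (-((n : ℝ) ^ θ)) := by
      rw [← Real.exp_add, Real.one_le_exp_iff]
      have h2 : (n : ℝ) ^ θ ≤ (n0 : ℝ) ^ θ :=
        Real.rpow_le_rpow (Nat.cast_nonneg _) (by exact_mod_cast hlt.le) hθ0.le
      linarith
    exact le_mul_of_one_le_left hcard0 h1
  obtain ⟨h1, h2, h3, h4, h5, h6, h7, h8, h9⟩ := hn0 n hge
  have hn10 : (10 : ℝ) ≤ n := by exact_mod_cast h8
  have hn1 : (1 : ℝ) ≤ n := by linarith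
  have hnpos : (0 : ℝ) < n := by linarith
  rw [Real.rpow_zero, mul_one] at h1 h2 h7
  rw [one_mul] at h1 h2 h3 h4 h6 h7
  obtain ⟨Z, hZ⟩ : ∃ Z, Z = (n : ℝ) ^ (1 - c) := ⟨_, rfl⟩
  obtain ⟨R, hR⟩ : ∃ R, R = ⌊Z / 3⌋₊ := ⟨_, rfl⟩
  obtain ⟨N, hN⟩ : ∃ N, N = ⌈(n : ℝ) ^ (1 + δ)⌉₊ := ⟨_, rfl⟩
  rw [← hZ] at h6 h7
  have hZ0 : 0 ≤ Z := by linarith
  have hRle : 3 * (R : ℝ) ≤ Z := by
    have := Nat.floor_le (by positivity : 0 ≤ Z / 3)
    rw [← hR] at this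
    linarith
  have hRge : Z / 6 ≤ R := by
    have := Nat.lt_floor_add_one (Z / 3)
    rw [← hR] at this
    linarith
  have hR1 : 1 ≤ R := by
    have : (1 : ℝ) ≤ R := by linarith
    exact_mod_cast this
  have hN1 : (n : ℝ) ^ (1 + δ) ≤ N := by rw [hN]; exact Nat.le_ceil _
  have hnN : (n : ℝ) ≤ (n : ℝ) ^ (1 + δ) := by
    have := Real.rpow_le_rpow_of_exponent_le hn1 (show (1 : ℝ) ≤ 1 + δ by linarith)
    rwa [Real.rpow_one] at this
  have hN2 : (N : ℝ) ≤ 2 * (n : ℝ) ^ (1 + δ) := by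
    have := Nat.ceil_lt_add_one (show 0 ≤ (n : ℝ) ^ (1 + δ) by linarith)
    rw [← hN] at this
    linarith
  have hNn : n ≤ N := by
    have : (n : ℝ) ≤ N := hnN.trans hN1
    exact_mod_cast this
  have hNR : (N : ℝ) ^ (1 - c0) ≤ R := by
    have hN1' : (1 : ℝ) ≤ N := by
      have : (n : ℝ) ≤ N := by exact_mod_cast hNn
      linarith
    calc (N : ℝ) ^ (1 - c0) ≤ (N : ℝ) ^ (1 - c1) := Real.rpow_le_rpow_of_exponent_le hN1' (by linarith)
      _ ≤ (2 * (n : ℝ) ^ (1 + δ)) ^ (1 - c1) := Real.rpow_le_rpow (by linarith) hN2 (by linarith)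
      _ = 2 ^ (1 - c1) * (n : ℝ) ^ ((1 + δ) * (1 - c1)) := by
        rw [Real.mul_rpow (by norm_num) (by positivity), ← Real.rpow_mul hnpos.le]
      _ ≤ 2 * (n : ℝ) ^ (1 - c1 / 2) := by
        apply mul_le_mul _ _ (by positivity) (by norm_num)
        · calc (2 : ℝ) ^ (1 - c1) ≤ 2 ^ (1 : ℝ) := Real.rpow_le_rpow_of_exponent_le (by norm_num) (by linarith)
            _ = 2 := Real.rpow_one 2
        · apply Real.rpow_le_rpow_of_exponent_le hn1
          rw [hδ]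
          nlinarith
      _ ≤ Z / 6 := by linarith
      _ ≤ R := hRge
  -- the bridges
  obtain ⟨E, hE⟩ : ∃ E, E = Real.exp (-(N : ℝ) ^ c3) + Real.exp (-((N : ℝ) / (2 * n))) := ⟨_, rfl⟩
  have hE0 : 0 ≤ E := by rw [hE]; positivity
  obtain ⟨B, hB⟩ : ∃ B, B = E * ((1 + 2 * n) * Real.exp (-((R : ℝ) / (2 * n)))) := ⟨_, rfl⟩
  have hB0 : 0 ≤ B := by rw [hB]; positivity
  have hBsum : ∑' j : ℕ, AX (xl (1 / n)) (R + j) ≤ ENNReal.ofReal B := by
    calc ∑' j : ℕ, AX (xl (1 / n)) (R + j)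
        ≤ ∑' j : ℕ, ENNReal.ofReal (E * Real.exp (-(((R : ℝ) + j) / (2 * n)))) := by
          apply ENNReal.tsum_le_tsum
          intro j
          have g1 : (N : ℝ) ^ (1 - c0) ≤ ((R + j : ℕ) : ℝ) := by
            push_cast
            have : (0 : ℝ) ≤ j := Nat.cast_nonneg j
            linarith
          have g2 := hsmall N (h9.trans hNn) (R + j) g1
          have g3 := AX_small hn (by omega : 1 ≤ R + j) (Real.exp_pos _).le g2
          rw [← hE] at g3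
          push_cast at g3
          exact g3
      _ ≤ ENNReal.ofReal B := by
          rw [hB]
          exact finA2_geom (by linarith) E R hE0
  obtain ⟨M, hM⟩ : ∃ M, M = K * ((1 + 2 * n) * Real.exp ((2 * (n : ℝ)) ^ (2 * (θ / 2)))) := ⟨_, rfl⟩
  have hM1 : 1 ≤ M := by
    rw [hM]
    have g1 : 1 ≤ Real.exp ((2 * (n : ℝ)) ^ (2 * (θ / 2))) := Real.one_le_exp (by positivity)
    have g2 : (1 : ℝ) ≤ 1 + 2 * n := by linarith
    have g3 := mul_le_mul g2 g1 (by norm_num) (by linarith)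
    have g4 := mul_le_mul hK g3 (by norm_num) (by linarith)
    linarith
  have hHP' := hHP n hn
  rw [← hM] at hHP'
  have hlam : (1 : ℝ) / n ≤ 1 / 10 := one_div_le_one_div_of_le (by norm_num) hn10
  have hmain := hT f hf (1 / n) M B n R (by positivity) hlam hM1 hB0 hn hR1 hHP' hBsum
  have hsubset : (((SawNu.saw f n).filter
      (fun s => ∃ j : Fin (n + 1), (n : ℝ) ^ (1 - c) ≤ ‖SawNu.pos f s j‖)).card : ℝ) ≤
      (((SawNu.saw f n).filter (fun s => ∃ j : Fin (n + 1), 3 * (R : ℝ) ≤ ‖SawNu.pos f s j‖)).card : ℝ) := by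
    have : ((SawNu.saw f n).filter (fun s => ∃ j : Fin (n + 1), (n : ℝ) ^ (1 - c) ≤ ‖SawNu.pos f s j‖)).card ≤
        ((SawNu.saw f n).filter (fun s => ∃ j : Fin (n + 1), 3 * (R : ℝ) ≤ ‖SawNu.pos f s j‖)).card := by
      apply Finset.card_le_card
      intro t ht
      rw [Finset.mem_filter] at ht ⊢
      obtain ⟨ht1, j, hj⟩ := ht
      rw [← hZ] at hj
      exact ⟨ht1, j, hRle.trans hj⟩
    exact_mod_cast this
  refine hsubset.trans (hmain.trans ?_)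
  apply mul_le_mul_of_nonneg_right _ hcard0
  -- the numbers
  have e1 : (1 : ℝ) / n * n = 1 := by field_simp
  have e2 : 2 * (θ / 2) = θ := by ring
  have g1 : (2 * (n : ℝ)) ^ θ ≤ 2 * (n : ℝ) ^ θ := by
    rw [Real.mul_rpow (by norm_num) hnpos.le]
    apply mul_le_mul_of_nonneg_right _ (by positivity)
    calc (2 : ℝ) ^ θ ≤ 2 ^ (1 : ℝ) := Real.rpow_le_rpow_of_exponent_le (by norm_num) hθ1
      _ = 2 := Real.rpow_one 2
  have g2 : (1 + 2 * (n : ℝ)) ≤ Real.exp (Real.log 3 + (n : ℝ) ^ θ) := by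
    have g3 : (1 + 2 * (n : ℝ)) ≤ 3 * n := by linarith
    refine g3.trans ?_
    rw [Real.exp_add, Real.exp_log (by norm_num)]
    apply mul_le_mul_of_nonneg_left _ (by norm_num)
    rw [← Real.log_le_iff_le_exp hnpos]
    exact h3
  have g3 : M ≤ K * Real.exp (Real.log 3 + (n : ℝ) ^ θ + 2 * (n : ℝ) ^ θ) := by
    rw [hM, e2, Real.exp_add (Real.log 3 + (n : ℝ) ^ θ)]
    apply mul_le_mul_of_nonneg_left _ (by linarith)
    apply mul_le_mul g2 (Real.exp_le_exp.2 g1) (Real.exp_pos _).le (Real.exp_pos _).le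
  have g4 : E ≤ 2 * Real.exp (-(10 * (n : ℝ) ^ θ)) := by
    rw [hE]
    have a1 : Real.exp (-(N : ℝ) ^ c3) ≤ Real.exp (-(10 * (n : ℝ) ^ θ)) := by
      apply Real.exp_le_exp.2
      have : (n : ℝ) ^ c3 ≤ (N : ℝ) ^ c3 := Real.rpow_le_rpow hnpos.le (hnN.trans hN1) hc3.le
      linarith
    have a2 : Real.exp (-((N : ℝ) / (2 * n))) ≤ Real.exp (-(10 * (n : ℝ) ^ θ)) := by
      apply Real.exp_le_exp.2
      have a3 : 1 / 2 * (n : ℝ) ^ δ ≤ (N : ℝ) / (2 * n) := by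
        rw [le_div_iff₀ (by positivity)]
        have a4 : (n : ℝ) ^ (1 + δ) = n * (n : ℝ) ^ δ := by
          rw [Real.rpow_add hnpos, Real.rpow_one]
        calc 1 / 2 * (n : ℝ) ^ δ * (2 * n) = n * (n : ℝ) ^ δ := by ring
          _ ≤ N := by rw [← a4]; exact hN1
      linarith
    linarith
  have g5 : B ≤ 2 * Real.exp (-(10 * (n : ℝ) ^ θ)) * Real.exp (Real.log 3 + (n : ℝ) ^ θ) := by
    rw [hB]
    apply mul_le_mul g4 _ (by positivity) (by positivity)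
    have a1 : Real.exp (-((R : ℝ) / (2 * n))) ≤ 1 := by
      apply Real.exp_le_one_iff.2
      have : 0 ≤ (R : ℝ) / (2 * n) := by positivity
      linarith
    calc (1 + 2 * (n : ℝ)) * Real.exp (-((R : ℝ) / (2 * n))) ≤ (1 + 2 * n) * 1 :=
          mul_le_mul_of_nonneg_left a1 (by linarith)
      _ = 1 + 2 * n := mul_one _
      _ ≤ _ := g2
  have hM0 : 0 ≤ M := by linarith
  calc C * (Real.exp (1 / n * n) * M ^ 2 * B)
      ≤ C * (Real.exp 1 * (K * Real.exp (Real.log 3 + (n : ℝ) ^ θ + 2 * (n : ℝ) ^ θ)) ^ 2 *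
          (2 * Real.exp (-(10 * (n : ℝ) ^ θ)) * Real.exp (Real.log 3 + (n : ℝ) ^ θ))) := by
        rw [e1]
        apply mul_le_mul_of_nonneg_left _ hC.le
        apply mul_le_mul _ g5 hB0 (by positivity)
        apply mul_le_mul_of_nonneg_left _ (Real.exp_pos _).le
        exact pow_le_pow_left₀ hM0 g3 2
    _ = (C * Real.exp 1 * K ^ 2 * 2) * Real.exp (3 * Real.log 3 + 7 * (n : ℝ) ^ θ - 10 * (n : ℝ) ^ θ) := by
        have a1 : 3 * Real.log 3 + 7 * (n : ℝ) ^ θ - 10 * (n : ℝ) ^ θ =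
            (Real.log 3 + (n : ℝ) ^ θ + 2 * (n : ℝ) ^ θ) + (Real.log 3 + (n : ℝ) ^ θ + 2 * (n : ℝ) ^ θ) +
              (-(10 * (n : ℝ) ^ θ)) + (Real.log 3 + (n : ℝ) ^ θ) := by ring
        rw [a1, Real.exp_add _ (Real.log 3 + (n : ℝ) ^ θ), Real.exp_add _ (-(10 * (n : ℝ) ^ θ)),
          Real.exp_add (Real.log 3 + (n : ℝ) ^ θ + 2 * (n : ℝ) ^ θ)]
        ring
    _ ≤ Real.exp (Real.log (C * Real.exp 1 * K ^ 2 * K * 2)) *
          Real.exp (3 * Real.log 3 + 7 * (n : ℝ) ^ θ - 10 * (n : ℝ) ^ θ) := by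
        apply mul_le_mul_of_nonneg_right _ (Real.exp_pos _).le
        rw [Real.exp_log (by positivity)]
        have a1 : 0 ≤ C * Real.exp 1 * K ^ 2 * 2 := by positivity
        nlinarith
    _ = Real.exp (Real.log (C * Real.exp 1 * K ^ 2 * K * 2) +
          (3 * Real.log 3 + 7 * (n : ℝ) ^ θ - 10 * (n : ℝ) ^ θ)) := by rw [Real.exp_add]
    _ ≤ Real.exp (-((n : ℝ) ^ θ)) := by
        apply Real.exp_le_exp.2
        linarith
    _ ≤ Real.exp ((n0 : ℝ) ^ θ) * Real.exp (-((n : ℝ) ^ θ)) := by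
        apply le_mul_of_one_le_left (Real.exp_pos _).le
        rw [Real.one_le_exp_iff]
        exact Real.rpow_nonneg (Nat.cast_nonneg _) _

end HexObs
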