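import Pool.Agent.TStar.DefsC

set_option autoImplicit false

namespace HexObs

open Complex Finset ENNReal TStar

lemma one_le_Fch (κ : ℝ≥0∞) : ∀ (n : ℕ) (g : List Bool), 1 ≤ Fch κ n g
  | 0, _ => by rw [Fch]
  | n + 1, g => by
    rw [Fch]
    exact le_trans (one_le_Fch κ n g) le_self_add

/-- C1 (CA): truncation against a small factor -/
theorem FK_le {κ : ℝ} (h0 : 0 < κ) (h1 : κ ≤ 1) (K n : ℕ) (g : List Bool) :
    FK K n g ≤ ENNReal.ofReal (64 / κ) ^ K * Fch (ENNReal.ofReal κ) n g := by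
  have hc1 : (1 : ℝ≥0∞) ≤ ENNReal.ofReal (64 / κ) := by
    rw [← ENNReal.ofReal_one]
    apply ENNReal.ofReal_le_ofReal
    rw [le_div_iff₀ h0]
    linarith
  have hc2 : ENNReal.ofReal (64 / κ) * ENNReal.ofReal κ = 64 := by
    rw [← ENNReal.ofReal_mul (by positivity), div_mul_cancel₀ _ h0.ne']
    norm_num
  generalize ENNReal.ofReal (64 / κ) = c at hc1 hc2 ⊢
  induction n generalizing K g with
  | zero =>
    cases K with
    | zero => rw [FK, Fch]; simp
    | succ K =>
      rw [FK, Fch, mul_one]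
      exact one_le_pow₀ hc1
  | succ n ih =>
    cases K with
    | zero =>
      rw [FK, pow_zero, one_mul]
      exact one_le_Fch _ _ _
    | succ K =>
      rw [FK, Fch, mul_add]
      apply add_le_add (ih (K + 1) g)
      have h2 : ∑' g' : {g' : List Bool // g' ∈ Brd (n + 1) ∧ Nb g g'}, wE g'.1 * FK K n g'.1 ≤
          c ^ K * ∑' g' : {g' : List Bool // g' ∈ Brd (n + 1) ∧ Nb g g'},
            wE g'.1 * Fch (ENNReal.ofReal κ) n g'.1 := by
        rw [← ENNReal.tsum_mul_left]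
        apply ENNReal.tsum_le_tsum
        intro g'
        calc wE g'.1 * FK K n g'.1 ≤ wE g'.1 * (c ^ K * Fch (ENNReal.ofReal κ) n g'.1) :=
              mul_le_mul_right (ih K g'.1) _
          _ = c ^ K * (wE g'.1 * Fch (ENNReal.ofReal κ) n g'.1) := by ring
      calc 64 * ∑' g' : {g' : List Bool // g' ∈ Brd (n + 1) ∧ Nb g g'}, wE g'.1 * FK K n g'.1
          ≤ 64 * (c ^ K * ∑' g' : {g' : List Bool // g' ∈ Brd (n + 1) ∧ Nb g g'},
            wE g'.1 * Fch (ENNReal.ofReal κ) n g'.1) := mul_le_mul_right h2 _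
        _ = c ^ (K + 1) * (ENNReal.ofReal κ * ∑' g' : {g' : List Bool // g' ∈ Brd (n + 1) ∧ Nb g g'},
            wE g'.1 * Fch (ENNReal.ofReal κ) n g'.1) := by
          rw [← hc2]
          ring

end HexObs
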