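import Pool.Agent.TStar.WordC

set_option autoImplicit false

namespace HexObs

open Complex Finset ENNReal TStar

/-- words with r marked cut points, all slices between marked points are in M -/
def cntP (M : Set (List Bool)) (r : ℕ) : Set (List Bool × Finset ℕ) :=
  {p | p.1 ≠ [] ∧ p.2.card = r ∧ (∀ i ∈ p.2, 0 < i ∧ i < p.1.length) ∧
    ∀ i e, (i = 0 ∨ i ∈ p.2) → (e = p.1.length ∨ e ∈ p.2) → i < e → (p.1.drop i).take (e - i) ∈ M}

lemma cnt_step {M : Set (List Bool)} {r : ℕ} {p : List Bool × Finset ℕ} (hp : p ∈ cntP M (r + 1)) :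
    ∃ m, m ∈ p.2 ∧ (∀ i ∈ p.2, i ≤ m) ∧ (p.1.take m, p.2.erase m) ∈ cntP M r ∧ p.1.drop m ∈ M ∧
      (p.1.take m).length = m := by
  obtain ⟨h1, h2, h3, h4⟩ := hp
  have hne : p.2.Nonempty := by
    rw [← Finset.card_pos]
    omega
  set m := p.2.max' hne with hm
  have hmm : m ∈ p.2 := Finset.max'_mem _ _
  have hmax : ∀ i ∈ p.2, i ≤ m := fun i hi => Finset.le_max' _ _ hi
  have hm3 := h3 m hmm
  have hlen : (p.1.take m).length = m := by
    rw [List.length_take]
    omega
  refine ⟨m, hmm, hmax, ⟨?_, ?_, ?_, ?_⟩, ?_, hlen⟩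
  · intro h0
    have h0' : p.1.take m = [] := h0
    rw [h0', List.length_nil] at hlen
    omega
  · show (p.2.erase m).card = r
    rw [Finset.card_erase_of_mem hmm]
    omega
  · intro i hi
    have hi' : i ∈ p.2.erase m := hi
    rw [Finset.mem_erase] at hi'
    have h5 := hmax i hi'.2
    have h6 := h3 i hi'.2
    show 0 < i ∧ i < (p.1.take m).length
    rw [hlen]
    omega
  · intro i e hi he hie
    have hi' : i = 0 ∨ i ∈ p.2.erase m := hi
    have he' : e = (p.1.take m).length ∨ e ∈ p.2.erase m := he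
    rw [hlen] at he'
    have hem : e ∈ p.2 := by
      rcases he' with h | h
      · rw [h]
        exact hmm
      · exact Finset.mem_of_mem_erase h
    have h5 := h4 i e (hi'.imp id Finset.mem_of_mem_erase) (Or.inr hem) hie
    have hle : e ≤ m := hmax e hem
    show ((p.1.take m).drop i).take (e - i) ∈ M
    rw [List.drop_take, List.take_take, min_eq_left (by omega)]
    exact h5
  · have h5 := h4 m p.1.length (Or.inr hmm) (Or.inl rfl) hm3.2
    rwa [List.take_of_length_le (by rw [List.length_drop])] at h5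

lemma cnt_sum (M : Set (List Bool)) (r : ℕ) : ∑' p : cntP M r, wE p.1.1 ≤ gf M ^ (r + 1) := by
  induction r with
  | zero =>
    rw [zero_add, pow_one]
    have h0 : ∀ p : cntP M 0, p.1.1 ∈ M := by
      rintro ⟨⟨t, A⟩, h1, _, _, h4⟩
      have h5 := h4 0 t.length (Or.inl rfl) (Or.inl rfl) (List.length_pos_iff.2 h1)
      simpa using h5
    let ψ : cntP M 0 → M := fun p => ⟨p.1.1, h0 p⟩
    have hψ : Function.Injective ψ := by
      rintro ⟨⟨t, A⟩, h1, h2, _, _⟩ ⟨⟨t', A'⟩, h1', h2', _, _⟩ h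
      have e1 : t = t' := congrArg Subtype.val h
      have e2 : A = ∅ := Finset.card_eq_zero.1 h2
      have e3 : A' = ∅ := Finset.card_eq_zero.1 h2'
      subst e1 e2 e3
      rfl
    exact ENNReal.tsum_comp_le_tsum_of_injective hψ (fun t : M => wE t)
  | succ r ih =>
    have hex : ∀ p : cntP M (r + 1), ∃ m, m ∈ p.1.2 ∧ (∀ i ∈ p.1.2, i ≤ m) ∧
        (p.1.1.take m, p.1.2.erase m) ∈ cntP M r ∧ p.1.1.drop m ∈ M ∧ (p.1.1.take m).length = m :=
      fun p => cnt_step p.2
    choose m hm1 hm2 hm3 hm4 hm5 using hex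
    let ψ : cntP M (r + 1) → cntP M r × M := fun p => (⟨(p.1.1.take (m p), p.1.2.erase (m p)), hm3 p⟩,
      ⟨p.1.1.drop (m p), hm4 p⟩)
    have hψ : Function.Injective ψ := by
      intro p q hpq
      have e1 : p.1.1.take (m p) = q.1.1.take (m q) := congrArg (fun x => x.1.1.1) hpq
      have e2 : p.1.2.erase (m p) = q.1.2.erase (m q) := congrArg (fun x => x.1.1.2) hpq
      have e3 : p.1.1.drop (m p) = q.1.1.drop (m q) := congrArg (fun x => (x.2 : List Bool)) hpq
      have e4 : m p = m q := by rw [← hm5 p, ← hm5 q, e1]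
      apply Subtype.ext
      apply Prod.ext
      · rw [← List.take_append_drop (m p) p.1.1, ← List.take_append_drop (m q) q.1.1, e1, e3]
      · rw [← Finset.insert_erase (hm1 p), ← Finset.insert_erase (hm1 q), e2, e4]
    calc ∑' p : cntP M (r + 1), wE p.1.1
        = ∑' p : cntP M (r + 1), wE (ψ p).1.1.1 * wE (ψ p).2 := by
          apply tsum_congr
          intro p
          rw [← wE_append]
          show wE p.1.1 = wE (p.1.1.take (m p) ++ p.1.1.drop (m p))
          rw [List.take_append_drop]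
      _ ≤ ∑' x : cntP M r × M, wE x.1.1.1 * wE x.2 :=
          ENNReal.tsum_comp_le_tsum_of_injective hψ (fun x : cntP M r × M => wE x.1.1.1 * wE x.2)
      _ = (∑' p : cntP M r, wE p.1.1) * gf M := by
          rw [ENNReal.tsum_prod', ← ENNReal.tsum_mul_right]
          apply tsum_congr
          intro p
          show ∑' b : M, wE p.1.1 * wE b = wE p.1.1 * gf M
          rw [ENNReal.tsum_mul_left]
          rfl
      _ ≤ gf M ^ (r + 1) * gf M := mul_le_mul' ih le_rfl
      _ = gf M ^ (r + 1 + 1) := (pow_succ (gf M) (r + 1)).symm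

lemma cnt_main {M S : Set (List Bool)} {g r : ℕ} (I : List Bool → Finset ℕ)
    (h : ∀ t ∈ S, t ≠ [] ∧ g ≤ (I t).card ∧ (∀ i ∈ I t, 0 < i ∧ i < t.length) ∧
      ∀ i e, (i = 0 ∨ i ∈ I t) → (e = t.length ∨ e ∈ I t) → i < e → (t.drop i).take (e - i) ∈ M) :
    (g.choose r : ℝ≥0∞) * gf S ≤ gf M ^ (r + 1) := by
  refine le_trans ?_ (cnt_sum M r)
  have h1 : (g.choose r : ℝ≥0∞) * gf S ≤
      ∑' t : S, ∑' _A : (Finset.powersetCard r (I t.1) : Finset (Finset ℕ)), wE t.1 := by
    unfold gf
    rw [← ENNReal.tsum_mul_left]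
    apply ENNReal.tsum_le_tsum
    intro t
    rw [tsum_fintype, Finset.sum_const, nsmul_eq_mul, Finset.card_univ, Fintype.card_coe,
      Finset.card_powersetCard]
    apply mul_le_mul' _ le_rfl
    have := Nat.choose_le_choose r (h t.1 t.2).2.1
    exact_mod_cast this
  refine h1.trans ?_
  rw [← ENNReal.tsum_sigma (f := fun (t : S) (_ : (Finset.powersetCard r (I t.1) : Finset (Finset ℕ))) => wE t.1)]
  have hmem : ∀ x : (Σ t : S, (Finset.powersetCard r (I t.1) : Finset (Finset ℕ))), (x.1.1, x.2.1) ∈ cntP M r := by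
    rintro ⟨⟨t, ht⟩, ⟨A, hA⟩⟩
    have hA' : A ∈ Finset.powersetCard r (I t) := hA
    rw [Finset.mem_powersetCard] at hA'
    obtain ⟨h2, h3, h4, h5⟩ := h t ht
    refine ⟨h2, hA'.2, fun i hi => h4 i (hA'.1 hi), fun i e hi he hie => ?_⟩
    exact h5 i e (hi.imp id (fun h => hA'.1 h)) (he.imp id (fun h => hA'.1 h)) hie
  let ψ : (Σ t : S, (Finset.powersetCard r (I t.1) : Finset (Finset ℕ))) → cntP M r :=
    fun x => ⟨(x.1.1, x.2.1), hmem x⟩
  have hψ : Function.Injective ψ := by
    rintro ⟨⟨t, ht⟩, ⟨A, hA⟩⟩ ⟨⟨t', ht'⟩, ⟨A', hA'⟩⟩ hx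
    have e1 : t = t' := congrArg (fun x => x.1.1) hx
    have e2 : A = A' := congrArg (fun x => x.1.2) hx
    subst e1 e2
    rfl
  exact ENNReal.tsum_comp_le_tsum_of_injective hψ (fun p : cntP M r => wE p.1.1)

/-- many good levels -/
lemma cnt_good {H n L g : ℕ} {t : List Bool} (hg : n < (L + 1) * (H - g)) (hgH : g ≤ H - 1) (ht : t.length ≤ n) :
    g ≤ ((Finset.Ico 1 H).filter (fun h => (crW t h).card ≤ L)).card := by
  by_contra hlt
  push Not at hlt
  have h1 := sum_crW t H
  have h2 : ((Finset.Ico 1 H).filter (fun h => ¬ (crW t h).card ≤ L)).card * (L + 1) ≤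
      ∑ h ∈ (Finset.Ico 1 H).filter (fun h => ¬ (crW t h).card ≤ L), (crW t h).card := by
    rw [← smul_eq_mul]
    apply Finset.card_nsmul_le_sum
    intro h hh
    rw [Finset.mem_filter] at hh
    omega
  have h3 : ∑ h ∈ (Finset.Ico 1 H).filter (fun h => ¬ (crW t h).card ≤ L), (crW t h).card ≤
      ∑ h ∈ Finset.range H, (crW t h).card := by
    apply Finset.sum_le_sum_of_subset
    intro h hh
    rw [Finset.mem_filter, Finset.mem_Ico] at hh
    rw [Finset.mem_range]
    exact hh.1.2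
  have h4 := Finset.card_filter_add_card_filter_not (s := Finset.Ico 1 H) (fun h => (crW t h).card ≤ L)
  rw [Nat.card_Ico] at h4
  have h5 : H - g ≤ ((Finset.Ico 1 H).filter (fun h => ¬ (crW t h).card ≤ L)).card := by omega
  have h6 : (H - g) * (L + 1) ≤ ((Finset.Ico 1 H).filter (fun h => ¬ (crW t h).card ≤ L)).card * (L + 1) :=
    Nat.mul_le_mul_right _ h5
  rw [mul_comm (L + 1)] at hg
  omega

/-- S7 (Count): main counting inequality. If more than H-1-g levels had more than L crossings, the word would be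
longer than n; every r-subset of the good levels cuts the word into r+1 pieces, and the pieces determine the
word and the levels. -/
theorem count {H n L K r g : ℕ} (hH : 1 ≤ H) (hg : n < (L + 1) * (H - g)) (hgH : g ≤ H - 1)
    (hK : 2 * Nat.log 3 L + 3 ≤ K) :
    (g.choose r : ℝ≥0∞) * gf {t | t ∈ Brd H ∧ t.length ≤ n} ≤ gf (MidW K H) ^ (r + 1) := by
  classical
  have key : ∀ t ∈ {t | t ∈ Brd H ∧ t.length ≤ n}, ∃ I : Finset ℕ, g ≤ I.card ∧
      ∀ i ∈ I, (0 < i ∧ i < t.length) ∧ i ∈ CP (K - 2) t := by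
    rintro t ⟨ht, htn⟩
    set G := (Finset.Ico 1 H).filter (fun h => (crW t h).card ≤ L) with hG
    have hex : ∀ h ∈ G, ∃ i, i ∈ crW t h ∧ i ∈ CP (K - 2) t := by
      intro h hh
      rw [hG, Finset.mem_filter, Finset.mem_Ico] at hh
      exact exists_CP ht hh.1.1 hh.1.2 hh.2 (by omega)
    choose! c hc1 hc2 using hex
    refine ⟨G.image c, ?_, ?_⟩
    · rw [Finset.card_image_of_injOn]
      · exact cnt_good hg hgH htn
      · intro h hh h' hh' heq
        have h1 := hc1 h hh
        have h2 := hc1 h' hh'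
        have h3 : c h = c h' := heq
        rw [← h3] at h2
        exact crW_level h1 h2
    · intro i hi
      rw [Finset.mem_image] at hi
      obtain ⟨h, hh, rfl⟩ := hi
      have h1 := crW_vert (hc1 h hh)
      exact ⟨⟨by omega, h1.2.1⟩, hc2 h hh⟩
  choose! I hI1 hI2 using key
  apply cnt_main I
  rintro t ⟨ht, htn⟩
  have hI1' := hI1 t ⟨ht, htn⟩
  have hI2' := hI2 t ⟨ht, htn⟩
  refine ⟨?_, hI1', fun i hi => (hI2' i hi).1, ?_⟩
  · have := (brd_profile hH ht).1
    intro h0
    rw [h0, List.length_nil] at this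
    omega
  · intro i e hi he hie
    have hi' : i ∈ CP (K - 2) t := by
      rcases hi with rfl | hi
      · exact CP_zero _ ht
      · exact (hI2' i hi).2
    have he' : e ∈ CP (K - 2) t := by
      rcases he with rfl | he
      · exact CP_length _ ht
      · exact (hI2' e he).2
    have h1 := piece_CP ht hi' he' hie
    rwa [show K - 2 + 2 = K by omega] at h1

end HexObs
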