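import Pool.Agent.TStar.Seq
import Pool.Agent.PHW.Defs

/-!
T*: words with few turns.
-/

set_option autoImplicit false

namespace HexObs

open Complex Finset ENNReal TStar

/-- the word is self-avoiding and ends in a vertical edge (middle edges: it starts in a vertical edge) -/
def SawV (t : List Bool) : Prop :=
  (∀ i k, i < k → k ≤ t.length → vx oo up t i ≠ vx oo up t k) ∧
    (dx up t t.length = up ∨ dx up t t.length = -up)

/-- self-avoiding words between vertical edges, of vertical extent at most D rows, with a longest strand and at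
most K turns on both sides of it -/
def MidW (K D : ℕ) : Set (List Bool) :=
  {t | t ≠ [] ∧ SawV t ∧ (∀ j k, 1 ≤ j → j ≤ t.length → 1 ≤ k → k ≤ t.length → lev t j - lev t k ≤ 3 * D) ∧
    Mid K (lev t) 1 t.length}

/-- the crossings of the level h (between the rows h and h+1) -/
def crW (t : List Bool) (h : ℕ) : Finset ℕ := crs (lev t) 1 t.length (3 * h) (3 * h + 2)

/-- INPUT (CB), to be proved from the PHW recursion: total weight of the words with few turns -/
def CB : Prop := ∃ β c : ℝ, β < 1 ∧ 0 < c ∧ ∃ D0 : ℕ, ∀ D : ℕ, D0 ≤ D → ∀ K : ℕ, (K : ℝ) ≤ c * Real.log D →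
  gf (MidW K D) ≤ ENNReal.ofReal ((D : ℝ) ^ β)

end HexObs
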