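import Pool.Agent.TStar.Count

set_option autoImplicit false

namespace HexObs

namespace TSNum

open Filter Real

/-- choose lower bound -/
lemma tsnum_choose (g r : ℕ) (hr : 1 ≤ r) {A : ℝ} (hA : 0 < A) (hgr : A ≤ ((g + 1 - r : ℕ) : ℝ)) :
    (A / r) ^ r ≤ (g.choose r : ℝ) := by
  have h1 := Nat.pow_le_choose (α := ℝ) r g
  have hr0 : (0 : ℝ) < r := by exact_mod_cast hr
  have h2 : (r.factorial : ℝ) ≤ (r : ℝ) ^ r := by exact_mod_cast Nat.factorial_le_pow r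
  have h3 : (0 : ℝ) < (r.factorial : ℝ) := by exact_mod_cast Nat.factorial_pos r
  calc (A / r) ^ r = A ^ r / (r : ℝ) ^ r := by rw [div_pow]
    _ ≤ ((g + 1 - r : ℕ) : ℝ) ^ r / (r : ℝ) ^ r := by gcongr
    _ ≤ ((g + 1 - r : ℕ) : ℝ) ^ r / (r.factorial : ℝ) := by gcongr
    _ ≤ _ := h1

/-- final real inequality -/
lemma tsnum_final {δ x h : ℝ} {r : ℕ} (hδ : 0 < δ) (hx : 1 ≤ x) (hh : x ^ (1 / 2 : ℝ) ≤ h)
    (hr : (r : ℝ) ≤ x ^ (δ / 8)) (hr2 : x ^ (δ / 8) / 2 ≤ r) (h4 : 4 ≤ x ^ (δ / 8))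
    (h8 : 8 / δ ≤ x ^ (δ / 8)) (hl : 1 ≤ δ / 16 * log x) (hr1 : 1 ≤ r) :
    h ^ ((1 - δ) * (r + 1)) * (4 * r / h) ^ r ≤ exp (-(x ^ (δ / 8))) := by
  have hx0 : 0 < x := by linarith
  have hh1 : 1 ≤ h := le_trans (Real.one_le_rpow hx (by norm_num)) hh
  have hh0 : 0 < h := by linarith
  have hr0 : (0 : ℝ) < r := by exact_mod_cast hr1
  have hlx : 0 ≤ log x := log_nonneg hx
  have hlh : log x / 2 ≤ log h := by
    have := Real.log_le_log (Real.rpow_pos_of_pos hx0 _) hh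
    rw [Real.log_rpow hx0] at this
    linarith
  have hlh0 : 0 ≤ log h := by linarith
  -- 4 r <= h^(δ/2)
  have h4r : 4 * (r : ℝ) ≤ h ^ (δ / 2) := by
    calc 4 * (r : ℝ) ≤ x ^ (δ / 8) * x ^ (δ / 8) := by
          apply mul_le_mul h4 hr hr0.le (by positivity)
      _ = x ^ (δ / 4) := by
          rw [← Real.rpow_add hx0]; congr 1; ring
      _ = (x ^ (1 / 2 : ℝ)) ^ (δ / 2) := by
          rw [← Real.rpow_mul hx0.le]; congr 1; ring
      _ ≤ h ^ (δ / 2) := Real.rpow_le_rpow (by positivity) hh (by linarith)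
  have hA : (4 * (r : ℝ) / h) ^ r ≤ h ^ (-(δ / 2 - 1) * (-1) * r + (-1) * 0 - 0 * r) := by
    have e : -(δ / 2 - 1) * (-1) * (r : ℝ) + (-1) * 0 - 0 * r = (δ / 2 - 1) * r := by ring
    rw [e, Real.rpow_mul hh0.le, Real.rpow_natCast, Real.rpow_sub hh0, Real.rpow_one]
    gcongr
  have e : -(δ / 2 - 1) * (-1) * (r : ℝ) + (-1) * 0 - 0 * r = (δ / 2 - 1) * r := by ring
  rw [e] at hA
  calc h ^ ((1 - δ) * (r + 1)) * (4 * r / h) ^ r ≤ h ^ ((1 - δ) * (r + 1)) * h ^ ((δ / 2 - 1) * r) := by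
        gcongr
    _ = h ^ ((1 - δ) - δ / 2 * r) := by
        rw [← Real.rpow_add hh0]; congr 1; ring
    _ ≤ h ^ (-(δ / 4 * r)) := by
        apply Real.rpow_le_rpow_of_exponent_le hh1
        have : 1 ≤ δ / 4 * r := by
          have h1 : 8 / δ / 2 ≤ (r : ℝ) := le_trans (by linarith) hr2
          have h2 : 4 / δ ≤ (r : ℝ) := by
            have : 8 / δ / 2 = 4 / δ := by ring
            linarith
          rw [div_le_iff₀ hδ] at h2
          linarith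
        linarith
    _ = exp (-(δ / 4 * r) * log h) := by
        rw [Real.rpow_def_of_pos hh0]; congr 1; ring
    _ ≤ exp (-(x ^ (δ / 8))) := by
        apply Real.exp_le_exp.mpr
        have h1 : δ / 4 * r * log h ≥ x ^ (δ / 8) := by
          calc δ / 4 * r * log h ≥ δ / 4 * (x ^ (δ / 8) / 2) * (log x / 2) := by
                gcongr
            _ = x ^ (δ / 8) * (δ / 16 * log x) := by ring
            _ ≥ x ^ (δ / 8) * 1 := by gcongr
            _ = x ^ (δ / 8) := mul_one _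
        linarith

/-- thresholds -/
lemma tsnum_ev {δ c : ℝ} (hδ : 0 < δ) (hδ1 : δ ≤ 1) (D : ℝ) : ∃ N0 : ℕ, ∀ n : ℕ, N0 ≤ n →
    1 ≤ (n : ℝ) ∧ D ≤ (n : ℝ) ^ (1 / 2 : ℝ) ∧ 20 / c ≤ log n ∧ 8 * (n : ℝ) ^ (δ / 8) ≤ (n : ℝ) ^ (1 / 2 : ℝ) ∧
    4 ≤ (n : ℝ) ^ (δ / 8) ∧ 8 / δ ≤ (n : ℝ) ^ (δ / 8) ∧ 1 ≤ δ / 16 * log n := by
  have t0 : Tendsto (fun n : ℕ => (n : ℝ)) atTop atTop := tendsto_natCast_atTop_atTop
  have t1 : Tendsto (fun n : ℕ => (n : ℝ) ^ (1 / 2 : ℝ)) atTop atTop := (tendsto_rpow_atTop (by norm_num)).comp t0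
  have t2 : Tendsto (fun n : ℕ => log (n : ℝ)) atTop atTop := Real.tendsto_log_atTop.comp t0
  have t3 : Tendsto (fun n : ℕ => (n : ℝ) ^ (δ / 8)) atTop atTop := (tendsto_rpow_atTop (by positivity)).comp t0
  have t4 : Tendsto (fun n : ℕ => (n : ℝ) ^ (1 / 2 - δ / 8)) atTop atTop :=
    (tendsto_rpow_atTop (by linarith)).comp t0
  have ev : ∀ᶠ n : ℕ in atTop, 1 ≤ (n : ℝ) ∧ D ≤ (n : ℝ) ^ (1 / 2 : ℝ) ∧ 20 / c ≤ log n ∧
      8 ≤ (n : ℝ) ^ (1 / 2 - δ / 8) ∧ 4 ≤ (n : ℝ) ^ (δ / 8) ∧ 8 / δ ≤ (n : ℝ) ^ (δ / 8) ∧ 16 / δ ≤ log n := by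
    filter_upwards [t0.eventually_ge_atTop 1, t1.eventually_ge_atTop D, t2.eventually_ge_atTop (20 / c),
      t4.eventually_ge_atTop 8, t3.eventually_ge_atTop 4, t3.eventually_ge_atTop (8 / δ),
      t2.eventually_ge_atTop (16 / δ)] with n h1 h2 h3 h4 h5 h6 h7
    exact ⟨h1, h2, h3, h4, h5, h6, h7⟩
  obtain ⟨N0, hN⟩ := eventually_atTop.mp ev
  refine ⟨N0, fun n hn => ?_⟩
  obtain ⟨h1, h2, h3, h4, h5, h6, h7⟩ := hN n hn
  have hn0 : (0 : ℝ) < n := by linarith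
  refine ⟨h1, h2, h3, ?_, h5, h6, ?_⟩
  · calc 8 * (n : ℝ) ^ (δ / 8) ≤ (n : ℝ) ^ (1 / 2 - δ / 8) * (n : ℝ) ^ (δ / 8) := by gcongr
      _ = (n : ℝ) ^ (1 / 2 : ℝ) := by rw [← Real.rpow_add hn0]; congr 1; ring
  · rw [div_le_iff₀ hδ] at h7
    linarith

end TSNum

open Complex Finset ENNReal TStar

/-- S8 (Num): long bridges of few steps have tiny weight -/
theorem small_of_CB (hCB : CB) : ∃ c c3 : ℝ, 0 < c ∧ 0 < c3 ∧ ∃ N0 : ℕ, ∀ n : ℕ, N0 ≤ n → ∀ H : ℕ,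
    (n : ℝ) ^ (1 - c) ≤ H → gf {t | t ∈ Brd H ∧ t.length ≤ n} ≤ ENNReal.ofReal (Real.exp (-(n : ℝ) ^ c3)) := by
  obtain ⟨β, c, hβ, hc, D0, hD⟩ := hCB
  obtain ⟨δ, hδdef⟩ : ∃ δ : ℝ, δ = 1 - max β 0 := ⟨_, rfl⟩
  have hδ : 0 < δ := by
    have : max β 0 < 1 := max_lt hβ one_pos
    linarith
  have hδ1 : δ ≤ 1 := by
    have : 0 ≤ max β 0 := le_max_right _ _
    linarith
  have hβδ : β ≤ 1 - δ := by
    have : β ≤ max β 0 := le_max_left _ _
    linarith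
  obtain ⟨a, hadef⟩ : ∃ a : ℝ, a = min (c / 8) (1 / 2) := ⟨_, rfl⟩
  have ha : 0 < a := by
    rw [hadef]; exact lt_min (by positivity) (by norm_num)
  have hac : a ≤ c / 8 := by rw [hadef]; exact min_le_left _ _
  have ha2 : a ≤ 1 / 2 := by rw [hadef]; exact min_le_right _ _
  obtain ⟨N0, hN⟩ := TSNum.tsnum_ev (c := c) hδ hδ1 (D0 : ℝ)
  refine ⟨a, δ / 8, ha, by positivity, N0, fun n hn H hH => ?_⟩
  obtain ⟨hx1, hx2, hx3, hx4, hx5, hx6, hx7⟩ := hN n hn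
  have hx0 : (0 : ℝ) < n := by linarith
  have hlx : 0 ≤ Real.log n := Real.log_nonneg hx1
  -- size of H
  have hHx : (n : ℝ) ^ (1 / 2 : ℝ) ≤ H :=
    le_trans (Real.rpow_le_rpow_of_exponent_le hx1 (by linarith)) hH
  have hH1R : (1 : ℝ) ≤ H := le_trans (Real.one_le_rpow hx1 (by norm_num)) hHx
  have hH0 : (0 : ℝ) < H := by linarith
  have hH1 : 1 ≤ H := by exact_mod_cast hH1R
  have hHD : D0 ≤ H := by
    have : (D0 : ℝ) ≤ H := le_trans hx2 hHx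
    exact_mod_cast this
  have hlH : Real.log n / 2 ≤ Real.log H := by
    have := Real.log_le_log (Real.rpow_pos_of_pos hx0 _) hHx
    rw [Real.log_rpow hx0] at this
    linarith
  -- parameters
  obtain ⟨g, hg⟩ : ∃ g : ℕ, g = H / 2 := ⟨_, rfl⟩
  obtain ⟨L, hL⟩ : ∃ L : ℕ, L = 2 * n / H := ⟨_, rfl⟩
  obtain ⟨K, hK⟩ : ∃ K : ℕ, K = 2 * Nat.log 3 L + 3 := ⟨_, rfl⟩
  obtain ⟨r, hr⟩ : ∃ r : ℕ, r = ⌊(n : ℝ) ^ (δ / 8)⌋₊ := ⟨_, rfl⟩
  have hrx : (r : ℝ) ≤ (n : ℝ) ^ (δ / 8) := by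
    rw [hr]; exact Nat.floor_le (by positivity)
  have hrx1 : (n : ℝ) ^ (δ / 8) < r + 1 := by
    rw [hr]; exact Nat.lt_floor_add_one _
  have hrx2 : (n : ℝ) ^ (δ / 8) / 2 ≤ r := by linarith
  have hr1R : (1 : ℝ) ≤ r := by linarith
  have hr1 : 1 ≤ r := by exact_mod_cast hr1R
  have h8r : 8 * r ≤ H := by
    have : (8 : ℝ) * r ≤ H := by linarith
    exact_mod_cast this
  have hgH : g ≤ H - 1 := by omega
  have hnL : n < (L + 1) * (H - g) := by
    have h1 : 2 * n < (L + 1) * H := by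
      rw [hL, add_mul, one_mul]
      have := Nat.lt_div_mul_add (a := 2 * n) hH1
      omega
    have h2 : (L + 1) * H ≤ (L + 1) * (2 * (H - g)) := Nat.mul_le_mul_left _ (by omega)
    have h3 : (L + 1) * (2 * (H - g)) = 2 * ((L + 1) * (H - g)) := by ring
    omega
  -- K <= c log H
  have hKc : (K : ℝ) ≤ c * Real.log H := by
    have hLn : (L : ℝ) ≤ 2 * (n : ℝ) ^ a := by
      have h1 : (L : ℝ) ≤ 2 * n / H := by
        rw [hL]
        have := Nat.cast_div_le (α := ℝ) (m := 2 * n) (n := H)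
        push_cast at this
        exact this
      refine le_trans h1 ?_
      rw [div_le_iff₀ hH0]
      calc 2 * (n : ℝ) = 2 * ((n : ℝ) ^ a * (n : ℝ) ^ (1 - a)) := by
            rw [← Real.rpow_add hx0, add_sub_cancel, Real.rpow_one]
        _ ≤ 2 * ((n : ℝ) ^ a * H) := by gcongr
        _ = 2 * (n : ℝ) ^ a * H := by ring
    have hlog : (Nat.log 3 L : ℝ) ≤ Real.log 2 + a * Real.log n := by
      rcases Nat.eq_zero_or_pos L with h0 | h0
      · rw [h0, Nat.log_zero_right, Nat.cast_zero]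
        have : 0 < Real.log 2 := Real.log_pos (by norm_num)
        positivity
      · have h1 : (3 : ℝ) ^ (Nat.log 3 L) ≤ L := by
          exact_mod_cast Nat.pow_log_le_self 3 h0.ne'
        have h2 : (Nat.log 3 L : ℝ) * Real.log 3 ≤ Real.log L := by
          have := Real.log_le_log (by positivity) h1
          rwa [Real.log_pow] at this
        have h3 : (1 : ℝ) ≤ Real.log 3 := by
          rw [Real.le_log_iff_exp_le (by norm_num)]
          have := Real.exp_one_lt_d9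
          linarith
        have h4 : (0 : ℝ) ≤ (Nat.log 3 L : ℝ) := Nat.cast_nonneg _
        have h5 : Real.log L ≤ Real.log (2 * (n : ℝ) ^ a) :=
          Real.log_le_log (by exact_mod_cast h0) hLn
        rw [Real.log_mul (by norm_num) (by positivity), Real.log_rpow hx0] at h5
        nlinarith
    have hl2 : Real.log 2 ≤ 1 := by
      have := Real.log_two_lt_d9
      linarith
    have h20 : 5 ≤ c / 4 * Real.log n := by
      rw [div_le_iff₀ hc] at hx3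
      linarith
    rw [hK]
    push_cast
    have e1 : a * Real.log n ≤ c / 8 * Real.log n := by gcongr
    have e2 : c * (Real.log n / 2) ≤ c * Real.log H := by gcongr
    linarith
  -- the input
  have hQ : gf (MidW K H) ≤ ENNReal.ofReal ((H : ℝ) ^ (1 - δ)) := by
    refine le_trans (hD H hHD K hKc) (ENNReal.ofReal_le_ofReal ?_)
    exact Real.rpow_le_rpow_of_exponent_le hH1R hβδ
  have hcount := count (H := H) (n := n) (L := L) (K := K) (r := r) (g := g) hH1 hnL hgH (by omega)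
  -- the binomial coefficient
  have hch : ((H : ℝ) / 4 / r) ^ r ≤ (g.choose r : ℝ) := by
    apply TSNum.tsnum_choose g r hr1 (by positivity)
    have h1 : H ≤ 4 * (g + 1 - r) := by omega
    have h2 : (H : ℝ) ≤ 4 * ((g + 1 - r : ℕ) : ℝ) := by exact_mod_cast h1
    linarith
  have hpos : 0 < ((H : ℝ) / 4 / r) ^ r := by positivity
  have hchpos : (0 : ℝ) < (g.choose r : ℝ) := lt_of_lt_of_le hpos hch
  have hchE : (g.choose r : ℝ≥0∞) = ENNReal.ofReal (g.choose r : ℝ) := by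
    rw [ENNReal.ofReal_natCast]
  have hfin := TSNum.tsnum_final hδ hx1 hHx hrx hrx2 hx5 hx6 hx7 hr1
  have hpow : gf (MidW K H) ^ (r + 1) ≤ ENNReal.ofReal ((H : ℝ) ^ ((1 - δ) * (r + 1))) := by
    calc gf (MidW K H) ^ (r + 1) ≤ ENNReal.ofReal ((H : ℝ) ^ (1 - δ)) ^ (r + 1) := by gcongr
      _ = ENNReal.ofReal ((H : ℝ) ^ ((1 - δ) * (r + 1))) := by
          rw [← ENNReal.ofReal_pow (by positivity), ← Real.rpow_natCast, ← Real.rpow_mul hH0.le]
          push_cast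
          rfl
  have hmain : ENNReal.ofReal (g.choose r : ℝ) * gf {t | t ∈ Brd H ∧ t.length ≤ n} ≤
      ENNReal.ofReal ((g.choose r : ℝ) * Real.exp (-(n : ℝ) ^ (δ / 8))) := by
    rw [← hchE]
    refine le_trans hcount (le_trans hpow (ENNReal.ofReal_le_ofReal ?_))
    have h1 : (4 * (r : ℝ) / H) ^ r * ((H : ℝ) / 4 / r) ^ r = 1 := by
      rw [← mul_pow]
      have : 4 * (r : ℝ) / H * (H / 4 / r) = 1 := by
        have hr0 : (r : ℝ) ≠ 0 := by positivity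
        field_simp
      rw [this, one_pow]
    calc (H : ℝ) ^ ((1 - δ) * (r + 1))
        = ((H : ℝ) ^ ((1 - δ) * (r + 1)) * (4 * r / H) ^ r) * ((H : ℝ) / 4 / r) ^ r := by
          rw [mul_assoc, h1, mul_one]
      _ ≤ Real.exp (-(n : ℝ) ^ (δ / 8)) * (g.choose r : ℝ) := by
          gcongr
      _ = _ := mul_comm _ _
  rw [ENNReal.ofReal_mul hchpos.le] at hmain
  exact (ENNReal.mul_le_mul_iff_right (ENNReal.ofReal_pos.mpr hchpos).ne' ENNReal.ofReal_ne_top).mp hmain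

end HexObs
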