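import Mathlib

/-!
T*: chains of integer sequences (Hammersley-Welsh turns of the profile of a walk).
f is the profile (the height of the vertex number j), [a, b] an interval of indices.
-/

set_option autoImplicit false

namespace TStar

/-- Chn f a b k: f a is minimal on [a, b], and the Hammersley-Welsh chain of f on [a, b] that starts at a
(last maximum, then last minimum after it, ...) has k turns before it ends at b. -/
inductive Chn : (ℕ → ℤ) → ℕ → ℕ → ℕ → Prop
  | base (f : ℕ → ℤ) (a b : ℕ) (hab : a ≤ b) (h : ∀ j, a ≤ j → j ≤ b → f a ≤ f j ∧ f j ≤ f b) : Chn f a b 0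
  | step (f : ℕ → ℤ) (a c b k : ℕ) (hac : a ≤ c) (hcb : c < b)
      (h : ∀ j, a ≤ j → j ≤ b → f a ≤ f j ∧ f j ≤ f c) (hs : ∀ j, c < j → j ≤ b → f j < f c)
      (hr : Chn (fun j => - f j) c b k) : Chn f a b (k + 1)

/-- the same, read backwards from the index b down to the index a (f b is minimal) -/
def ChnR (f : ℕ → ℤ) (b a k : ℕ) : Prop := Chn (fun j => f (b - j)) 0 (b - a) k

/-- the profile has a longest strand from c (maximum) down to d (minimum), and on both sides a chain with at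
most K turns -/
def MidA (K : ℕ) (f : ℕ → ℤ) (a b : ℕ) : Prop :=
  ∃ c d, a ≤ c ∧ c ≤ d ∧ d ≤ b ∧ (∀ j, a ≤ j → j ≤ b → f d ≤ f j ∧ f j ≤ f c) ∧
    (∀ j, c < j → j ≤ b → f j < f c) ∧ (∀ j, d < j → j ≤ b → f d < f j) ∧
    (∃ k, k ≤ K ∧ ChnR (fun j => - f j) c a k) ∧ (∃ k, k ≤ K ∧ Chn f d b k)

/-- the same up to a reflection -/
def Mid (K : ℕ) (f : ℕ → ℤ) (a b : ℕ) : Prop := MidA K f a b ∨ MidA K (fun j => - f j) a b

/-- the values lo < hi are neighbouring values at the level between them: no value strictly between, every step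
over the level goes between lo and hi, a vertex of value hi has at most one neighbour below, a vertex of value lo
at most one neighbour above -/
structure Lv (f : ℕ → ℤ) (a b : ℕ) (lo hi : ℤ) : Prop where
  lt : lo < hi
  gap : ∀ j, a ≤ j → j ≤ b → f j ≤ lo ∨ hi ≤ f j
  upst : ∀ j, a ≤ j → j < b → f j ≤ lo → hi ≤ f (j + 1) → f j = lo ∧ f (j + 1) = hi
  dnst : ∀ j, a ≤ j → j < b → hi ≤ f j → f (j + 1) ≤ lo → f j = hi ∧ f (j + 1) = lo
  nohi : ∀ j, a ≤ j → j + 1 < b → f (j + 1) = hi → f j ≤ lo → f (j + 2) ≤ lo → False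
  nolo : ∀ j, a ≤ j → j + 1 < b → f (j + 1) = lo → hi ≤ f j → hi ≤ f (j + 2) → False
  nbhi : ∀ j, a ≤ j → j < b → f j = hi → f (j + 1) ≠ hi
  nblo : ∀ j, a ≤ j → j < b → f j = lo → f (j + 1) ≠ lo

/-- the crossings of the level in [a, b) -/
def crs (f : ℕ → ℤ) (a b : ℕ) (lo hi : ℤ) : Finset ℕ :=
  (Finset.Ico a b).filter (fun j => (f j ≤ lo ∧ hi ≤ f (j + 1)) ∨ (hi ≤ f j ∧ f (j + 1) ≤ lo))

end TStar
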