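import Pool.Agent.TStar.SeqA

set_option autoImplicit false

namespace TStar

namespace SeqK

lemma shift {f : ℕ → ℤ} {a b k : ℕ} (h : Chn f a b k) : ∀ (g : ℕ → ℤ) (m : ℕ),
    (∀ j, a ≤ j → j ≤ b → g (j + m) = f j) → Chn g (a + m) (b + m) k := by
  induction h with
  | base f a b hab h =>
    intro g m hg
    refine Chn.base g _ _ (by omega) ?_
    intro j h1 h2
    obtain ⟨i, rfl⟩ : ∃ i, j = i + m := ⟨j - m, by omega⟩
    rw [hg i (by omega) (by omega), hg a le_rfl hab, hg b hab le_rfl]
    exact h i (by omega) (by omega)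
  | step f a c b k hac hcb h hs hr ih =>
    intro g m hg
    refine Chn.step g (a + m) (c + m) (b + m) k (by omega) (by omega) ?_ ?_ ?_
    · intro j h1 h2
      obtain ⟨i, rfl⟩ : ∃ i, j = i + m := ⟨j - m, by omega⟩
      rw [hg i (by omega) (by omega), hg a le_rfl (by omega), hg c hac hcb.le]
      exact h i (by omega) (by omega)
    · intro j h1 h2
      obtain ⟨i, rfl⟩ : ∃ i, j = i + m := ⟨j - m, by omega⟩
      rw [hg i (by omega) (by omega), hg c hac hcb.le]
      exact hs i (by omega) (by omega)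
    · apply ih
      intro j h1 h2
      show - g (j + m) = - f j
      rw [hg j (by omega) h2]

/-- translation of a chain that is read backwards -/
lemma shiftR {f : ℕ → ℤ} {c i b k : ℕ} (hic : i ≤ c) (hcb : c ≤ b) (h : ChnR f c i k) :
    Chn (fun j => f (b - j)) (b - c) (b - i) k := by
  have h1 := shift h (fun j => f (b - j)) (b - c) (by
    intro j _ _
    show f (b - (j + (b - c))) = f (c - j)
    congr 1
    omega)
  rw [Nat.zero_add] at h1
  have e : c - i + (b - c) = b - i := by omega
  rwa [e] at h1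

lemma Lv_sub {f : ℕ → ℤ} {a b a' b' : ℕ} {lo hi : ℤ} (h : Lv f a b lo hi) (ha : a ≤ a') (hb : b' ≤ b) :
    Lv f a' b' lo hi where
  lt := h.lt
  gap := fun j h1 h2 => h.gap j (by omega) (by omega)
  upst := fun j h1 h2 => h.upst j (by omega) (by omega)
  dnst := fun j h1 h2 => h.dnst j (by omega) (by omega)
  nohi := fun j h1 h2 => h.nohi j (by omega) (by omega)
  nolo := fun j h1 h2 => h.nolo j (by omega) (by omega)
  nbhi := fun j h1 h2 => h.nbhi j (by omega) (by omega)
  nblo := fun j h1 h2 => h.nblo j (by omega) (by omega)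

lemma Lv_neg {f : ℕ → ℤ} {a b : ℕ} {lo hi : ℤ} (h : Lv f a b lo hi) :
    Lv (fun j => - f j) a b (-hi) (-lo) where
  lt := neg_lt_neg h.lt
  gap := by
    intro j h1 h2
    rcases h.gap j h1 h2 with h3 | h3
    · right
      exact neg_le_neg h3
    · left
      exact neg_le_neg h3
  upst := by
    intro j h1 h2 h3 h4
    obtain ⟨h5, h6⟩ := h.dnst j h1 h2 (neg_le_neg_iff.1 h3) (neg_le_neg_iff.1 h4)
    exact ⟨congrArg Neg.neg h5, congrArg Neg.neg h6⟩
  dnst := by
    intro j h1 h2 h3 h4
    obtain ⟨h5, h6⟩ := h.upst j h1 h2 (neg_le_neg_iff.1 h3) (neg_le_neg_iff.1 h4)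
    exact ⟨congrArg Neg.neg h5, congrArg Neg.neg h6⟩
  nohi := by
    intro j h1 h2 h3 h4 h5
    exact h.nolo j h1 h2 (neg_inj.1 h3) (neg_le_neg_iff.1 h4) (neg_le_neg_iff.1 h5)
  nolo := by
    intro j h1 h2 h3 h4 h5
    exact h.nohi j h1 h2 (neg_inj.1 h3) (neg_le_neg_iff.1 h4) (neg_le_neg_iff.1 h5)
  nbhi := by
    intro j h1 h2 h3 h4
    exact h.nblo j h1 h2 (neg_inj.1 h3) (neg_inj.1 h4)
  nblo := by
    intro j h1 h2 h3 h4
    exact h.nbhi j h1 h2 (neg_inj.1 h3) (neg_inj.1 h4)

lemma crs_neg (f : ℕ → ℤ) (a b : ℕ) (lo hi : ℤ) :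
    crs (fun j => - f j) a b (-hi) (-lo) = crs f a b lo hi := by
  unfold crs
  apply Finset.filter_congr
  intro j _
  constructor
  · rintro (⟨h1, h2⟩ | ⟨h1, h2⟩)
    · right
      exact ⟨neg_le_neg_iff.1 h1, neg_le_neg_iff.1 h2⟩
    · left
      exact ⟨neg_le_neg_iff.1 h1, neg_le_neg_iff.1 h2⟩
  · rintro (⟨h1, h2⟩ | ⟨h1, h2⟩)
    · right
      exact ⟨neg_le_neg h1, neg_le_neg h2⟩
    · left
      exact ⟨neg_le_neg h1, neg_le_neg h2⟩

lemma card_crs_add (f : ℕ → ℤ) {a c b : ℕ} (lo hi : ℤ) (h1 : a ≤ c) (h2 : c ≤ b) :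
    (crs f a b lo hi).card = (crs f a c lo hi).card + (crs f c b lo hi).card := by
  unfold crs
  rw [Finset.card_filter, Finset.card_filter, Finset.card_filter, Finset.sum_Ico_consecutive _ h1 h2]

lemma crs_sub {f : ℕ → ℤ} {a b a' b' i : ℕ} {lo hi : ℤ} (ha : a ≤ a') (hb : b' ≤ b)
    (h : i ∈ crs f a' b' lo hi) : i ∈ crs f a b lo hi := by
  unfold crs at h ⊢
  rw [Finset.mem_filter, Finset.mem_Ico] at h ⊢
  exact ⟨⟨by omega, by omega⟩, h.2⟩

lemma crs_range {f : ℕ → ℤ} {a b i : ℕ} {lo hi : ℤ} (h : i ∈ crs f a b lo hi) : a ≤ i ∧ i < b := by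
  unfold crs at h
  rw [Finset.mem_filter, Finset.mem_Ico] at h
  exact h.1

lemma pow_step {k1 k2 k1' k2' x X : ℕ} (h : 3 ^ ((k1 + k2) / 2) ≤ x) (hk : k1' + k2' ≤ k1 + k2 + 2)
    (hx : 3 * x ≤ X) : 3 ^ ((k1' + k2') / 2) ≤ X := by
  have h1 : (k1' + k2') / 2 ≤ (k1 + k2) / 2 + 1 := by omega
  calc 3 ^ ((k1' + k2') / 2) ≤ 3 ^ ((k1 + k2) / 2 + 1) := Nat.pow_le_pow_right (by norm_num) h1
    _ = 3 * 3 ^ ((k1 + k2) / 2) := by rw [pow_succ, mul_comm]
    _ ≤ 3 * x := Nat.mul_le_mul_left 3 h
    _ ≤ X := hx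

lemma aux (n : ℕ) : ∀ (f : ℕ → ℤ) (a b : ℕ) (lo hi : ℤ), b - a = n → Lv f a b lo hi → a ≤ b →
    (∀ j, a ≤ j → j ≤ b → f a ≤ f j ∧ f j ≤ f b) → f a ≤ lo → hi ≤ f b →
    ∃ i ∈ crs f a b lo hi, ∃ k1 k2, Chn f a i k1 ∧ ChnR (fun j => - f j) b (i + 1) k2 ∧
      3 ^ ((k1 + k2) / 2) ≤ (crs f a b lo hi).card := by
  induction n using Nat.strong_induction_on with
  | _ n ih =>
  intro f a b lo hi hn hL hab hbr ha hb
  have hlt := hL.lt
  -- the last low index
  obtain ⟨s, hs1, hs2⟩ : ∃ s ∈ (Finset.Icc a b).filter (fun j => f j ≤ lo),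
      ∀ j ∈ (Finset.Icc a b).filter (fun j => f j ≤ lo), j ≤ s := by
    have hne : ((Finset.Icc a b).filter (fun j => f j ≤ lo)).Nonempty :=
      ⟨a, Finset.mem_filter.2 ⟨Finset.mem_Icc.2 ⟨le_rfl, hab⟩, ha⟩⟩
    exact ⟨_, Finset.max'_mem _ hne, fun j hj => Finset.le_max' _ j hj⟩
  rw [Finset.mem_filter, Finset.mem_Icc] at hs1
  obtain ⟨⟨has, hsb'⟩, hslo⟩ := hs1
  have hsb : s < b := by
    rcases Nat.lt_or_ge s b with h | h
    · exact h
    · have : s = b := by omega
      rw [this] at hslo
      omega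
  have hafter : ∀ j, s < j → j ≤ b → hi ≤ f j := by
    intro j h1 h2
    rcases hL.gap j (by omega) h2 with h3 | h3
    · have := hs2 j (Finset.mem_filter.2 ⟨Finset.mem_Icc.2 ⟨by omega, h2⟩, h3⟩)
      omega
    · exact h3
  have hup := hL.upst s has hsb hslo (hafter (s + 1) (by omega) (by omega))
  have hscr : s ∈ crs f a b lo hi := by
    unfold crs
    rw [Finset.mem_filter, Finset.mem_Ico]
    exact ⟨⟨has, hsb⟩, Or.inl ⟨hslo, hafter (s + 1) (by omega) (by omega)⟩⟩
  by_cases hcase : ∀ j, a ≤ j → j ≤ s → f j ≤ lo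
  · -- one crossing only
    refine ⟨s, hscr, 0, 0, ?_, ?_, ?_⟩
    · refine Chn.base f a s has ?_
      intro j h1 h2
      refine ⟨(hbr j h1 (by omega)).1, ?_⟩
      rw [hup.1]
      exact hcase j h1 h2
    · refine Chn.base _ 0 _ (Nat.zero_le _) ?_
      intro j _ h2
      show - f (b - 0) ≤ - f (b - j) ∧ - f (b - j) ≤ - f (b - (b - (s + 1)))
      have e1 : b - (b - (s + 1)) = s + 1 := by omega
      have h3 := (hbr (b - j) (by omega) (by omega)).2
      have h4 := hafter (b - j) (by omega) (by omega)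
      rw [e1, hup.2, Nat.sub_zero]
      exact ⟨neg_le_neg h3, neg_le_neg h4⟩
    · exact Finset.card_pos.2 ⟨s, hscr⟩
  · push Not at hcase
    obtain ⟨j0, hj1, hj2, hj3⟩ := hcase
    -- c: a maximum on [a, s]
    obtain ⟨c, hc1, hc2⟩ := Finset.exists_max_image (Finset.Icc a s) f ⟨a, Finset.mem_Icc.2 ⟨le_rfl, has⟩⟩
    rw [Finset.mem_Icc] at hc1
    have hctop : ∀ j, a ≤ j → j ≤ s → f j ≤ f c := fun j h1 h2 => hc2 j (Finset.mem_Icc.2 ⟨h1, h2⟩)
    have hchi : hi ≤ f c := by
      rcases hL.gap j0 hj1 (by omega) with h | h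
      · omega
      · exact h.trans (hctop j0 hj1 hj2)
    have hcs : c < s := by
      rcases Nat.lt_or_ge c s with h | h
      · exact h
      · have : c = s := by omega
        rw [this] at hchi
        omega
    -- d: a minimum on [c, b]
    obtain ⟨d, hd1, hd2⟩ := Finset.exists_min_image (Finset.Icc c b) f
      ⟨c, Finset.mem_Icc.2 ⟨le_rfl, by omega⟩⟩
    rw [Finset.mem_Icc] at hd1
    have hdlow : ∀ j, c ≤ j → j ≤ b → f d ≤ f j := fun j h1 h2 => hd2 j (Finset.mem_Icc.2 ⟨h1, h2⟩)
    have hdlo : f d ≤ lo := (hdlow s (by omega) hsb.le).trans hslo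
    have hds : d ≤ s := by
      by_contra hcon
      have := hafter d (by omega) hd1.2
      omega
    have hcd : c < d := by
      rcases Nat.lt_or_ge c d with h | h
      · exact h
      · have : c = d := by omega
        rw [this] at hchi
        omega
    obtain ⟨hac, -⟩ := hc1
    have hX1 := card_crs_add f lo hi hac (by omega : c ≤ b)
    have hX2 := card_crs_add f lo hi hcd.le hd1.2
    -- the facts for the three pieces
    have hE := ih (c - a) (by omega) f a c lo hi rfl (Lv_sub hL le_rfl (by omega)) hac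
      (fun j h1 h2 => ⟨(hbr j h1 (by omega)).1, hctop j h1 (by omega)⟩) ha hchi
    have hB := ih (d - c) (by omega) (fun j => - f j) c d (-hi) (-lo) rfl
      (Lv_neg (Lv_sub hL hac (by omega))) hcd.le
      (fun j h1 h2 => ⟨neg_le_neg (hctop j (by omega) (by omega)), neg_le_neg (hdlow j h1 (by omega))⟩)
      (neg_le_neg hchi) (neg_le_neg hdlo)
    have hR := ih (b - d) (by omega) f d b lo hi rfl (Lv_sub hL (by omega) le_rfl) hd1.2
      (fun j h1 h2 => ⟨hdlow j (by omega) h2, (hbr j (by omega) h2).2⟩) hdlo hb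
    have hmin : 3 * (crs f a c lo hi).card ≤ (crs f a b lo hi).card ∨
        3 * (crs f c d lo hi).card ≤ (crs f a b lo hi).card ∨
        3 * (crs f d b lo hi).card ≤ (crs f a b lo hi).card := by omega
    rcases hmin with hm | hm | hm
    · -- first piece
      obtain ⟨i, hi1, k1, k2, hk1, hk2, hk3⟩ := hE
      obtain ⟨hi2, hi3⟩ := crs_range hi1
      refine ⟨i, crs_sub le_rfl (by omega) hi1, k1, ?_⟩
      have hsh := shiftR (b := b) (by omega : i + 1 ≤ c) (by omega) hk2
      have hR' : ∃ k2', k2' ≤ k2 + 2 ∧ ChnR (fun j => - f j) b (i + 1) k2' := by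
        rcases Nat.lt_or_ge (i + 1) c with hlt' | hge
        · obtain ⟨k', hk', hk''⟩ := Chn.prepend2 (f := fun j => - f (b - j)) (a := 0) (c := b - d) (d := b - c)
            (b := b - (i + 1)) (k := k2) (Nat.zero_le _) (by omega) (by omega)
            (by
              intro j _ h2
              show - f (b - 0) ≤ - f (b - j)
              rw [Nat.sub_zero]
              exact neg_le_neg (hbr (b - j) (by omega) (by omega)).2)
            (by
              intro j _ h2
              show - f (b - j) ≤ - f (b - (b - d))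
              have e1 : b - (b - d) = d := by omega
              rw [e1]
              exact neg_le_neg (hdlow (b - j) (by omega) (by omega)))
            (by
              intro j h1 h2
              show - f (b - (b - c)) ≤ - f (b - j)
              have e1 : b - (b - c) = c := by omega
              rw [e1]
              exact neg_le_neg (hctop (b - j) (by omega) (by omega))) hsh
          exact ⟨k', hk', hk''⟩
        · have hic : i + 1 = c := by omega
          obtain ⟨k', hk', hk''⟩ := Chn.prepend (f := fun j => - f (b - j)) (a := 0) (c := b - d)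
            (b := b - c) (k := 0) (Nat.zero_le _) (by omega)
            (by
              intro j _ h2
              show - f (b - 0) ≤ - f (b - j)
              rw [Nat.sub_zero]
              exact neg_le_neg (hbr (b - j) (by omega) (by omega)).2)
            (by
              intro j _ h2
              show - f (b - j) ≤ - f (b - (b - d))
              have e1 : b - (b - d) = d := by omega
              rw [e1]
              exact neg_le_neg (hdlow (b - j) (by omega) (by omega)))
            (Chn.base _ _ _ (by omega) (by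
              intro j h1 h2
              show - - f (b - (b - d)) ≤ - - f (b - j) ∧ - - f (b - j) ≤ - - f (b - (b - c))
              have e1 : b - (b - d) = d := by omega
              have e2 : b - (b - c) = c := by omega
              rw [e1, e2, neg_neg, neg_neg, neg_neg]
              exact ⟨hdlow (b - j) (by omega) (by omega), hctop (b - j) (by omega) (by omega)⟩))
          rw [← hic] at hk''
          exact ⟨k', by omega, hk''⟩
      obtain ⟨k2', h1, h2⟩ := hR'
      exact ⟨k2', hk1, h2, pow_step hk3 (by omega) hm⟩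
    · -- second piece
      obtain ⟨i, hi1, k1, k2, hk1, hk2, hk3⟩ := hB
      rw [crs_neg] at hi1 hk3
      obtain ⟨hi2, hi3⟩ := crs_range hi1
      refine ⟨i, crs_sub hac (by omega) hi1, ?_⟩
      have hL' : ∃ k1', k1' ≤ k1 + 1 ∧ Chn f a i k1' := by
        rcases Nat.lt_or_ge c i with hlt' | hge
        · exact Chn.prepend hac hlt' (fun j h1 h2 => (hbr j h1 (by omega)).1)
            (fun j h1 h2 => hctop j h1 (by omega)) hk1
        · have hic : c = i := by omega
          rw [← hic]
          exact ⟨0, by omega, Chn.base f a c hac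
            (fun j h1 h2 => ⟨(hbr j h1 (by omega)).1, hctop j h1 (by omega)⟩)⟩
      have hsh := shiftR (b := b) (by omega : i + 1 ≤ d) (by omega) hk2
      have hR' : ∃ k2', k2' ≤ k2 + 1 ∧ ChnR (fun j => - f j) b (i + 1) k2' := by
        rcases Nat.lt_or_ge (i + 1) d with hlt' | hge
        · obtain ⟨k', hk', hk''⟩ := Chn.prepend (f := fun j => - f (b - j)) (a := 0) (c := b - d)
            (b := b - (i + 1)) (k := k2) (Nat.zero_le _) (by omega)
            (by
              intro j _ h2
              show - f (b - 0) ≤ - f (b - j)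
              rw [Nat.sub_zero]
              exact neg_le_neg (hbr (b - j) (by omega) (by omega)).2)
            (by
              intro j _ h2
              show - f (b - j) ≤ - f (b - (b - d))
              have e1 : b - (b - d) = d := by omega
              rw [e1]
              exact neg_le_neg (hdlow (b - j) (by omega) (by omega))) hsh
          exact ⟨k', hk', hk''⟩
        · have hid : i + 1 = d := by omega
          refine ⟨0, by omega, ?_⟩
          rw [hid]
          refine Chn.base _ 0 _ (Nat.zero_le _) ?_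
          intro j _ h2
          show - f (b - 0) ≤ - f (b - j) ∧ - f (b - j) ≤ - f (b - (b - d))
          have e1 : b - (b - d) = d := by omega
          rw [e1, Nat.sub_zero]
          exact ⟨neg_le_neg (hbr (b - j) (by omega) (by omega)).2,
            neg_le_neg (hdlow (b - j) (by omega) (by omega))⟩
      obtain ⟨k1', h1, h2⟩ := hL'
      obtain ⟨k2', h3, h4⟩ := hR'
      exact ⟨k1', k2', h2, h4, pow_step hk3 (by omega) hm⟩
    · -- third piece
      obtain ⟨i, hi1, k1, k2, hk1, hk2, hk3⟩ := hR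
      obtain ⟨hi2, hi3⟩ := crs_range hi1
      refine ⟨i, crs_sub (by omega) le_rfl hi1, ?_⟩
      have his : i ≤ s := by
        by_contra hcon
        have h1 := hafter i (by omega) (by omega)
        have h2 := hafter (i + 1) (by omega) (by omega)
        unfold crs at hi1
        rw [Finset.mem_filter] at hi1
        rcases hi1.2 with h3 | h3
        · omega
        · omega
      have hL' : ∃ k1', k1' ≤ k1 + 2 ∧ Chn f a i k1' := by
        rcases Nat.lt_or_ge d i with hlt' | hge
        · exact Chn.prepend2 hac hcd.le hlt' (fun j h1 h2 => (hbr j h1 (by omega)).1)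
            (fun j h1 h2 => hctop j h1 (by omega)) (fun j h1 h2 => hdlow j h1 (by omega)) hk1
        · have hid : d = i := by omega
          rw [← hid]
          obtain ⟨k', h1, h2⟩ := Chn.prepend (k := 0) hac hcd (fun j h1 h2 => (hbr j h1 (by omega)).1)
            (fun j h1 h2 => hctop j h1 (by omega)) (Chn.base _ c d hcd.le (by
              intro j h1 h2
              exact ⟨neg_le_neg (hctop j (by omega) (by omega)), neg_le_neg (hdlow j h1 (by omega))⟩))
          exact ⟨k', by omega, h2⟩
      obtain ⟨k1', h1, h2⟩ := hL'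
      exact ⟨k1', k2, h2, hk2, pow_step hk3 (by omega) hm⟩

end SeqK

/-- S2 (SeqK): Lemma K -/
theorem lemmaK {f : ℕ → ℤ} {a b : ℕ} {lo hi : ℤ} (hL : Lv f a b lo hi) (hab : a ≤ b)
    (hbr : ∀ j, a ≤ j → j ≤ b → f a ≤ f j ∧ f j ≤ f b) (ha : f a ≤ lo) (hb : hi ≤ f b) :
    ∃ i ∈ crs f a b lo hi, ∃ k1 k2, Chn f a i k1 ∧ ChnR (fun j => - f j) b (i + 1) k2 ∧
      3 ^ ((k1 + k2) / 2) ≤ (crs f a b lo hi).card :=
  SeqK.aux (b - a) f a b lo hi rfl hL hab hbr ha hb

end TStar
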