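import Pool.Agent.TStar.SeqA

set_option autoImplicit false

namespace TStar

/-! S3 (SeqM): middle segments -/

theorem MidA.congr {K : ℕ} {f g : ℕ → ℤ} {a b : ℕ} (h : MidA K f a b) (hfg : ∀ j, a ≤ j → j ≤ b → f j = g j) :
    MidA K g a b := by
  obtain ⟨c, d, hac, hcd, hdb, h1, h2, h3, ⟨k1, hk1, c1⟩, k2, hk2, c2⟩ := h
  refine ⟨c, d, hac, hcd, hdb, fun j j1 j2 => ?_, fun j j1 j2 => ?_, fun j j1 j2 => ?_, ⟨k1, hk1, ?_⟩, k2, hk2, ?_⟩
  · rw [← hfg j j1 j2, ← hfg c hac (by omega), ← hfg d (by omega) hdb]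
    exact h1 j j1 j2
  · rw [← hfg j (by omega) j2, ← hfg c hac (by omega)]
    exact h2 j j1 j2
  · rw [← hfg j (by omega) j2, ← hfg d (by omega) hdb]
    exact h3 j j1 j2
  · refine Chn.congr c1 fun j j1 j2 => ?_
    have := hfg (c - j) (by omega) (by omega)
    simp only [this]
  · exact c2.congr fun j j1 j2 => hfg j (by omega) j2

theorem Mid.congr {K : ℕ} {f g : ℕ → ℤ} {a b : ℕ} (h : Mid K f a b) (hfg : ∀ j, a ≤ j → j ≤ b → f j = g j) :
    Mid K g a b := by
  rcases h with h | h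
  · exact Or.inl (h.congr hfg)
  · refine Or.inr (h.congr fun j j1 j2 => ?_)
    simp only [hfg j j1 j2]

theorem Mid.neg {K : ℕ} {f : ℕ → ℤ} {a b : ℕ} (h : Mid K f a b) : Mid K (fun j => - f j) a b := by
  rcases h with h | h
  · refine Or.inr (h.congr fun j j1 j2 => ?_)
    simp
  · exact Or.inl h

theorem MidA.trans {K : ℕ} {f : ℕ → ℤ} {a b : ℕ} (m : ℕ) (v : ℤ) (h : MidA K f (a + m) (b + m)) :
    MidA K (fun j => f (j + m) + v) a b := by
  obtain ⟨c, d, hac, hcd, hdb, h1, h2, h3, ⟨k1, hk1, c1⟩, k2, hk2, c2⟩ := h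
  obtain ⟨c', rfl⟩ : ∃ c', c = c' + m := ⟨c - m, by omega⟩
  obtain ⟨d', rfl⟩ : ∃ d', d = d' + m := ⟨d - m, by omega⟩
  refine ⟨c', d', by omega, by omega, by omega, fun j j1 j2 => ?_, fun j j1 j2 => ?_, fun j j1 j2 => ?_,
    ⟨k1, hk1, ?_⟩, k2, hk2, ?_⟩
  · have := h1 (j + m) (by omega) (by omega)
    try simp only
    omega
  · have := h2 (j + m) (by omega) (by omega)
    try simp only
    omega
  · have := h3 (j + m) (by omega) (by omega)
    try simp only
    omega
  · have e1 : c' + m - (a + m) = c' - a := by omega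
    unfold ChnR at c1 ⊢
    rw [e1] at c1
    have c1' := Chn.trans (f := fun j => - f (c' + m - j)) (a := 0) (b := c' - a) (k := k1) 0 (-v) (by simpa using c1)
    refine c1'.congr fun j j1 j2 => ?_
    have e2 : c' + m - (j + 0) = c' - j + m := by omega
    simp only [e2]
    ring
  · exact c2.trans m v

theorem Mid.trans {K : ℕ} {f : ℕ → ℤ} {a b : ℕ} (m : ℕ) (c : ℤ) (h : Mid K f (a + m) (b + m)) :
    Mid K (fun j => f (j + m) + c) a b := by
  rcases h with h | h
  · exact Or.inl (h.trans m c)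
  · refine Or.inr ((h.trans m (-c)).congr fun j j1 j2 => ?_)
    simp only
    ring

/-- reversed suffix of a reversed chain -/
theorem ChnR.suffix_weak {g : ℕ → ℤ} {b s c k : ℕ} (h : ChnR g b s k ∨ ChnR (fun j => - g j) b s k) (hsc : s ≤ c)
    (hcb : c ≤ b) (hm : ∀ j, s ≤ j → j ≤ c → g c ≤ g j) : ∃ k', k' ≤ k + 2 ∧ ChnR g c s k' := by
  have h' : Chn (fun j => g (b - j)) 0 (b - s) k ∨ Chn (fun j => - (fun j => g (b - j)) j) 0 (b - s) k := h
  obtain ⟨k', hk', hc'⟩ := Chn.suffix_weak h' (s := b - c) (by omega) (by omega) (fun j j1 j2 => by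
    have e1 : b - (b - c) = c := by omega
    have := hm (b - j) (by omega) (by omega)
    simp only [e1]
    exact this)
  refine ⟨k', hk', ?_⟩
  have e1 : b - c = 0 + (b - c) := by omega
  have e2 : b - s = (c - s) + (b - c) := by omega
  rw [e2] at hc'
  have hc2 : Chn (fun j => g (b - j)) (0 + (b - c)) (c - s + (b - c)) k' := by
    rw [← e1]
    exact hc'
  refine (hc2.trans (b - c) 0).congr fun j j1 j2 => ?_
  have e3 : b - (j + (b - c)) = c - j := by omega
  simp only [e3, add_zero]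

/-- a segment between two points with few turns on the outer sides -/
theorem mid_of_chains {f : ℕ → ℤ} {a b s e k1 k2 K : ℕ} (has : a ≤ s) (hse : s ≤ e) (heb : e ≤ b)
    (h1 : Chn f a e k1) (h2 : ChnR (fun j => - f j) b s k2) (hk1 : k1 ≤ K) (hk2 : k2 + 2 ≤ K) : Mid K f s e := by
  obtain ⟨M, M1, M2, M3, M4⟩ := exists_last_max f hse
  obtain ⟨m, m1, m2, m3, m4⟩ := exists_last_min f hse
  rcases Nat.lt_or_ge m M with hmM | hmM
  · right
    refine ⟨m, M, m1, hmM.le, M2, fun j j1 j2 => ?_, fun j j1 j2 => ?_, fun j j1 j2 => ?_, ?_, ?_⟩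
    · have := M3 j j1 j2
      have := m3 j j1 j2
      try simp only
      omega
    · have := m4 j j1 j2
      try simp only
      omega
    · have := M4 j j1 j2
      try simp only
      omega
    · obtain ⟨k', hk', hc'⟩ := ChnR.suffix_weak (g := f) (b := b) (s := s) (c := m) (k := k2) (Or.inr h2) m1
        (by omega) (fun j j1 j2 => m3 j j1 (by omega))
      refine ⟨k', by omega, Chn.congr hc' fun j j1 j2 => ?_⟩
      simp
    · have h1' : Chn (fun j => - (fun j => - f j) j) a e k1 := h1.congr fun j _ _ => by simp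
      obtain ⟨k', hk', hc'⟩ := h1'.suffix_neg (s := M) (by omega) M2 (fun j j1 j2 => by
        have := M4 j j1 j2
        try simp only
        omega)
      exact ⟨k', by omega, hc'⟩
  · left
    refine ⟨M, m, M1, hmM, m2, fun j j1 j2 => ⟨m3 j j1 j2, M3 j j1 j2⟩, M4, m4, ?_, ?_⟩
    · obtain ⟨k', hk', hc'⟩ := ChnR.suffix_weak (g := fun j => - f j) (b := b) (s := s) (c := M) (k := k2)
        (Or.inl h2) M1 (by omega) (fun j j1 j2 => by
          have := M3 j j1 (by omega)
          try simp only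
          omega)
      exact ⟨k', by omega, hc'⟩
    · obtain ⟨k', hk', hc'⟩ := h1.suffix (s := m) (by omega) m2 m4
      exact ⟨k', by omega, hc'⟩

end TStar
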