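import Pool.Agent.TStar.Defs
import Pool.Agent.PHW.Rotate

set_option autoImplicit false

namespace HexObs

open Complex Finset ENNReal TStar

/-! S4 (WordA): the profile of a bridge word. `lev_one : lev t 1 = 2` is in PHW/Rotate. -/

lemma wordA_dirs : ∀ d ∈ dirs, (ip d up = 2 ∧ d = up) ∨ (ip d up = -2 ∧ d = -up) ∨ ip d up = 1 ∨ ip d up = -1 := by
  decide

lemma wordA_step (t : List Bool) (j : ℕ) :
    (lev t (j + 1) = lev t j + 2 ∧ dx up t j = up) ∨ (lev t (j + 1) = lev t j - 2 ∧ dx up t j = -up) ∨
      lev t (j + 1) = lev t j + 1 ∨ lev t (j + 1) = lev t j - 1 := by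
  have h1 := lev_succ t j
  have h2 : dx up t j ∈ dirs := ds_mem upd j
  rcases wordA_dirs _ h2 with ⟨h, h'⟩ | ⟨h, h'⟩ | h | h
  · exact Or.inl ⟨by rw [h1, h], h'⟩
  · exact Or.inr (Or.inl ⟨by rw [h1, h]; ring, h'⟩)
  · exact Or.inr (Or.inr (Or.inl (by rw [h1, h])))
  · exact Or.inr (Or.inr (Or.inr (by rw [h1, h]; ring)))

lemma wordA_mod (t : List Bool) (j : ℕ) : ∃ m : ℤ, lev t j = 3 * m ∨ lev t j = 3 * m + 2 := by
  obtain ⟨m, hm⟩ := lev_mod t j
  refine ⟨m, ?_⟩
  split_ifs at hm
  · left
    omega
  · right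
    omega

lemma wordA_turn (t : List Bool) (j : ℕ) (h1 : dx up t j = up) (h2 : dx up t (j + 1) = -up) : False := by
  have h3 : turn (tf t j) (dx up t j) = -up := h2
  rw [h1] at h3
  revert h3
  generalize tf t j = b
  revert b
  decide

lemma wordA_turn' (t : List Bool) (j : ℕ) (h1 : dx up t j = -up) (h2 : dx up t (j + 1) = up) : False := by
  have h3 : turn (tf t j) (dx up t j) = up := h2
  rw [h1] at h3
  revert h3
  generalize tf t j = b
  revert b
  decide

theorem brd_profile {H : ℕ} {t : List Bool} (hH : 1 ≤ H) (ht : t ∈ Brd H) :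
    1 ≤ t.length ∧ lev t t.length = 3 * H ∧
      ∀ j, 1 ≤ j → j ≤ t.length → lev t 1 ≤ lev t j ∧ lev t j ≤ lev t t.length := by
  obtain ⟨h1, -, -, h4⟩ := mem_Brd.1 ht
  refine ⟨?_, h4, ?_⟩
  · by_contra h
    have h0 : t.length = 0 := by omega
    rw [h0, lev_zero] at h4
    omega
  · intro j hj hjl
    have h5 := h1 j hj hjl
    obtain ⟨m, hm⟩ := wordA_mod t j
    rw [h4, lev_one]
    constructor
    · omega
    · exact h5.2

theorem lv_lev (t : List Bool) (h : ℕ) : Lv (lev t) 1 t.length (3 * h) (3 * h + 2) := by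
  refine ⟨by omega, ?_, ?_, ?_, ?_, ?_, ?_, ?_⟩
  · intro j _ _
    obtain ⟨m, hm⟩ := wordA_mod t j
    omega
  · intro j _ _ h1 h2
    rcases wordA_step t j with h | h | h | h <;> omega
  · intro j _ _ h1 h2
    rcases wordA_step t j with h | h | h | h <;> omega
  · intro j _ _ h1 h2 h3
    have e1 : dx up t j = up := by
      rcases wordA_step t j with h | h | h | h
      · exact h.2
      all_goals omega
    have e2 : dx up t (j + 1) = -up := by
      rcases wordA_step t (j + 1) with h | h | h | h
      · have := h.1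
        have e : j + 1 + 1 = j + 2 := rfl
        rw [e] at this
        omega
      · exact h.2
      all_goals
        have e : j + 1 + 1 = j + 2 := rfl
        rw [e] at h
        omega
    exact wordA_turn t j e1 e2
  · intro j _ _ h1 h2 h3
    have e1 : dx up t j = -up := by
      rcases wordA_step t j with h | h | h | h
      · omega
      · exact h.2
      all_goals omega
    have e2 : dx up t (j + 1) = up := by
      rcases wordA_step t (j + 1) with h | h | h | h
      · exact h.2
      all_goals
        have e : j + 1 + 1 = j + 2 := rfl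
        rw [e] at h
        omega
    exact wordA_turn' t j e1 e2
  · intro j _ _ h1 h2
    rcases wordA_step t j with h | h | h | h <;> omega
  · intro j _ _ h1 h2
    rcases wordA_step t j with h | h | h | h <;> omega

/-- crossings are vertical edges -/
theorem crW_vert {t : List Bool} {h i : ℕ} (hi : i ∈ crW t h) :
    1 ≤ i ∧ i < t.length ∧ ((dx up t i = up ∧ lev t i = 3 * h) ∨ (dx up t i = -up ∧ lev t i = 3 * h + 2)) := by
  unfold crW crs at hi
  rw [Finset.mem_filter, Finset.mem_Ico] at hi
  obtain ⟨⟨h1, h2⟩, h3⟩ := hi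
  refine ⟨h1, h2, ?_⟩
  rcases h3 with h3 | h3
  · left
    rcases wordA_step t i with h | h | h | h
    · exact ⟨h.2, by omega⟩
    all_goals omega
  · right
    rcases wordA_step t i with h | h | h | h
    · omega
    · exact ⟨h.2, by omega⟩
    all_goals omega

theorem crW_level {t : List Bool} {h h' i : ℕ} (hi : i ∈ crW t h) (hi' : i ∈ crW t h') : h = h' := by
  obtain ⟨-, -, h1⟩ := crW_vert hi
  obtain ⟨-, -, h2⟩ := crW_vert hi'
  rcases h1 with h1 | h1 <;> rcases h2 with h2 | h2 <;> omega

theorem sum_crW (t : List Bool) (H : ℕ) : ∑ h ∈ Finset.range H, (crW t h).card ≤ t.length := by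
  rw [← Finset.card_biUnion]
  · have h1 : (Finset.range H).biUnion (crW t) ⊆ Finset.range t.length := by
      intro i hi
      rw [Finset.mem_biUnion] at hi
      obtain ⟨h, -, hi⟩ := hi
      rw [Finset.mem_range]
      exact (crW_vert hi).2.1
    have h2 := Finset.card_le_card h1
    rwa [Finset.card_range] at h2
  · intro h _ h' _ hne
    show Disjoint (crW t h) (crW t h')
    rw [Finset.disjoint_left]
    intro i hi hi'
    exact hne (crW_level hi hi')

end HexObs
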