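import Pool.Agent.TStar.WordA
import Pool.Agent.TStar.SeqM

set_option autoImplicit false

namespace HexObs

open Complex Finset ENNReal TStar

private lemma WordB_mulE_neg_one (p : Pt) : mulE (-1, 0) p = -p := by
  have h : ((-1, 0) : Pt) = -(1, 0) := rfl
  rw [h, mulE_comm, mulE_neg, mulE_comm, mulE_one]

private lemma WordB_tf (t : List Bool) (i m j : ℕ) (h : j < m) : tf ((t.drop i).take m) j = tf t (i + j) := by
  unfold tf
  rw [List.getD_eq_getElem?_getD, List.getD_eq_getElem?_getD, List.getElem?_take_of_lt h, List.getElem?_drop]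

private lemma WordB_shift (t : List Bool) (i m : ℕ) {u : Pt} (hu : ∀ p, mulE u (mulE u p) = p)
    (hd : dx up t i = mulE u up) :
    (∀ j, j ≤ m → dx up ((t.drop i).take m) j = mulE u (dx up t (i + j))) ∧
    (∀ j, j ≤ m + 1 → vx oo up ((t.drop i).take m) j = mulE u (vx oo up t (i + j) - vx oo up t i)) := by
  constructor
  · intro j hj
    have h1 : dx up t (i + j) = dx (mulE u up) ((t.drop i).take m) j := by
      rw [← hd]
      unfold dx
      rw [ds_shift]
      apply ds_congr
      intro k hk
      exact (WordB_tf t i m k (by omega)).symm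
    rw [h1, dx_mulE, hu]
  · intro j hj
    have h1 : vx oo up t (i + j) = vx (vx oo up t i) (mulE u up) ((t.drop i).take m) j := by
      rw [← hd]
      unfold vx dx
      rw [vs_shift]
      apply vs_congr
      intro k hk
      exact (WordB_tf t i m k (by omega)).symm
    rw [h1, vx_mulE u oo (vx oo up t i) up, add_sub_cancel_left, hu]
    have : (oo : Pt) = 0 := by decide
    rw [this, sub_zero]

private lemma WordB_ip_neg (p q : Pt) : ip (-p) q = -(ip p q) := by
  simp only [ip, Prod.fst_neg, Prod.snd_neg]
  ring

private lemma WordB_ip_sub (p q r : Pt) : ip (p - q) r = ip p r - ip q r := by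
  simp only [ip, Prod.fst_sub, Prod.snd_sub]
  ring

/-- S5 (WordB): the piece of a bridge word between two vertical edges (the edges number i and e) -/
theorem piece_mem {H K : ℕ} {t : List Bool} {i e : ℕ} (ht : t ∈ Brd H) (hie : i < e) (he : e ≤ t.length)
    (hi : dx up t i = up ∨ dx up t i = -up) (he' : dx up t e = up ∨ dx up t e = -up)
    (hm : Mid K (lev t) (i + 1) e) : (t.drop i).take (e - i) ∈ MidW K H := by
  obtain ⟨hlev, hsaw, _, _⟩ := mem_Brd.1 ht
  have hlen : ((t.drop i).take (e - i)).length = e - i := by
    rw [List.length_take, List.length_drop]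
    omega
  have hne : (t.drop i).take (e - i) ≠ [] := by
    intro h
    rw [h] at hlen
    simp at hlen
    omega
  have hlv : ∀ j, i ≤ j → 1 ≤ j → j ≤ e → 0 < lev t j ∧ lev t j ≤ 3 * H := fun j _ h1 h2 => hlev j h1 (by omega)
  rcases hi with hi | hi
  · obtain ⟨hD, hV⟩ := WordB_shift t i (e - i) (u := (1, 0)) (fun p => by rw [mulE_one, mulE_one])
      (by rw [mulE_one]; exact hi)
    have hL : ∀ j, j ≤ e - i → lev ((t.drop i).take (e - i)) j = lev t (i + j) + -(lev t i) := by
      intro j hj
      unfold lev
      rw [hV j (by omega), mulE_one, WordB_ip_sub]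
      ring
    refine ⟨hne, ⟨?_, ?_⟩, ?_, ?_⟩
    · intro a b hab hb h
      rw [hlen] at hb
      rw [hV a (by omega), hV b (by omega), mulE_one, mulE_one] at h
      exact hsaw (i + a) (i + b) (by omega) (by omega) (sub_left_injective h)
    · rw [hlen, hD (e - i) le_rfl, mulE_one]
      have : i + (e - i) = e := by omega
      rw [this]
      exact he'
    · intro j k hj1 hj2 hk1 hk2
      rw [hlen] at hj2 hk2
      rw [hL j hj2, hL k hk2]
      have h1 := hlv (i + j) (by omega) (by omega) (by omega)
      have h2 := hlv (i + k) (by omega) (by omega) (by omega)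
      linarith [h1.1, h1.2, h2.1, h2.2]
    · rw [hlen]
      have h1 : Mid K (lev t) (1 + i) (e - i + i) := by
        have e1 : 1 + i = i + 1 := by omega
        have e2 : e - i + i = e := by omega
        rw [e1, e2]
        exact hm
      exact Mid.congr (Mid.trans i (-(lev t i)) h1) (fun j _ hj2 => by rw [hL j hj2, Nat.add_comm j i])
  · obtain ⟨hD, hV⟩ := WordB_shift t i (e - i) (u := (-1, 0))
      (fun p => by rw [WordB_mulE_neg_one, WordB_mulE_neg_one, neg_neg])
      (by rw [WordB_mulE_neg_one]; exact hi)
    have hL : ∀ j, j ≤ e - i → lev ((t.drop i).take (e - i)) j = -(lev t (i + j)) + lev t i := by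
      intro j hj
      unfold lev
      rw [hV j (by omega), WordB_mulE_neg_one, WordB_ip_neg, WordB_ip_sub]
      ring
    refine ⟨hne, ⟨?_, ?_⟩, ?_, ?_⟩
    · intro a b hab hb h
      rw [hlen] at hb
      rw [hV a (by omega), hV b (by omega), WordB_mulE_neg_one, WordB_mulE_neg_one] at h
      exact hsaw (i + a) (i + b) (by omega) (by omega) (sub_left_injective (neg_injective h))
    · rw [hlen, hD (e - i) le_rfl, WordB_mulE_neg_one]
      have : i + (e - i) = e := by omega
      rw [this]
      rcases he' with h | h
      · rw [h]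
        exact Or.inr rfl
      · rw [h, neg_neg]
        exact Or.inl rfl
    · intro j k hj1 hj2 hk1 hk2
      rw [hlen] at hj2 hk2
      rw [hL j hj2, hL k hk2]
      have h1 := hlv (i + j) (by omega) (by omega) (by omega)
      have h2 := hlv (i + k) (by omega) (by omega) (by omega)
      linarith [h1.1, h1.2, h2.1, h2.2]
    · rw [hlen]
      have h1 : Mid K (fun j => -lev t j) (1 + i) (e - i + i) := by
        have e1 : 1 + i = i + 1 := by omega
        have e2 : e - i + i = e := by omega
        rw [e1, e2]
        exact Mid.neg hm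
      exact Mid.congr (Mid.trans i (lev t i) h1) (fun j _ hj2 => by
        rw [hL j hj2, Nat.add_comm j i])

end HexObs
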