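import Pool.Agent.TStar.WordB
import Pool.Agent.TStar.SeqK

set_option autoImplicit false

namespace HexObs

open Complex Finset ENNReal TStar

/-- cut points of the word t with few turns on both sides -/
def CP (K : ℕ) (t : List Bool) : Set ℕ :=
  {i | i ≤ t.length ∧ (dx up t i = up ∨ dx up t i = -up) ∧ (i = 0 ∨ ∃ k, k ≤ K ∧ Chn (lev t) 1 i k) ∧
    (i = t.length ∨ ∃ k, k ≤ K ∧ ChnR (fun j => - lev t j) t.length (i + 1) k)}

/-- S6 (WordC): every level with few crossings has a cut point with few turns -/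
theorem exists_CP {H L K h : ℕ} {t : List Bool} (ht : t ∈ Brd H) (h1 : 1 ≤ h) (h2 : h < H)
    (hL : (crW t h).card ≤ L) (hK : 2 * Nat.log 3 L + 1 ≤ K) : ∃ i ∈ crW t h, i ∈ CP K t := by
  obtain ⟨p1, p2, p3⟩ := brd_profile (by omega : 1 ≤ H) ht
  obtain ⟨i, hi, k1, k2, c1, c2, c3⟩ := lemmaK (lv_lev t h) p1 p3 (by
    rw [lev_one]
    omega) (by
    rw [p2]
    omega)
  have hi' : i ∈ crW t h := hi
  have hcard : 3 ^ ((k1 + k2) / 2) ≤ L := c3.trans hL
  have hlog : (k1 + k2) / 2 ≤ Nat.log 3 L := by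
    have hL0 : L ≠ 0 := by
      intro h0
      have := Nat.pos_of_ne_zero (pow_ne_zero ((k1 + k2) / 2) (by norm_num : (3 : ℕ) ≠ 0))
      omega
    exact (Nat.le_log_iff_pow_le (by norm_num) hL0).2 hcard
  obtain ⟨v1, v2, v3⟩ := crW_vert hi'
  refine ⟨i, hi', v2.le, ?_, Or.inr ⟨k1, by omega, c1⟩, Or.inr ⟨k2, by omega, c2⟩⟩
  rcases v3 with v3 | v3
  · exact Or.inl v3.1
  · exact Or.inr v3.1

theorem CP_zero (K : ℕ) {H : ℕ} {t : List Bool} (ht : t ∈ Brd H) : 0 ∈ CP K t := by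
  refine ⟨Nat.zero_le _, Or.inl rfl, Or.inl rfl, ?_⟩
  rcases Nat.eq_zero_or_pos H with h0 | h0
  · subst h0
    rw [Brd_zero] at ht
    left
    rw [Set.mem_singleton_iff.1 ht]
    rfl
  · right
    obtain ⟨p1, p2, p3⟩ := brd_profile h0 ht
    refine ⟨0, Nat.zero_le _, ?_⟩
    unfold ChnR
    refine Chn.base _ _ _ (Nat.zero_le _) ?_
    intro j _ hj
    have q := p3 (t.length - j) (by omega) (by omega)
    have e : t.length - (t.length - (0 + 1)) = 1 := by omega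
    show -lev t (t.length - 0) ≤ -lev t (t.length - j) ∧ -lev t (t.length - j) ≤ -lev t (t.length - (t.length - (0 + 1)))
    rw [e, Nat.sub_zero]
    exact ⟨neg_le_neg q.2, neg_le_neg q.1⟩

theorem CP_length (K : ℕ) {H : ℕ} {t : List Bool} (ht : t ∈ Brd H) : t.length ∈ CP K t := by
  refine ⟨le_rfl, Or.inl (mem_Brd.1 ht).2.2.1, ?_, Or.inl rfl⟩
  rcases Nat.eq_zero_or_pos H with h0 | h0
  · subst h0
    rw [Brd_zero] at ht
    left
    rw [Set.mem_singleton_iff.1 ht]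
    rfl
  · right
    obtain ⟨p1, p2, p3⟩ := brd_profile h0 ht
    exact ⟨0, Nat.zero_le _, Chn.base _ _ _ p1 p3⟩

theorem piece_CP {H K : ℕ} {t : List Bool} {i e : ℕ} (ht : t ∈ Brd H) (hi : i ∈ CP K t) (he : e ∈ CP K t)
    (hie : i < e) : (t.drop i).take (e - i) ∈ MidW (K + 2) H := by
  obtain ⟨i1, i2, _, i4⟩ := hi
  obtain ⟨e1, e2, e3, _⟩ := he
  obtain ⟨k1, hk1, c1⟩ := e3.resolve_left (by omega)
  obtain ⟨k2, hk2, c2⟩ := i4.resolve_left (by omega)
  refine piece_mem ht hie e1 i2 e2 ?_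
  exact mid_of_chains (by omega : 1 ≤ i + 1) (by omega : i + 1 ≤ e) e1 c1 c2 (by omega) (by omega)

end HexObs
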